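import Pool.Agent.H5Sym.Core

/-!
# Virtual automorphisms: idempotents of an elementary abelian 2-group that acts on an index set
-/

set_option autoImplicit false

namespace Pool.Agent.H5Lin

open Matrix Module Pool.Agent.H5Sym

section signs

variable (K : Type) [Field K]

/-- the sign -/
def sgn (c : F2) : K := if c = 0 then 1 else -1

theorem sgn_zero : sgn K 0 = 1 := if_pos rfl

theorem sgn_one : sgn K 1 = -1 := if_neg (by decide)

theorem sgn_add (a b : F2) : sgn K (a + b) = sgn K a * sgn K b := by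
  have h11 : (1 : F2) + 1 = 0 := by decide
  rcases F2.cases a with rfl | rfl <;> rcases F2.cases b with rfl | rfl
  · rw [add_zero, sgn_zero, mul_one]
  · rw [zero_add, sgn_zero, one_mul]
  · rw [add_zero, sgn_zero, mul_one]
  · rw [h11, sgn_zero, sgn_one, neg_mul_neg, one_mul]

theorem sgn_mul_self (a : F2) : sgn K a * sgn K a = 1 := by
  rw [← sgn_add, add_self_mod, sgn_zero]

end signs

section characters

variable {K : Type} [Field K] (h2 : (2 : K) ≠ 0)
variable {H : Type*} [AddCommGroup H] [Module F2 H] [Fintype H]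

include h2

theorem sum_sgn (χ : Dual F2 H) (hχ : χ ≠ 0) : ∑ u, sgn K (χ u) = 0 := by
  obtain ⟨v, hv⟩ : ∃ v, χ v ≠ 0 := by
    by_contra h
    push Not at h
    exact hχ (LinearMap.ext h)
  have hv1 : χ v = 1 := (F2.cases _).resolve_left hv
  have h1 : ∑ u, sgn K (χ u) = ∑ u, sgn K (χ (u + v)) :=
    (Fintype.sum_equiv (Equiv.addRight v) _ _ fun u => rfl).symm
  have h3 : ∑ u, sgn K (χ (u + v)) = -∑ u, sgn K (χ u) := by
    rw [← Finset.sum_neg_distrib]
    refine Finset.sum_congr rfl fun u _ => ?_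
    rw [map_add, sgn_add, hv1, sgn_one, mul_neg, mul_one]
  rw [h3] at h1
  have h4 : (2 : K) * ∑ u, sgn K (χ u) = 0 := by linear_combination h1
  exact (mul_eq_zero.1 h4).resolve_left h2

variable [Fintype (Dual F2 H)]

theorem sum_dual_sgn (u : H) (hu : u ≠ 0) : ∑ ψ : Dual F2 H, sgn K (ψ u) = 0 := by
  obtain ⟨φ, hφ⟩ : ∃ φ : Dual F2 H, φ u ≠ 0 := by
    by_contra h
    push Not at h
    exact hu ((Module.forall_dual_apply_eq_zero_iff F2 u).1 h)
  have hφ1 : φ u = 1 := (F2.cases _).resolve_left hφ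
  have h1 : ∑ ψ : Dual F2 H, sgn K (ψ u) = ∑ ψ : Dual F2 H, sgn K ((ψ + φ) u) :=
    (Fintype.sum_equiv (Equiv.addRight φ) _ _ fun u => rfl).symm
  have h3 : ∑ ψ : Dual F2 H, sgn K ((ψ + φ) u) = -∑ ψ : Dual F2 H, sgn K (ψ u) := by
    rw [← Finset.sum_neg_distrib]
    refine Finset.sum_congr rfl fun ψ _ => ?_
    rw [LinearMap.add_apply, sgn_add, hφ1, sgn_one, mul_neg, mul_one]
  rw [h3] at h1
  have h4 : (2 : K) * ∑ ψ : Dual F2 H, sgn K (ψ u) = 0 := by linear_combination h1
  exact (mul_eq_zero.1 h4).resolve_left h2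

omit h2 in
theorem card_dual : Fintype.card (Dual F2 H) = Fintype.card H := by
  have : FiniteDimensional F2 H := Module.Finite.of_finite
  rw [Module.card_eq_pow_finrank (K := F2) (V := H),
    Module.card_eq_pow_finrank (K := F2) (V := Dual F2 H), Subspace.dual_finrank_eq]

omit [Fintype (Dual F2 H)] in
theorem card_ne_zero : (Fintype.card H : K) ≠ 0 := by
  have : FiniteDimensional F2 H := Module.Finite.of_finite
  rw [Module.card_eq_pow_finrank (K := F2) (V := H), ZMod.card]
  push_cast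
  exact pow_ne_zero _ h2

end characters

section idempotents

variable {K : Type} [Field K] {H : Type*} [AddCommGroup H] {ι : Type} [DecidableEq ι]
variable (σ : H → Equiv.Perm ι)

/-- the permutation matrix of a group element -/
def pm (K : Type) [Field K] (u : H) : Matrix ι ι K := Matrix.of fun a b => if σ u a = b then 1 else 0

variable {σ} (hσ : ∀ u v, σ (u + v) = σ u * σ v)

include hσ in
theorem sigma_zero : σ 0 = 1 := by
  have := hσ 0 0
  rw [add_zero] at this
  exact left_eq_mul.1 this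

variable [Module F2 H]

include hσ in
theorem sigma_sigma (u : H) (a : ι) : σ u (σ u a) = a := by
  rw [← Equiv.Perm.mul_apply, ← hσ, add_self_mod, sigma_zero hσ]
  rfl

include hσ in
theorem pm_transpose (u : H) : (pm σ K u)ᵀ = pm σ K u := by
  ext a b
  rw [transpose_apply, pm, of_apply, of_apply]
  have : σ u b = a ↔ σ u a = b := by
    constructor
    · rintro rfl
      exact sigma_sigma hσ u b
    · rintro rfl
      exact sigma_sigma hσ u a
  simp only [this]

variable [Fintype ι]

include hσ in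
omit [Module F2 H] in
theorem pm_mul (u v : H) : pm σ K u * pm σ K v = pm σ K (u + v) := by
  ext a b
  rw [mul_apply]
  simp only [pm, of_apply, ite_mul, one_mul, zero_mul, Finset.sum_ite_eq, Finset.mem_univ, if_true]
  rw [add_comm, hσ, Equiv.Perm.mul_apply]

include hσ in
omit [Module F2 H] in
theorem pm_zero : pm σ K 0 = (1 : Matrix ι ι K) := by
  ext a b
  rw [pm, of_apply, sigma_zero hσ, one_apply, Equiv.Perm.one_apply]

omit [AddCommGroup H] [Module F2 H] in
theorem pm_mul_apply (u : H) (M : Matrix ι ι K) (a b : ι) : (pm σ K u * M) a b = M (σ u a) b := by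
  rw [mul_apply]
  simp only [pm, of_apply, ite_mul, one_mul, zero_mul, Finset.sum_ite_eq, Finset.mem_univ, if_true]

include hσ in
theorem mul_pm_apply (u : H) (M : Matrix ι ι K) (a b : ι) : (M * pm σ K u) a b = M a (σ u b) := by
  rw [mul_apply, Finset.sum_eq_single (σ u b)]
  · rw [pm, of_apply, if_pos (sigma_sigma hσ u b), mul_one]
  · intro c _ hc
    rw [pm, of_apply, if_neg, mul_zero]
    intro h
    exact hc (by rw [← h, sigma_sigma hσ])
  · intro h
    exact absurd (Finset.mem_univ _) h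

variable [Fintype H] (σ)

/-- the idempotent of a character -/
noncomputable def idem (K : Type) [Field K] (ψ : Dual F2 H) : Matrix ι ι K :=
  (Fintype.card H : K)⁻¹ • ∑ u, sgn K (ψ u) • pm σ K u

variable {σ}

include hσ in
omit [Fintype ι] in
theorem idem_transpose (ψ : Dual F2 H) : (idem σ K ψ)ᵀ = idem σ K ψ := by
  rw [idem, transpose_smul, transpose_sum]
  simp only [transpose_smul, pm_transpose hσ]

include hσ in
theorem idem_mul (h2 : (2 : K) ≠ 0) [DecidableEq (Dual F2 H)] (ψ φ : Dual F2 H) :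
    idem σ K ψ * idem σ K φ = if ψ = φ then idem σ K ψ else 0 := by
  have hH := card_ne_zero (K := K) h2 (H := H)
  have h1 : (∑ u, sgn K (ψ u) • pm σ K u) * (∑ u, sgn K (φ u) • pm σ K u) =
      (∑ u, sgn K ((ψ + φ) u)) • ∑ t, sgn K (φ t) • pm σ K t := by
    rw [Finset.sum_mul, Finset.sum_smul]
    refine Finset.sum_congr rfl fun u _ => ?_
    rw [Finset.mul_sum, Finset.smul_sum]
    refine Fintype.sum_equiv (Equiv.addLeft u) _ _ fun v => ?_
    change sgn K (ψ u) • pm σ K u * sgn K (φ v) • pm σ K v =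
      sgn K ((ψ + φ) u) • sgn K (φ (u + v)) • pm σ K (u + v)
    rw [smul_mul_smul_comm, pm_mul hσ, smul_smul, LinearMap.add_apply, map_add, sgn_add, sgn_add]
    congr 1
    have := sgn_mul_self K (φ u)
    linear_combination -sgn K (ψ u) * sgn K (φ v) * this
  rw [idem, idem, smul_mul_smul_comm, h1]
  split_ifs with h
  · subst h
    have h3 : ∑ u, sgn K ((ψ + ψ) u) = (Fintype.card H : K) := by
      have : ∀ u, sgn K ((ψ + ψ) u) = 1 := by
        intro u
        rw [add_self_mod, LinearMap.zero_apply, sgn_zero]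
      simp only [this, Finset.sum_const, Finset.card_univ, nsmul_eq_mul, mul_one]
    rw [h3, smul_smul, mul_assoc, inv_mul_cancel₀ hH, mul_one]
  · have h3 : ψ + φ ≠ 0 := by
      intro h0
      refine h ?_
      have h4 : ψ + φ + φ = φ := by rw [h0, zero_add]
      rwa [add_assoc, add_self_mod, add_zero] at h4
    rw [sum_sgn h2 _ h3, zero_smul, smul_zero]

include hσ in
theorem sum_idem (h2 : (2 : K) ≠ 0) [Fintype (Dual F2 H)] :
    ∑ ψ : Dual F2 H, idem σ K ψ = (1 : Matrix ι ι K) := by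
  classical
  have hH := card_ne_zero (K := K) h2 (H := H)
  simp only [idem]
  rw [← Finset.smul_sum, Finset.sum_comm]
  simp only [← Finset.sum_smul]
  rw [Finset.sum_eq_single (0 : H)]
  · simp only [map_zero, sgn_zero, Finset.sum_const, Finset.card_univ, nsmul_eq_mul, mul_one]
    rw [card_dual, pm_zero hσ, smul_smul, inv_mul_cancel₀ hH, one_smul]
  · intro u _ hu
    rw [sum_dual_sgn h2 u hu, zero_smul]
  · intro h
    exact absurd (Finset.mem_univ _) h

omit [Fintype ι] in
include hσ in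
/-- the idempotent vanishes if the character is nontrivial on all stabilisers -/
theorem idem_eq_zero (h2 : (2 : K) ≠ 0) (ψ : Dual F2 H) (hψ : ∀ a, ∃ s, σ s a = a ∧ ψ s ≠ 0) :
    idem σ K ψ = 0 := by
  ext a b
  obtain ⟨s, hs, hs'⟩ := hψ a
  have hs1 : ψ s = 1 := (F2.cases _).resolve_left hs'
  rw [idem, Matrix.smul_apply, Matrix.sum_apply, Matrix.zero_apply]
  have h1 : ∑ u, (sgn K (ψ u) • pm σ K u) a b = ∑ u, (sgn K (ψ (u + s)) • pm σ K (u + s)) a b :=
    (Fintype.sum_equiv (Equiv.addRight s) _ _ fun u => rfl).symm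
  have h3 : ∑ u, (sgn K (ψ (u + s)) • pm σ K (u + s)) a b = -∑ u, (sgn K (ψ u) • pm σ K u) a b := by
    rw [← Finset.sum_neg_distrib]
    refine Finset.sum_congr rfl fun u _ => ?_
    rw [Matrix.smul_apply, Matrix.smul_apply, map_add, sgn_add, hs1, sgn_one, pm, pm, of_apply, of_apply, hσ,
      Equiv.Perm.mul_apply, hs]
    simp only [smul_eq_mul]
    ring
  rw [h3] at h1
  have h4 : (2 : K) * ∑ u, (sgn K (ψ u) • pm σ K u) a b = 0 := by linear_combination h1
  rw [(mul_eq_zero.1 h4).resolve_left h2, smul_zero]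

include hσ in
theorem idem_mul_idem_apply (ψ φ : Dual F2 H) (M : Matrix ι ι K) (a b : ι) :
    (idem σ K ψ * M * idem σ K φ) a b = (Fintype.card H : K)⁻¹ * (Fintype.card H : K)⁻¹ *
      ∑ t, sgn K (φ t) * ∑ u, sgn K ((ψ + φ) u) * M (σ u a) (σ u (σ t b)) := by
  have h1 : idem σ K ψ * M * idem σ K φ = ((Fintype.card H : K)⁻¹ * (Fintype.card H : K)⁻¹) •
      ∑ u, ∑ v, (sgn K (ψ u) * sgn K (φ v)) • (pm σ K u * M * pm σ K v) := by
    rw [idem, idem, smul_mul_assoc, smul_mul_assoc, mul_smul_comm, smul_smul]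
    congr 1
    rw [Finset.sum_mul, Finset.sum_mul]
    refine Finset.sum_congr rfl fun u _ => ?_
    rw [Finset.mul_sum]
    refine Finset.sum_congr rfl fun v _ => ?_
    rw [smul_mul_assoc, smul_mul_assoc, mul_smul_comm, smul_smul]
  rw [h1, Matrix.smul_apply, smul_eq_mul]
  congr 1
  rw [Matrix.sum_apply]
  simp only [Matrix.sum_apply, Matrix.smul_apply, mul_pm_apply hσ, pm_mul_apply, smul_eq_mul]
  simp only [Finset.mul_sum]
  rw [Finset.sum_comm (s := (Finset.univ : Finset H)) (t := (Finset.univ : Finset H))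
    (f := fun t u => sgn K (φ t) * (sgn K ((ψ + φ) u) * M (σ u a) (σ u (σ t b))))]
  refine Finset.sum_congr rfl fun u _ => ?_
  refine (Fintype.sum_equiv (Equiv.addLeft u) _ _ fun t => ?_).symm
  change sgn K (φ t) * (sgn K ((ψ + φ) u) * M (σ u a) (σ u (σ t b))) =
    sgn K (ψ u) * sgn K (φ (u + t)) * M (σ u a) (σ (u + t) b)
  rw [hσ, Equiv.Perm.mul_apply, map_add, sgn_add, LinearMap.add_apply, sgn_add]
  ring

include hσ in
/-- **Virtual automorphisms.** If the isotypic blocks of `M'` are those of `M` up to signs `δ ψ δ φ`,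
then `M'` arises from `M` by an orthogonal change of basis. -/
theorem exists_orth (h2 : (2 : K) ≠ 0) (M M' : Matrix ι ι K) (δ : Dual F2 H → K)
    (hδ : ∀ ψ, δ ψ * δ ψ = 1)
    (h : ∀ ψ φ, idem σ K ψ * M' * idem σ K φ = (δ ψ * δ φ) • (idem σ K ψ * M * idem σ K φ)) :
    ∃ A : Matrix ι ι K, A * Aᵀ = 1 ∧ M' = Aᵀ * M * A := by
  classical
  have : Finite (Dual F2 H) := Finite.of_injective (fun q : Dual F2 H => (q : H → F2))
    DFunLike.coe_injective
  have : Fintype (Dual F2 H) := Fintype.ofFinite _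
  let A : Matrix ι ι K := ∑ ψ : Dual F2 H, δ ψ • idem σ K ψ
  have hAT : Aᵀ = A := by
    simp only [A, transpose_sum, transpose_smul, idem_transpose hσ]
  have hA2 : A * A = 1 := by
    simp only [A]
    rw [Finset.sum_mul]
    have h1 : ∀ ψ : Dual F2 H, (δ ψ • idem σ K ψ) * ∑ φ : Dual F2 H, δ φ • idem σ K φ = idem σ K ψ := by
      intro ψ
      rw [Finset.mul_sum, Finset.sum_eq_single ψ]
      · rw [smul_mul_smul_comm, hδ, one_smul, idem_mul hσ h2, if_pos rfl]
      · intro φ _ hφ
        rw [smul_mul_smul_comm, idem_mul hσ h2, if_neg (Ne.symm hφ), smul_zero]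
      · intro h
        exact absurd (Finset.mem_univ _) h
    rw [Finset.sum_congr rfl fun ψ _ => h1 ψ, sum_idem hσ h2]
  refine ⟨A, by rw [hAT, hA2], ?_⟩
  rw [hAT]
  have hone := sum_idem (K := K) hσ h2
  calc M' = (∑ ψ : Dual F2 H, idem σ K ψ) * M' * ∑ φ : Dual F2 H, idem σ K φ := by
        rw [hone, one_mul, mul_one]
    _ = ∑ ψ : Dual F2 H, ∑ φ : Dual F2 H, idem σ K ψ * M' * idem σ K φ := by
        rw [Finset.sum_mul, Finset.sum_mul]
        exact Finset.sum_congr rfl fun ψ _ => Finset.mul_sum _ _ _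
    _ = ∑ ψ : Dual F2 H, ∑ φ : Dual F2 H, (δ ψ * δ φ) • (idem σ K ψ * M * idem σ K φ) :=
        Finset.sum_congr rfl fun ψ _ => Finset.sum_congr rfl fun φ _ => h ψ φ
    _ = A * M * A := by
        simp only [A]
        rw [Finset.sum_mul, Finset.sum_mul]
        refine Finset.sum_congr rfl fun ψ _ => ?_
        rw [Finset.mul_sum]
        refine Finset.sum_congr rfl fun φ _ => ?_
        rw [smul_mul_assoc, smul_mul_assoc, mul_smul_comm, smul_smul]

end idempotents

end Pool.Agent.H5Lin
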