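import Pool.Agent.H5Lin.Defs
import Pool.Agent.H5Lin.Spectral

/-!
# Circuits with symmetric gates and matrix gates: basic facts
-/

set_option autoImplicit false

namespace Pool.Agent.H5Lin

open Matrix Module Pool.Agent.H5Sym

universe u v w

namespace MatFun

variable {D : Type v} (F : MatFun D)

theorem fn_enum {ι : Type} (M : Matrix ι ι F.K) {n m : ℕ} (e₁ : ι ≃ Fin n) (e₂ : ι ≃ Fin m) :
    F.fn m (M.submatrix e₂.symm e₂.symm) = F.fn n (M.submatrix e₁.symm e₁.symm) := by
  have hnm : n = m := Fin.equiv_iff_eq.1 ⟨e₁.symm.trans e₂⟩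
  subst hnm
  let τ : Fin n ≃ Fin n := e₂.symm.trans e₁
  let A : Matrix (Fin n) (Fin n) F.K := Matrix.of fun i j => if i = τ j then 1 else 0
  have hA : A * Aᵀ = 1 := by
    ext i j
    rw [mul_apply, one_apply]
    simp only [A, transpose_apply, of_apply]
    rw [Finset.sum_eq_single (τ.symm i)]
    · rw [Equiv.apply_symm_apply, if_pos rfl, one_mul]
      simp only [eq_comm]
    · intro k _ hk
      rw [if_neg, zero_mul]
      rintro rfl
      exact hk (τ.symm_apply_apply k).symm
    · intro h
      exact absurd (Finset.mem_univ _) h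
  have h1 : M.submatrix e₂.symm e₂.symm = Aᵀ * M.submatrix e₁.symm e₁.symm * A := by
    ext i j
    rw [mul_apply, Finset.sum_eq_single (τ j)]
    · rw [mul_apply, Finset.sum_eq_single (τ i)]
      · simp only [A, transpose_apply, of_apply, if_true, submatrix_apply, one_mul, mul_one]
        simp [τ]
      · intro k _ hk
        simp only [A, transpose_apply, of_apply]
        rw [if_neg hk, zero_mul]
      · intro h
        exact absurd (Finset.mem_univ _) h
    · intro k _ hk
      simp only [A, of_apply]
      rw [if_neg hk, mul_zero]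
    · intro h
      exact absurd (Finset.mem_univ _) h
  rw [h1, F.inv n A _ hA]

theorem app_reindex {ι κ : Type} [Finite ι] [Finite κ] (e : ι ≃ κ) (M : Matrix ι ι F.K) :
    F.app κ (M.submatrix e.symm e.symm) = F.app ι M := by
  rw [app, app, submatrix_submatrix]
  exact F.fn_enum M (Finite.equivFin ι) (e.trans (Finite.equivFin κ))

theorem app_orth {ι : Type} [Fintype ι] [DecidableEq ι] (A M : Matrix ι ι F.K) (hA : A * Aᵀ = 1) :
    F.app ι (Aᵀ * M * A) = F.app ι M := by
  rw [app, app]
  set e := Finite.equivFin ι
  have h1 : (Aᵀ * M * A).submatrix e.symm e.symm =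
      (A.submatrix e.symm e.symm)ᵀ * M.submatrix e.symm e.symm * A.submatrix e.symm e.symm := by
    rw [transpose_submatrix, submatrix_mul_equiv, submatrix_mul_equiv]
  rw [h1, F.inv]
  rw [transpose_submatrix, submatrix_mul_equiv, hA, submatrix_one_equiv]

end MatFun

namespace LCircuit

variable {T : Type u} {D : Type v} {C : LCircuit.{u, v} T D}

theorem eval_input {x : T → D} {g : C.Gate} {t : T} (h : C.label g = .input t) :
    C.eval x g = x t := by
  rw [eval]
  simp only [h]

theorem eval_sym {x : T → D} {g : C.Gate} {f : Multiset (ℕ × D) → D} (h : C.label g = .sym f) :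
    C.eval x g = f ((C.wires g).map fun e => (e.1, C.eval x e.2)) := by
  rw [eval]
  simp only [h]
  congr 1
  exact Multiset.attach_map_val' (C.wires g) fun e => (e.1, C.eval x e.2)

theorem eval_mat {x : T → D} {g : C.Gate} {F : MatFun D} (h : C.label g = .mat F) :
    C.eval x g = F.app {i // C.owner i = g} fun i j => F.enc (C.eval x (C.entry i.1 j.1)) := by
  rw [eval]
  simp only [h]

namespace Action

variable {V : Type w} [AddCommGroup V] {ρ : V → Equiv.Perm T} (act : C.Action ρ)

theorem gate_zero : act.gate 0 = 1 := by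
  have := act.gate_add 0 0
  rw [add_zero] at this
  exact left_eq_mul.1 this

theorem row_zero : act.row 0 = 1 := by
  have := act.row_add 0 0
  rw [add_zero] at this
  exact left_eq_mul.1 this

theorem gate_comm (u v : V) (g : C.Gate) :
    act.gate u (act.gate v g) = act.gate v (act.gate u g) := by
  rw [← Equiv.Perm.mul_apply, ← act.gate_add, add_comm, act.gate_add, Equiv.Perm.mul_apply]

/-- the rows of a gate and of its image -/
def rowEquiv (v : V) (g : C.Gate) :
    {i // C.owner i = g} ≃ {i // C.owner i = act.gate v g} :=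
  (act.row v).subtypeEquiv fun i => by
    rw [act.owner]
    exact (act.gate v).injective.eq_iff.symm

/-- automorphisms transport values -/
theorem eval {v : V} {x y : T → D} (hxy : ∀ t, y (ρ v t) = x t) :
    ∀ g, C.eval y (act.gate v g) = C.eval x g := by
  suffices H : ∀ n, ∀ g, C.level g = n → C.eval y (act.gate v g) = C.eval x g from
    fun g => H _ g rfl
  intro n
  induction n using Nat.strong_induction_on with
  | _ n ih =>
    intro g hg
    have hl := act.label v g
    rcases hi : C.label g with t | f | F
    · rw [eval_input hi, eval_input (t := ρ v t) (by rw [hl, hi]; rfl), hxy]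
    · rw [eval_sym hi, eval_sym (f := f) (by rw [hl, hi]; rfl), act.wires, Multiset.map_map]
      congr 1
      refine Multiset.map_congr rfl fun e he => ?_
      have hl := C.level_wires g e he
      simp only [Function.comp, Prod.map, id]
      rw [ih _ (hg ▸ hl) e.2 rfl]
    · rw [eval_mat hi, eval_mat (F := F) (by rw [hl, hi]; rfl), ← F.app_reindex (act.rowEquiv v g)]
      congr 1
      funext i j
      rw [submatrix_apply]
      obtain ⟨i', rfl⟩ := (act.rowEquiv v g).surjective i
      obtain ⟨j', rfl⟩ := (act.rowEquiv v g).surjective j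
      rw [Equiv.symm_apply_apply, Equiv.symm_apply_apply]
      have h1 : C.entry ((act.rowEquiv v g) i').1 ((act.rowEquiv v g) j').1 =
          act.gate v (C.entry i'.1 j'.1) := act.entry v _ _ (i'.2.trans j'.2.symm)
      have h2 := C.level_entry i'.1 j'.1 (i'.2.trans j'.2.symm)
      rw [i'.2, hg] at h2
      rw [h1, ih _ h2 _ rfl]

variable [Module F2 V]

/-- the stabiliser of a gate -/
def gstab (g : C.Gate) : Submodule F2 V where
  carrier := {v | act.gate v g = g}
  zero_mem' := by
    rw [Set.mem_ofPred_eq, act.gate_zero]; rfl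
  add_mem' := by
    intro u v hu hv
    rw [Set.mem_ofPred_eq] at hu hv ⊢
    rw [act.gate_add, Equiv.Perm.mul_apply, hv, hu]
  smul_mem' := by
    intro c v hv
    rcases F2.cases c with rfl | rfl
    · rw [zero_smul, Set.mem_ofPred_eq, act.gate_zero]; rfl
    · rwa [one_smul]

theorem mem_gstab {g : C.Gate} {v : V} : v ∈ act.gstab g ↔ act.gate v g = g := Iff.rfl

theorem gstab_gate (v : V) (g : C.Gate) : act.gstab (act.gate v g) = act.gstab g := by
  ext u
  rw [mem_gstab, mem_gstab, act.gate_comm]
  exact (act.gate v).injective.eq_iff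

/-- the functionals of `small` that vanish on `A (stab g)` -/
def visible {W : Type*} [AddCommGroup W] [Module F2 W] (A : V →ₗ[F2] W) (small : Set (Dual F2 W))
    (g : C.Gate) : Set (Dual F2 W) :=
  {q | q ∈ small ∧ ∀ v, act.gate v g = g → q (A v) = 0}

/-- the functionals on the group that vanish on the stabiliser of some gate or row -/
def special : Set (Dual F2 V) :=
  {ξ | (∃ g, ∀ v, act.gate v g = g → ξ v = 0) ∨ ∃ i, ∀ v, act.row v i = i → ξ v = 0}

end Action

end LCircuit

end Pool.Agent.H5Lin
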