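import Pool.Agent.H5Lin.Basic
import Pool.Agent.H5Sym.OrGate
import Pool.Agent.H5Sym.Basic

/-!
# Symmetrisation by copies
-/

set_option autoImplicit false

namespace Pool.Agent.H5Lin

open Pool.Agent.H5Sym

variable {V T : Type} [AddCommGroup V] [Fintype V] (ρ : V → Equiv.Perm T)
  (C : Circuit.{0, 0, 0} T Bool)

/-- the copies of a circuit -/
noncomputable def copies : LCircuit.{0, 0} T Bool where
  Gate := Option (V × C.Gate)
  Row := Empty
  finite := inferInstance
  owner r := r.elim
  label
    | some p => match C.input p.2 with
      | some t => .input (ρ p.1 t)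
      | none => .sym (C.op p.2)
    | none => .sym orGate
  wires
    | some p => (C.wires p.2).map fun e => (e.1, some (p.1, e.2))
    | none => (Finset.univ : Finset V).val.map fun v => (0, some (v, C.out))
  entry r := r.elim
  level
    | some p => C.level p.2
    | none => C.level C.out + 1
  level_wires := by
    rintro (_ | p) e he
    · obtain ⟨v, -, rfl⟩ := Multiset.mem_map.1 he
      exact Nat.lt_succ_self _
    · obtain ⟨e', he', rfl⟩ := Multiset.mem_map.1 he
      exact C.level_lt _ e' he'
  level_entry r := r.elim
  out := none

/-- the action on the copies -/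
def copiesPerm (u : V) : Equiv.Perm (Option (V × C.Gate)) :=
  Equiv.optionCongr (Equiv.prodCongr (Equiv.addLeft u) (Equiv.refl _))

/-- the action -/
noncomputable def copiesAct (hρ : ∀ u v, ρ (u + v) = ρ u * ρ v) : (copies ρ C).Action ρ where
  gate := copiesPerm C
  row u := Equiv.refl _
  gate_add u v := by
    refine Equiv.ext ?_
    rintro (_ | ⟨w, g⟩)
    · rfl
    · change some (u + v + w, g) = some (u + (v + w), g)
      rw [add_assoc]
  row_add u v := rfl
  label u g := by
    rcases g with _ | ⟨w, g⟩
    · rfl
    · change (match C.input g with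
        | some t => Label.input (ρ (u + w) t)
        | none => .sym (C.op g) : Label T Bool) = (match C.input g with
        | some t => Label.input (ρ w t)
        | none => .sym (C.op g) : Label T Bool).map (ρ u)
      cases C.input g with
      | none => rfl
      | some t =>
        change Label.input (ρ (u + w) t) = Label.input (ρ u (ρ w t))
        rw [hρ]
        rfl
  wires u g := by
    rcases g with _ | ⟨w, g⟩
    · change (Finset.univ : Finset V).val.map (fun v => (0, some (v, C.out))) =
        ((Finset.univ : Finset V).val.map fun v => (0, some (v, C.out))).map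
          (Prod.map id (copiesPerm C u))
      rw [Multiset.map_map]
      have h1 : (Finset.univ : Finset V).val = (Finset.univ : Finset V).val.map (Equiv.addLeft u) := by
        have h2 : Finset.univ.map (Equiv.addLeft u).toEmbedding = (Finset.univ : Finset V) :=
          Finset.map_univ_equiv _
        exact (congrArg Finset.val h2).symm
      conv_lhs => rw [h1]
      rw [Multiset.map_map]
      rfl
    · change (C.wires g).map (fun e => (e.1, some (u + w, e.2))) =
        ((C.wires g).map fun e => (e.1, some (w, e.2))).map (Prod.map id (copiesPerm C u))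
      rw [Multiset.map_map]
      rfl
  owner u i := i.elim
  entry u i := i.elim
  out u := rfl

theorem copies_eval (x : T → Bool) (v : V) (g : C.Gate) :
    (copies ρ C).eval x (some (v, g) : Option (V × C.Gate)) = C.eval (x ∘ ρ v) g := by
  suffices H : ∀ n, ∀ g, C.level g = n →
      (copies ρ C).eval x (some (v, g) : Option (V × C.Gate)) = C.eval (x ∘ ρ v) g from H _ g rfl
  intro n
  induction n using Nat.strong_induction_on with
  | _ n ih =>
    intro g hg
    obtain hi | ⟨t, hi⟩ : C.input g = none ∨ ∃ t, C.input g = some t := by
      cases h : C.input g with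
      | none => exact Or.inl rfl
      | some t => exact Or.inr ⟨t, rfl⟩
    · have h1 : (copies ρ C).label (some (v, g) : Option (V × C.Gate)) = .sym (C.op g) := by
        simp only [copies, hi]
      rw [LCircuit.eval_sym (C := copies ρ C) h1, C.eval_none hi]
      congr 1
      change Multiset.map _ ((C.wires g).map fun e => (e.1, some (v, e.2))) = _
      rw [Multiset.map_map]
      refine Multiset.map_congr rfl fun e he => ?_
      exact Prod.ext rfl (ih _ (hg ▸ C.level_lt g e he) e.2 rfl)
    · have h1 : (copies ρ C).label (some (v, g) : Option (V × C.Gate)) = .input (ρ v t) := by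
        simp only [copies, hi]
      rw [LCircuit.eval_input (C := copies ρ C) h1, C.eval_some hi]
      rfl

/-- **Symmetrisation by copies.** -/
theorem symmetrise (hρ : ∀ u v, ρ (u + v) = ρ u * ρ v) (P : (T → Bool) → Prop)
    (hP : ∀ x u, P (x ∘ ρ u) ↔ P x) [Finite C.Gate] (hC : ∀ x, C.eval x C.out = true ↔ P x) :
    ∃ C' : LCircuit.{0, 0} T Bool, Nonempty (C'.Action ρ) ∧ Finite C'.Gate ∧
      (∀ g, (∃ t, C'.label g = .input t) ∨ C'.label g = .sym orGate ∨
        ∃ h, C'.label g = .sym (C.op h)) ∧
      (∀ x : T → Bool, C'.eval x C'.out = true ↔ P x) ∧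
      C'.size = Nat.card V * Nat.card C.Gate + 1 := by
  classical
  refine ⟨copies ρ C, ⟨copiesAct ρ C hρ⟩, inferInstanceAs (Finite (Option (V × C.Gate))), ?_, ?_, ?_⟩
  · rintro (_ | ⟨v, g⟩)
    · exact Or.inr (Or.inl rfl)
    · obtain hi | ⟨t, hi⟩ : C.input g = none ∨ ∃ t, C.input g = some t := by
        cases h : C.input g with
        | none => exact Or.inl rfl
        | some t => exact Or.inr ⟨t, rfl⟩
      · refine Or.inr (Or.inr ⟨g, ?_⟩)
        simp only [copies, hi]
      · refine Or.inl ⟨ρ v t, ?_⟩
        simp only [copies, hi]
  · intro x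
    have h1 : (copies ρ C).eval x (copies ρ C).out = orGate
        (((Finset.univ : Finset V).val.map fun v => ((0 : ℕ), (some (v, C.out) :
          Option (V × C.Gate)))).map fun e => (e.1, (copies ρ C).eval x e.2)) :=
      LCircuit.eval_sym (C := copies ρ C) (f := orGate) rfl
    have h2 : ∀ v, C.eval (x ∘ ρ v) C.out = true ↔ P x := fun v => by rw [hC, hP]
    rw [h1, orGate, decide_eq_true_eq, Multiset.map_map, Multiset.map_map, Multiset.mem_map]
    constructor
    · rintro ⟨v, -, h3⟩
      exact (h2 v).1 ((copies_eval ρ C x v C.out).symm.trans h3)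
    · intro h
      exact ⟨0, Finset.mem_univ _, (copies_eval ρ C x 0 C.out).trans ((h2 0).2 h)⟩
  · change Nat.card (Option (V × C.Gate)) + Nat.card Empty = _
    have : Fintype C.Gate := Fintype.ofFinite _
    rw [Nat.card_eq_fintype_card, Fintype.card_option, Fintype.card_prod,
      Nat.card_eq_fintype_card (α := V), Nat.card_eq_fintype_card (α := C.Gate),
      Nat.card_eq_fintype_card (α := Empty), Fintype.card_empty]

end Pool.Agent.H5Lin
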