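import Pool.Agent.H5Lin.Basic

/-!
# The core lemma for circuits with symmetric gates and matrix gates
-/

set_option autoImplicit false

namespace Pool.Agent.H5Lin

open Matrix Module Pool.Agent.H5Sym

universe u v w

section sums

variable {K : Type} [Field K] {H : Type*} [AddCommGroup H] [Module F2 H] [Fintype H]

/-- A function on the group which is invariant under a subgroup has Fourier coefficients only at the
characters which are trivial on the subgroup. -/
theorem fourier_zero (h2 : (2 : K) ≠ 0) (f : H → K) (χ : Dual F2 H) (u₀ : H) (hu : χ u₀ ≠ 0)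
    (hf : ∀ u, f (u + u₀) = f u) : ∑ u, sgn K (χ u) * f u = 0 := by
  have hu1 : χ u₀ = 1 := (F2.cases _).resolve_left hu
  have h1 : ∑ u, sgn K (χ u) * f u = ∑ u, sgn K (χ (u + u₀)) * f (u + u₀) :=
    (Fintype.sum_equiv (Equiv.addRight u₀) _ _ fun u => rfl).symm
  have h3 : ∑ u, sgn K (χ (u + u₀)) * f (u + u₀) = -∑ u, sgn K (χ u) * f u := by
    rw [← Finset.sum_neg_distrib]
    refine Finset.sum_congr rfl fun u _ => ?_
    rw [map_add, sgn_add, hu1, sgn_one, hf]
    ring
  rw [h3] at h1
  have h4 : (2 : K) * ∑ u, sgn K (χ u) * f u = 0 := by linear_combination h1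
  exact (mul_eq_zero.1 h4).resolve_left h2

omit [Module F2 H] in
theorem fourier_shift [Module F2 H] (f : H → K) (χ : Dual F2 H) (v : H) :
    ∑ u, sgn K (χ u) * f (u + v) = sgn K (χ v) * ∑ u, sgn K (χ u) * f u := by
  have h1 : ∑ u, sgn K (χ u) * f u = ∑ u, sgn K (χ (u + v)) * f (u + v) :=
    (Fintype.sum_equiv (Equiv.addRight v) _ _ fun u => rfl).symm
  rw [h1, Finset.mul_sum]
  refine Finset.sum_congr rfl fun u _ => ?_
  rw [map_add, sgn_add]
  have := sgn_mul_self K (χ v)
  linear_combination (-sgn K (χ u) * f (u + v)) * this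

end sums

namespace LCircuit

variable {T : Type u} {D : Type v} {C : LCircuit.{u, v} T D}

namespace Action

variable {V : Type} [AddCommGroup V] [Module F2 V] [Finite V] {ρ : V → Equiv.Perm T}
  (act : C.Action ρ)
variable {W : Type*} [AddCommGroup W] [Module F2 W] [Finite W]

/-- the matrix gates -/
theorem core_mat (A : V →ₗ[F2] W) (small small' : Set (Dual F2 W)) (h0 : 0 ∈ small')
    (hadd : ∀ q ∈ small', ∀ q' ∈ small', q + q' ∈ small)
    (gap : ∀ q ∈ small, (∃ ξ ∈ act.special, ∃ η ∈ act.special, ∀ v, q (A v) = ξ v + η v) →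
      q ∈ small') (g : C.Gate) (F : MatFun D) (hF : (2 : F.K) ≠ 0)
    (M : W → Matrix {i // C.owner i = g} {i // C.owner i = g} F.K)
    (L : {i // C.owner i = g} → {i // C.owner i = g} → Submodule F2 (Dual F2 W))
    (hLs : ∀ a b, ∀ q ∈ L a b, q ∈ small)
    (hM : ∀ (u : V) (hu : act.gate u g = g) (w : W) (a b a' b' : {i // C.owner i = g}),
      a'.1 = act.row u a.1 → b'.1 = act.row u b.1 → M w a' b' = M (w + A u) a b)
    (hI : ∀ a b d, (∀ q ∈ L a b, q d = 0) → ∀ w, M (w + d) a b = M w a b)
    (d : W) (hd : ∀ q ∈ act.visible A small g, q d = 0) (w : W) :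
    F.app _ (M (w + d)) = F.app _ (M w) := by
  classical
  let ι := {i // C.owner i = g}
  let H := act.gstab g
  have : Fintype ι := Fintype.ofFinite ι
  have : Fintype H := Fintype.ofFinite H
  have : FiniteDimensional F2 H := Module.Finite.of_finite
  have hown : ∀ u : H, ∀ i, C.owner i = g ↔ C.owner (act.row u.1 i) = g := by
    intro u i
    rw [act.owner]
    conv_rhs => rw [← (act.mem_gstab.1 u.2 : act.gate u.1 g = g)]
    exact (act.gate u.1).injective.eq_iff.symm
  let σ : H → Equiv.Perm ι := fun u => (act.row u.1).subtypeEquiv (hown u)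
  have hσ1 : ∀ (u : H) (a : ι), (σ u a).1 = act.row u.1 a.1 := fun u a => rfl
  have hσ : ∀ u v : H, σ (u + v) = σ u * σ v := by
    intro u v
    refine Equiv.ext fun a => Subtype.ext ?_
    rw [Equiv.Perm.mul_apply, hσ1, hσ1, hσ1]
    change act.row (u.1 + v.1) a.1 = _
    rw [act.row_add, Equiv.Perm.mul_apply]
  have hMσ : ∀ (u : H) (w : W) (a b : ι), M w (σ u a) (σ u b) = M (w + A u.1) a b :=
    fun u w a b => hM u.1 u.2 w a b _ _ rfl rfl
  -- the functionals on `H` that are trivial on some stabiliser of a row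
  let X : Set (Dual F2 H) := {ψ | ∃ a : ι, ∀ s : H, σ s a = a → ψ s = 0}
  have hG : ∀ q ∈ small, ∀ ψ ∈ X, ∀ φ ∈ X, (∀ u : H, q (A u.1) = ψ u + φ u) → q ∈ small' := by
    rintro q hq ψ ⟨a, ha⟩ φ ⟨b, hb⟩ hqu
    obtain ⟨η, hη⟩ := φ.exists_extend
    have hη1 : ∀ u : H, η u.1 = φ u := fun u => LinearMap.congr_fun hη u
    let ξ : Dual F2 V := q.comp A + η
    have hξ : ∀ u : H, ξ u.1 = ψ u := by
      intro u
      change q (A u.1) + η u.1 = ψ u
      rw [hqu, hη1, add_assoc, add_self_mod, add_zero]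
    have hst : ∀ (c : ι) (v : V), act.row v c.1 = c.1 → act.gate v g = g := by
      intro c v hv
      have h1 := act.owner v c.1
      rw [hv, c.2] at h1
      exact h1.symm
    refine gap q hq ⟨ξ, Or.inr ⟨a.1, fun v hv => ?_⟩, η, Or.inr ⟨b.1, fun v hv => ?_⟩, fun v => ?_⟩
    · have h1 : v ∈ H := hst a v hv
      rw [show ξ v = ψ ⟨v, h1⟩ from hξ ⟨v, h1⟩]
      exact ha _ (Subtype.ext hv)
    · have h1 : v ∈ H := hst b v hv
      rw [show η v = φ ⟨v, h1⟩ from hη1 ⟨v, h1⟩]
      exact hb _ (Subtype.ext hv)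
    · change q (A v) = q (A v) + η v + η v
      rw [add_assoc, add_self_mod, add_zero]
  -- the classes of these functionals
  let S : Setoid X :=
    { r := fun ψ φ => ∃ q ∈ small', ∀ u : H, q (A u.1) = ψ.1 u + φ.1 u
      iseqv :=
        { refl := fun ψ => ⟨0, h0, fun u => (add_self_mod _).symm⟩
          symm := by
            rintro ψ φ ⟨q, hq, h⟩
            exact ⟨q, hq, fun u => by rw [h, add_comm]⟩
          trans := by
            rintro ψ φ θ ⟨q, hq, h⟩ ⟨q', hq', h'⟩
            have h1 : ∀ u : H, (q + q') (A u.1) = ψ.1 u + θ.1 u := by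
              intro u
              rw [LinearMap.add_apply, h, h']
              have := add_self_mod (φ.1 u)
              linear_combination this
            exact ⟨q + q', hG _ (hadd q hq q' hq') _ ψ.2 _ θ.2 h1, h1⟩ } }
  have hrep : ∀ ψ : X, ∃ q ∈ small', ∀ u : H,
      q (A u.1) = ψ.1 u + (Quotient.out (Quotient.mk S ψ)).1 u := fun ψ =>
    Setoid.symm (Quotient.mk_out (s := S) ψ)
  choose p hp1 hp2 using hrep
  let δ : Dual F2 H → F.K := fun ψ => if h : ψ ∈ X then sgn F.K (p ⟨ψ, h⟩ d) else 1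
  have hδ : ∀ ψ, δ ψ * δ ψ = 1 := by
    intro ψ
    change (if h : ψ ∈ X then sgn F.K (p ⟨ψ, h⟩ d) else 1) *
      (if h : ψ ∈ X then sgn F.K (p ⟨ψ, h⟩ d) else 1) = 1
    split_ifs
    · exact sgn_mul_self _ _
    · exact one_mul 1
  have hvis : ∀ q ∈ small, (∀ u : H, q (A u.1) = 0) → q d = 0 := fun q hq h =>
    hd q ⟨hq, fun v hv => h ⟨v, hv⟩⟩
  have hδδ : ∀ ψ ∈ X, ∀ φ ∈ X, ∀ q ∈ small, (∀ u : H, q (A u.1) = ψ u + φ u) →
      δ ψ * δ φ = sgn F.K (q d) := by
    intro ψ hψ φ hφ q hq hqu
    have e1 : δ ψ = sgn F.K (p ⟨ψ, hψ⟩ d) := dif_pos hψ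
    have e2 : δ φ = sgn F.K (p ⟨φ, hφ⟩ d) := dif_pos hφ
    rw [e1, e2, ← sgn_add]
    have hq' := hG q hq ψ hψ φ hφ hqu
    have hcl : Quotient.mk S ⟨ψ, hψ⟩ = Quotient.mk S ⟨φ, hφ⟩ :=
      Quotient.sound (show S.r ⟨ψ, hψ⟩ ⟨φ, hφ⟩ from ⟨q, hq', hqu⟩)
    have h1 : ∀ u : H, (p ⟨ψ, hψ⟩ + p ⟨φ, hφ⟩) (A u.1) = ψ u + φ u := by
      intro u
      rw [LinearMap.add_apply, hp2, hp2, hcl]
      have := add_self_mod ((Quotient.out (Quotient.mk S ⟨φ, hφ⟩)).1 u)
      linear_combination this
    have h2 := hG _ (hadd _ (hp1 _) _ (hp1 _)) ψ hψ φ hφ h1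
    have h3 : (q + (p ⟨ψ, hψ⟩ + p ⟨φ, hφ⟩)) d = 0 := by
      refine hvis _ (hadd _ hq' _ h2) fun u => ?_
      rw [LinearMap.add_apply, h1, hqu]
      exact add_self_mod _
    rw [LinearMap.add_apply, LinearMap.add_apply] at h3
    have h5 : ∀ a b : F2, a + b = 0 → b = a := by decide
    rw [h5 _ _ h3]
  -- the diagonal sums
  have key : ∀ (a b : ι) (χ : Dual F2 H), (∃ q ∈ small, (∀ u : H, q (A u.1) = χ u) ∧
      ∑ u : H, sgn F.K (χ u) * M (w + d) (σ u a) (σ u b) =
        sgn F.K (q d) * ∑ u : H, sgn F.K (χ u) * M w (σ u a) (σ u b)) ∨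
      (∑ u : H, sgn F.K (χ u) * M (w + d) (σ u a) (σ u b) = 0 ∧
        ∑ u : H, sgn F.K (χ u) * M w (σ u a) (σ u b) = 0) := by
    intro a b χ
    by_cases hq : ∃ q ∈ L a b, ∀ u : H, q (A u.1) = χ u
    · obtain ⟨q, hqL, hqχ⟩ := hq
      left
      refine ⟨q, hLs a b q hqL, hqχ, ?_⟩
      obtain ⟨v, hv, hv'⟩ := exists_correction A H (L a b) d
        (fun q' hq' h => hvis q' (hLs a b q' hq') fun u => h u.1 u.2)
      let v₀ : H := ⟨v, hv⟩
      let f : H → F.K := fun u => M (w + A u.1) a b
      have e1 : ∀ u : H, M (w + d) (σ u a) (σ u b) = f (u + v₀) := by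
        intro u
        rw [hMσ]
        have h1 : w + d + A u.1 = (w + A (u + v₀).1) + (d + A v) := by
          change w + d + A u.1 = (w + A (u.1 + v)) + (d + A v)
          rw [map_add]
          have h2 := add_self_mod (A v)
          calc w + d + A u.1 = w + A u.1 + d + 0 := by abel
            _ = w + A u.1 + d + (A v + A v) := by rw [h2]
            _ = _ := by abel
        rw [h1, hI a b _ hv']
      have e2 : ∀ u : H, M w (σ u a) (σ u b) = f u := fun u => hMσ u w a b
      simp only [e1, e2]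
      rw [fourier_shift]
      congr 2
      have h1 := hv' q hqL
      rw [map_add] at h1
      have h2 : χ v₀ = q (A v) := (hqχ v₀).symm
      rw [h2]
      have h5 : ∀ a b : F2, a + b = 0 → b = a := by decide
      exact h5 _ _ h1
    · right
      let B : H →ₗ[F2] W := A.comp H.subtype
      let N : Submodule F2 (Dual F2 H) := (L a b).map B.dualMap
      have hχ : χ ∉ N := by
        rintro ⟨q, hq1, hq2⟩
        exact hq ⟨q, hq1, fun u => LinearMap.congr_fun hq2 u⟩
      rw [← Subspace.dualCoannihilator_dualAnnihilator_eq (W := N),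
        Submodule.mem_dualAnnihilator] at hχ
      push Not at hχ
      obtain ⟨u₀, h1, h2⟩ := hχ
      rw [Submodule.mem_dualCoannihilator] at h1
      have h3 : ∀ q ∈ L a b, q (A u₀.1) = 0 := fun q hq => h1 (B.dualMap q) ⟨q, hq, rfl⟩
      have h4 : ∀ w' : W, ∑ u : H, sgn F.K (χ u) * M w' (σ u a) (σ u b) = 0 := by
        intro w'
        have e2 : ∀ u : H, M w' (σ u a) (σ u b) = (fun u : H => M (w' + A u.1) a b) u :=
          fun u => hMσ u w' a b
        simp only [e2]
        refine fourier_zero hF _ χ u₀ h2 fun u => ?_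
        change M (w' + A (u.1 + u₀.1)) a b = M (w' + A u.1) a b
        rw [map_add, ← add_assoc, hI a b _ h3]
      exact ⟨h4 _, h4 _⟩
  obtain ⟨B, hB1, hB2⟩ := exists_orth (K := F.K) hσ hF (M w) (M (w + d)) δ hδ (fun ψ φ => by
    by_cases hψ : ψ ∈ X
    · by_cases hφ : φ ∈ X
      · ext a b
        rw [Matrix.smul_apply, idem_mul_idem_apply hσ, idem_mul_idem_apply hσ, smul_eq_mul,
          mul_left_comm]
        congr 1
        rw [Finset.mul_sum]
        refine Finset.sum_congr rfl fun t _ => ?_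
        rw [mul_left_comm]
        congr 1
        rcases key a (σ t b) (ψ + φ) with ⟨q, hq, hq1, hq2⟩ | ⟨h1, h2⟩
        · rw [hq2, hδδ ψ hψ φ hφ q hq hq1]
        · rw [h1, h2, mul_zero]
      · have h0 : idem σ F.K φ = 0 := by
          refine idem_eq_zero hσ hF φ fun a => ?_
          by_contra hcon
          push Not at hcon
          exact hφ ⟨a, hcon⟩
        rw [h0, mul_zero, mul_zero, smul_zero]
    · have h0 : idem σ F.K ψ = 0 := by
        refine idem_eq_zero hσ hF ψ fun a => ?_
        by_contra hcon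
        push Not at hcon
        exact hψ ⟨a, hcon⟩
      rw [h0, zero_mul, zero_mul, zero_mul, zero_mul, smul_zero])
  rw [hB2]
  exact F.app_orth B (M w) hB1

/-- **The core lemma.** The values of the gates only depend on the visible functionals. -/
theorem core (hodd : C.OddFields) (A : V →ₗ[F2] W) (ω : W → T → D) (hω : ∀ w v t, ω (w + A v) (ρ v t) = ω w t)
    (small small' : Set (Dual F2 W)) (h0 : 0 ∈ small')
    (hadd : ∀ q ∈ small', ∀ q' ∈ small', q + q' ∈ small)
    (base : ∀ t w d, (∀ q ∈ small, (∀ v, ρ v t = t → q (A v) = 0) → q d = 0) → ω (w + d) t = ω w t)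
    (gap : ∀ q ∈ small, (∃ ξ ∈ act.special, ∃ η ∈ act.special, ∀ v, q (A v) = ξ v + η v) →
      q ∈ small') :
    ∀ g d, (∀ q ∈ act.visible A small g, q d = 0) →
      ∀ w, C.eval (ω (w + d)) g = C.eval (ω w) g := by
  classical
  suffices H : ∀ n, ∀ g, C.level g = n → ∀ d, (∀ q ∈ act.visible A small g, q d = 0) →
      ∀ w, C.eval (ω (w + d)) g = C.eval (ω w) g from fun g => H _ g rfl
  have h0s : (0 : Dual F2 W) ∈ small := by
    have := hadd 0 h0 0 h0
    rwa [add_zero] at this
  have hvs : ∀ g, ∀ q ∈ act.visible A small g, q ∈ small' := by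
    rintro g q ⟨hq, hq'⟩
    refine gap q hq ⟨q.comp A, Or.inl ⟨g, hq'⟩, 0, Or.inl ⟨g, fun v _ => rfl⟩, fun v => ?_⟩
    change q (A v) = q (A v) + 0
    rw [add_zero]
  -- the visible functionals form a subspace
  let L : C.Gate → Submodule F2 (Dual F2 W) := fun g =>
    { carrier := act.visible A small g
      zero_mem' := ⟨h0s, fun v _ => rfl⟩
      add_mem' := fun {q q'} hq hq' => ⟨hadd q (hvs g q hq) q' (hvs g q' hq'), fun v hv => by
        rw [LinearMap.add_apply, hq.2 v hv, hq'.2 v hv, add_zero]⟩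
      smul_mem' := fun c q hq => by
        rcases F2.cases c with rfl | rfl
        · rw [zero_smul]; exact ⟨h0s, fun v _ => rfl⟩
        · rwa [one_smul] }
  have hL : ∀ g q, q ∈ L g ↔ q ∈ act.visible A small g := fun g q => Iff.rfl
  have hLπ : ∀ (v : V) (g : C.Gate), L (act.gate v g) = L g := by
    intro v g
    ext q
    rw [hL, hL, visible, visible, Set.mem_ofPred_eq, Set.mem_ofPred_eq]
    have h1 : ∀ u, act.gate u (act.gate v g) = act.gate v g ↔ act.gate u g = g := fun u => by
      rw [act.gate_comm]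
      exact (act.gate v).injective.eq_iff
    simp only [h1]
  have hev : ∀ (w : W) (v : V) (g : C.Gate),
      C.eval (ω w) (act.gate v g) = C.eval (ω (w + A v)) g := by
    intro w v g
    refine act.eval (fun t => ?_) g
    have := hω (w + A v) v t
    rwa [add_assoc, add_self_mod, add_zero] at this
  intro n
  induction n using Nat.strong_induction_on with
  | _ n ih =>
    intro g hg d hd w
    rcases hi : C.label g with t | f | F
    · rw [eval_input hi, eval_input hi]
      refine base t w d fun q hq hq' => hd q ⟨hq, fun v hv => hq' v ?_⟩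
      have h1 := act.label v g
      rw [hv, hi] at h1
      injection h1 with h2
      exact h2.symm
    · rw [eval_sym hi, eval_sym hi]
      congr 1
      refine map_eq_map_of_classes (fun e : ℕ × C.Gate => L e.2) _ _ _ _ rfl fun k => ?_
      rcases Multiset.empty_or_exists_mem ((C.wires g).filter fun e => L e.2 = k) with he | ⟨e₀, he₀⟩
      · rw [he]; rfl
      rw [Multiset.mem_filter] at he₀
      obtain ⟨v, hv, hv'⟩ := exists_correction A (act.gstab g) k d (fun q hq hq' => by
        refine hd q ⟨?_, hq'⟩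
        rw [← he₀.2] at hq
        exact hq.1)
      have hw : (C.wires g).map (Prod.map id (act.gate v)) = C.wires g := by
        rw [← act.wires, act.mem_gstab.1 hv]
      have hM : ((C.wires g).filter fun e => L e.2 = k) =
          ((C.wires g).filter fun e => L e.2 = k).map (Prod.map id (act.gate v)) := by
        conv_lhs => rw [← hw]
        rw [Multiset.filter_map]
        congr 1
        refine Multiset.filter_congr fun e _ => ?_
        simp only [Function.comp, Prod.map]
        rw [hLπ v]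
      conv_lhs => rw [hM]
      rw [Multiset.map_map]
      refine Multiset.map_congr rfl fun e he => ?_
      rw [Multiset.mem_filter] at he
      simp only [Function.comp, Prod.map, id]
      rw [hev, add_assoc, ih _ (hg ▸ C.level_wires g e he.1) e.2 rfl (d + A v) ?_ w]
      intro q hq
      refine hv' q ?_
      rw [← he.2]
      exact hq
    · rw [eval_mat hi, eval_mat hi]
      refine act.core_mat A small small' h0 hadd gap g F (hodd g F hi)
        (fun w i j => F.enc (C.eval (ω w) (C.entry i.1 j.1))) (fun i j => L (C.entry i.1 j.1))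
        (fun a b q hq => hq.1) ?_ ?_ d hd w
      · intro u hu w a b a' b' ha hb
        rw [ha, hb, act.entry u _ _ (a.2.trans b.2.symm), hev]
      · intro a b d' hd' w'
        have h2 := C.level_entry a.1 b.1 (a.2.trans b.2.symm)
        rw [a.2, hg] at h2
        rw [ih _ h2 _ rfl d' hd' w']

end Action

end LCircuit

end Pool.Agent.H5Lin
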