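import Pool.Agent.H5Lin.Special
import Pool.Agent.H5Sym.TwoSatMain
import Pool.Agent.H5Sym.PermMain

/-!
# Counting with linear algebra gates: satisfying assignments of 2-CNF formulas and perfect matchings
-/

set_option autoImplicit false

namespace Pool.Agent.H5Lin

open Module Equiv Pool.Agent.H5Sym

universe u v

/-- the sums of two special functionals are few -/
theorem sums_card {T : Type u} {D : Type v} {C : LCircuit.{u, v} T D} [Finite C.Gate] {V : Type}
    [AddCommGroup V] [Module F2 V] [Finite V] {ρ : V → Perm T} (act : C.Action ρ) :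
    {ζ : Dual F2 V | ∃ ξ ∈ act.special, ∃ η ∈ act.special, ζ = ξ + η}.ncard ≤ C.size ^ 2 := by
  have : Finite (Dual F2 V) := Finite.of_injective (fun q : Dual F2 V => (q : V → F2))
    DFunLike.coe_injective
  have h1 : {ζ : Dual F2 V | ∃ ξ ∈ act.special, ∃ η ∈ act.special, ζ = ξ + η} =
      (fun p : Dual F2 V × Dual F2 V => p.1 + p.2) '' (act.special ×ˢ act.special) := by
    ext ζ
    constructor
    · rintro ⟨ξ, hξ, η, hη, rfl⟩
      exact ⟨(ξ, η), ⟨hξ, hη⟩, rfl⟩
    · rintro ⟨⟨ξ, η⟩, ⟨hξ, hη⟩, rfl⟩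
      exact ⟨ξ, hξ, η, hη, rfl⟩
  rw [h1]
  refine (Set.ncard_image_le (Set.toFinite _)).trans ?_
  rw [Set.ncard_prod, pow_two]
  exact Nat.mul_le_mul act.special_card act.special_card

/-- the parity of the sum of the parameters is not visible, cubic graphs -/
theorem foolingG {P : ℕ} {β X : Type} [Finite β] {D : Type u} (e : β × K4 ↪ X)
    (C : LCircuit.{0, u} (X × X) D) [Finite C.Gate] (hodd : C.OddFields) (inp : Bool → D)
    (act : C.Action fun v : β → K4 => pairPerm ((blockShift v).viaEmbedding e))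
    {κ : ℕ} (hκ : 0 < κ) (hP : 12 * κ ≤ P) (ι : Bool × Fin P ↪ β)
    (hcard : C.size ^ 2 * (6 * κ) ^ 3 < P.choose κ) :
    ∃ (σ : Fin 3 → Perm (Fin P)) (d : Fin 3 × Fin P → F2), ∑ e, d e = 1 ∧
      ∀ w, C.eval (inp ∘ mat e ι σ (w + d)) C.out = C.eval (inp ∘ mat e ι σ w) C.out := by
  classical
  obtain ⟨σ, hσ⟩ := exists_good (κ := κ) hP ι
    {ζ : Dual F2 (β → K4) | ∃ ξ ∈ act.special, ∃ η ∈ act.special, ζ = ξ + η}
    (lt_of_le_of_lt (Nat.mul_le_mul_right _ (sums_card act)) hcard)
  refine ⟨σ, ?_⟩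
  let q₀ : Dual F2 (Fin 3 × Fin P → F2) := ∑ e, LinearMap.proj e
  have hq₀ : ∀ d, q₀ d = ∑ e, d e := fun d => by simp [q₀]
  let small : Set (Dual F2 (Fin 3 × Fin P → F2)) := {q | wt q < 6 * κ}
  let small' : Set (Dual F2 (Fin 3 × Fin P → F2)) := {q | wt q < 3 * κ}
  have h0 : (0 : Dual F2 (Fin 3 × Fin P → F2)) ∈ small' := by
    change wt 0 < 3 * κ
    rw [wt_zero]; omega
  have hadd : ∀ q ∈ small', ∀ q' ∈ small', q + q' ∈ small := by
    intro q hq q' hq'
    have h1 := wt_add q q'
    have h2 : wt q < 3 * κ := hq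
    have h3 : wt q' < 3 * κ := hq'
    change wt (q + q') < 6 * κ
    omega
  have hgap : ∀ q ∈ small, (∃ ξ ∈ act.special, ∃ η ∈ act.special,
      ∀ v, q (bdry ι σ v) = ξ v + η v) → q ∈ small' := by
    rintro q hq ⟨ξ, hξ, η, hη, h⟩
    have h2 : wt q < 6 * κ := hq
    by_contra h3
    exact hσ q (not_lt.1 h3) h2 ⟨ξ, hξ, η, hη, LinearMap.ext h⟩
  have hvis : ∀ q ∈ act.visible (bdry ι σ) small C.out, q ∈ small' := by
    rintro q ⟨hq, hq'⟩
    refine hgap q hq ⟨q.comp (bdry ι σ), Or.inl ⟨C.out, hq'⟩, 0, Or.inl ⟨C.out, fun v _ => rfl⟩,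
      fun v => (add_zero _).symm⟩
  let L : Submodule F2 (Dual F2 (Fin 3 × Fin P → F2)) :=
    { carrier := act.visible (bdry ι σ) small C.out
      zero_mem' := ⟨by have := hadd 0 h0 0 h0; rwa [add_zero] at this, fun v _ => rfl⟩
      add_mem' := fun {q q'} hq hq' => ⟨hadd q (hvis q hq) q' (hvis q' hq'), fun v hv => by
        rw [LinearMap.add_apply, hq.2 v hv, hq'.2 v hv, add_zero]⟩
      smul_mem' := fun c q hq => by
        rcases F2.cases c with rfl | rfl
        · rw [zero_smul]
          exact ⟨by have := hadd 0 h0 0 h0; rwa [add_zero] at this, fun v _ => rfl⟩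
        · rwa [one_smul] }
  have hq : q₀ ∉ L := by
    intro h
    have h1 : wt q₀ < 6 * κ := h.1
    have h2 : wt q₀ = 3 * P := by
      rw [wt, Finset.filter_true_of_mem]
      · simp
      · intro e _
        rw [hq₀, Finset.sum_pi_single']
        simp
    omega
  rw [← Subspace.dualCoannihilator_dualAnnihilator_eq (W := L), Submodule.mem_dualAnnihilator] at hq
  push Not at hq
  obtain ⟨d, hd, hd'⟩ := hq
  rw [Submodule.mem_dualCoannihilator] at hd
  refine ⟨d, by rw [← hq₀]; exact (F2.cases _).resolve_left hd', fun w => ?_⟩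
  refine act.core hodd (bdry ι σ) (fun w => inp ∘ mat e ι σ w)
    (fun w v t => congrArg inp (mat_translate e ι σ w v t)) small small' h0 hadd ?_ hgap C.out d
    (fun q hq => hd q hq) w
  -- base case
  rintro ⟨x, y⟩ w d hd
  have key : ∀ p q, x = e p → y = e q → ∀ c i, ((p.1 = ι (false, i) ∧ q.1 = ι (true, σ c i)) ∨
      (p.1 = ι (true, σ c i) ∧ q.1 = ι (false, i))) → d (c, i) = 0 := by
    intro p q hp hq c i h
    refine hd (LinearMap.proj (c, i)) ?_ ?_
    · change wt _ < 6 * κ
      have h1 : wt (LinearMap.proj (c, i) : Dual F2 (Fin 3 × Fin P → F2)) ≤ 1 := by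
        rw [wt, Finset.card_le_one]
        intro a ha b hb
        simp only [Finset.mem_filter, Finset.mem_univ, true_and, LinearMap.proj_apply,
          Pi.single_apply] at ha hb
        by_contra hab
        rcases eq_or_ne (c, i) a with h2 | h2
        · rcases eq_or_ne (c, i) b with h3 | h3
          · exact hab (h2.symm.trans h3)
          · exact hb (if_neg h3)
        · exact ha (if_neg h2)
      omega
    · intro v hv
      rw [pairPerm_apply, hp, hq, Perm.viaEmbedding_apply, Perm.viaEmbedding_apply,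
        Prod.mk.injEq] at hv
      have h1 : v p.1 = 0 := by
        have := congrArg Prod.snd (e.injective hv.1)
        simpa [blockShift_apply] using this
      have h2 : v q.1 = 0 := by
        have := congrArg Prod.snd (e.injective hv.2)
        simpa [blockShift_apply] using this
      simp only [LinearMap.proj_apply, bdry, LinearMap.coe_mk, AddHom.coe_mk]
      rcases h with ⟨h3, h4⟩ | ⟨h3, h4⟩ <;> rw [← h3, ← h4, h1, h2, ell_zero, add_zero]
  have h2 : AdjOn e ι σ (w + d) x y ↔ AdjOn e ι σ w x y := by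
    constructor
    · rintro ⟨p, q, hp, hq, c, i, h1, h2⟩
      refine ⟨p, q, hp, hq, c, i, ?_, h2⟩
      rw [h1, Pi.add_apply, key p q hp hq c i h2, add_zero]
    · rintro ⟨p, q, hp, hq, c, i, h1, h2⟩
      refine ⟨p, q, hp, hq, c, i, ?_, h2⟩
      rw [h1, Pi.add_apply, key p q hp hq c i h2, add_zero]
  refine congrArg inp ?_
  rw [Bool.eq_iff_iff, mat_true, mat_true, h2]

/-- the parity of the sum of the parameters is not visible, simple cubic graphs -/
theorem fooling9L {Q : ℕ} {β : Type} [Finite β] {T : Type u} {D : Type v} (C : LCircuit.{u, v} T D)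
    [Finite C.Gate] (hodd : C.OddFields) (ρ : (β → K4) → Perm T)
    (act : C.Action ρ) {κ : ℕ} (hκ : 0 < κ) (hQ : 36 * κ ≤ Q) (ι : Bool × Vx Q ↪ β)
    (hcard : C.size ^ 2 * (18 * κ) ^ 9 < Q.choose κ) :
    ∃ (τ : Fin 3 → Fin 3 → Perm (Fin Q)) (d : Fin 3 × Vx Q → F2), ∑ e, d e = 1 ∧
      ∀ ω : (Fin 3 × Vx Q → F2) → T → D,
        (∀ w v t, ω (w + bdryV ι (sig τ) v) (ρ v t) = ω w t) →
        (∀ t w d, (∀ e, (∀ v, ρ v t = t → bdryV ι (sig τ) v e = 0) → d e = 0) →
          ω (w + d) t = ω w t) →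
        ∀ w, C.eval (ω (w + d)) C.out = C.eval (ω w) C.out := by
  classical
  obtain ⟨τ, hτ⟩ := exists_good9 (κ := κ) hQ ι
    {ζ : Dual F2 (β → K4) | ∃ ξ ∈ act.special, ∃ η ∈ act.special, ζ = ξ + η}
    (lt_of_le_of_lt (Nat.mul_le_mul_right _ (sums_card act)) hcard)
  refine ⟨τ, ?_⟩
  let q₀ : Dual F2 (Fin 3 × Vx Q → F2) := ∑ e, LinearMap.proj e
  have hq₀ : ∀ d, q₀ d = ∑ e, d e := fun d => by simp [q₀]
  let small : Set (Dual F2 (Fin 3 × Vx Q → F2)) := {q | wtV q < 18 * κ}
  let small' : Set (Dual F2 (Fin 3 × Vx Q → F2)) := {q | wtV q < 9 * κ}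
  have h0 : (0 : Dual F2 (Fin 3 × Vx Q → F2)) ∈ small' := by
    change wtV 0 < 9 * κ
    rw [wtV_zero]; omega
  have hadd : ∀ q ∈ small', ∀ q' ∈ small', q + q' ∈ small := by
    intro q hq q' hq'
    have h1 := wtV_add q q'
    have h2 : wtV q < 9 * κ := hq
    have h3 : wtV q' < 9 * κ := hq'
    change wtV (q + q') < 18 * κ
    omega
  have hgap : ∀ q ∈ small, (∃ ξ ∈ act.special, ∃ η ∈ act.special,
      ∀ v, q (bdryV ι (sig τ) v) = ξ v + η v) → q ∈ small' := by
    rintro q hq ⟨ξ, hξ, η, hη, h⟩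
    have h2 : wtV q < 18 * κ := hq
    by_contra h3
    exact hτ q (not_lt.1 h3) h2 ⟨ξ, hξ, η, hη, LinearMap.ext h⟩
  have hvis : ∀ q ∈ act.visible (bdryV ι (sig τ)) small C.out, q ∈ small' := by
    rintro q ⟨hq, hq'⟩
    refine hgap q hq ⟨q.comp (bdryV ι (sig τ)), Or.inl ⟨C.out, hq'⟩, 0,
      Or.inl ⟨C.out, fun v _ => rfl⟩, fun v => (add_zero _).symm⟩
  let L : Submodule F2 (Dual F2 (Fin 3 × Vx Q → F2)) :=
    { carrier := act.visible (bdryV ι (sig τ)) small C.out
      zero_mem' := ⟨by have := hadd 0 h0 0 h0; rwa [add_zero] at this, fun v _ => rfl⟩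
      add_mem' := fun {q q'} hq hq' => ⟨hadd q (hvis q hq) q' (hvis q' hq'), fun v hv => by
        rw [LinearMap.add_apply, hq.2 v hv, hq'.2 v hv, add_zero]⟩
      smul_mem' := fun c q hq => by
        rcases F2.cases c with rfl | rfl
        · rw [zero_smul]
          exact ⟨by have := hadd 0 h0 0 h0; rwa [add_zero] at this, fun v _ => rfl⟩
        · rwa [one_smul] }
  have hq : q₀ ∉ L := by
    intro h
    have h1 : wtV q₀ < 18 * κ := h.1
    have h2 : wtV q₀ = 3 * (3 * Q) := by
      rw [wtV, Finset.filter_true_of_mem]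
      · simp
      · intro e _
        rw [hq₀, Finset.sum_pi_single']
        simp
    omega
  rw [← Subspace.dualCoannihilator_dualAnnihilator_eq (W := L), Submodule.mem_dualAnnihilator] at hq
  push Not at hq
  obtain ⟨d, hd, hd'⟩ := hq
  rw [Submodule.mem_dualCoannihilator] at hd
  refine ⟨d, by rw [← hq₀]; exact (F2.cases _).resolve_left hd', fun ω hω hb w => ?_⟩
  refine act.core hodd (bdryV ι (sig τ)) ω hω small small' h0 hadd ?_ hgap C.out d
    (fun q hq => hd q hq) w
  intro t w d hd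
  refine hb t w d fun e he => ?_
  refine hd (LinearMap.proj e) ?_ fun v hv => he v hv
  change wtV _ < 18 * κ
  have h1 : wtV (LinearMap.proj e : Dual F2 (Fin 3 × Vx Q → F2)) ≤ 1 := by
    rw [wtV, Finset.card_le_one]
    intro a ha b hb
    simp only [Finset.mem_filter, Finset.mem_univ, true_and, LinearMap.proj_apply,
      Pi.single_apply] at ha hb
    by_contra hab
    rcases eq_or_ne e a with h2 | h2
    · rcases eq_or_ne e b with h3 | h3
      · exact hab (h2.symm.trans h3)
      · exact hb (if_neg h3)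
    · exact ha (if_neg h2)
  omega

/-- **Counting the satisfying assignments of monotone 2-CNF formulas.** -/
theorem lowerTwoL {β X : Type} [Finite X] (e : β × K4 ↪ X) {D : Type u}
    (C : LCircuit.{0, u} (X × X) D) [Finite C.Gate] (inp : Bool → D) (dec : D → ℕ)
    (act : C.Action fun v : β → K4 => pairPerm ((blockShift v).viaEmbedding e)) (hodd : C.OddFields)
    (hC : ∀ x, Bipartite6 x → dec (C.eval (inp ∘ x) C.out) = numSat x) :
    12 ^ (Nat.card β / 24) ≤ C.size ^ 2 * (Nat.card β + 1) ^ 3 := by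
  classical
  have : Finite (β × K4) := Finite.of_injective e e.injective
  have : Finite β := Finite.of_surjective (Prod.fst : β × K4 → β) Prod.fst_surjective
  have : Fintype β := Fintype.ofFinite β
  by_contra hcon
  push Not at hcon
  set B := Nat.card β with hB
  have hs : 0 < C.size := Nat.add_pos_left (Nat.card_pos_iff.2 ⟨⟨C.out⟩, inferInstance⟩) _
  rcases Nat.eq_zero_or_pos (B / 24) with h0 | hκ
  · rw [h0, pow_zero] at hcon
    have : 0 < C.size ^ 2 * (B + 1) ^ 3 := Nat.mul_pos (pow_pos hs 2) (pow_pos (Nat.succ_pos _) 3)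
    omega
  · have hP : 12 * (B / 24) ≤ B / 2 := by omega
    obtain ⟨ι⟩ : Nonempty (Bool × Fin (B / 2) ↪ β) := by
      refine Function.Embedding.nonempty_of_card_le ?_
      rw [Fintype.card_prod, Fintype.card_bool, Fintype.card_fin, ← Nat.card_eq_fintype_card, ← hB]
      omega
    have hlt : C.size ^ 2 * (6 * (B / 24)) ^ 3 < (B / 2).choose (B / 24) := by
      refine lt_of_le_of_lt ?_ (hcon.trans_le (pow_le_choose _ _ hP))
      exact Nat.mul_le_mul_left _ (Nat.pow_le_pow_left (by omega) 3)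
    obtain ⟨σ, d, hd, h⟩ := foolingG e C hodd inp act hκ hP ι hlt
    have h1 := congrArg dec (h 1)
    rw [hC _ (bipartite6_mat e ι σ _), hC _ (bipartite6_mat e ι σ _)] at h1
    exact absurd h1 (numSat_lt e ι σ d hd).ne

/-- **The permanent.** -/
theorem lowerPerL {β X : Type} [Finite X] (e : β × K4 ↪ X) {D : Type u}
    (C : LCircuit.{0, u} (X × X) D) [Finite C.Gate] (inp : Bool → D) (dec : D → ℕ)
    (act : C.Action fun v : β → K4 => pairPerm ((blockShift v).viaEmbedding e)) (hodd : C.OddFields)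
    (hC : ∀ x, SymmetricSix x →
      dec (C.eval (inp ∘ x) C.out) = per fun t => if x t then (1 : ℕ) else 0) :
    36 ^ (Nat.card β / 216) ≤ C.size ^ 2 * (Nat.card β + 1) ^ 9 := by
  classical
  have : Finite (β × K4) := Finite.of_injective e e.injective
  have : Finite β := Finite.of_surjective (Prod.fst : β × K4 → β) Prod.fst_surjective
  have : Fintype β := Fintype.ofFinite β
  by_contra hcon
  push Not at hcon
  set B := Nat.card β with hB
  have hs : 0 < C.size := Nat.add_pos_left (Nat.card_pos_iff.2 ⟨⟨C.out⟩, inferInstance⟩) _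
  rcases Nat.eq_zero_or_pos (B / 216) with h0 | hκ
  · rw [h0, pow_zero] at hcon
    have : 0 < C.size ^ 2 * (B + 1) ^ 9 := Nat.mul_pos (pow_pos hs 2) (pow_pos (Nat.succ_pos _) 9)
    omega
  · have hQ : 36 * (B / 216) ≤ B / 6 := by omega
    obtain ⟨ι⟩ : Nonempty (Bool × Vx (B / 6) ↪ β) := by
      refine Function.Embedding.nonempty_of_card_le ?_
      rw [Fintype.card_prod, Fintype.card_bool, Fintype.card_prod, Fintype.card_fin,
        Fintype.card_fin, ← Nat.card_eq_fintype_card, ← hB]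
      omega
    have hlt : C.size ^ 2 * (18 * (B / 216)) ^ 9 < (B / 6).choose (B / 216) := by
      refine lt_of_le_of_lt ?_ (hcon.trans_le (pow_le_choose36 _ _ hQ))
      exact Nat.mul_le_mul_left _ (Nat.pow_le_pow_left (by omega) 9)
    obtain ⟨τ, d, hd, h⟩ := fooling9L C hodd (fun v => pairPerm ((blockShift v).viaEmbedding e))
      act hκ hQ ι hlt
    have h1 := h (fun w => inp ∘ pmat e ι (sig τ) w)
      (fun w v t => congrArg inp (pmat_shift e ι (sig τ) w v t))
      (fun t w d hd => congrArg inp (pmat_base e ι (sig τ) t w d hd)) 0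
    rw [zero_add] at h1
    have h2 := congrArg dec h1
    rw [hC _ (symmetricSix_pmat e ι (sig τ) _), hC _ (symmetricSix_pmat e ι (sig τ) _),
      per_pmat, per_pmat] at h2
    have h3 := numPM_lt (sig τ) (fun c c' i h => sig_simple τ h) d hd
    exact absurd h2 (Nat.pow_lt_pow_left h3 two_ne_zero).ne

end Pool.Agent.H5Lin
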