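import Pool.Agent.H5Dich.ResistDefs

/-!
# Circuits with symmetric gates and linear algebra gates: definitions
-/

set_option autoImplicit false

namespace Pool.Agent.H5Lin

open Matrix

universe u v w

/-- A function of square matrices over a field `K` which is invariant under orthogonal changes of
basis, with values in `D`; the map `enc` is used to turn elements of `D` into entries of
matrices. -/
structure MatFun (D : Type v) where
  /-- the field -/
  K : Type
  [field : Field K]
  /-- the matrix entry that belongs to a value -/
  enc : D → K
  /-- the function -/
  fn : (n : ℕ) → Matrix (Fin n) (Fin n) K → D
  /-- the function is invariant under orthogonal changes of basis -/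
  inv : ∀ (n : ℕ) (A M : Matrix (Fin n) (Fin n) K), A * Aᵀ = 1 → fn n (Aᵀ * M * A) = fn n M

attribute [instance] MatFun.field

/-- the value of the function on a matrix whose rows and columns have arbitrary names -/
noncomputable def MatFun.app {D : Type v} (F : MatFun D) (ι : Type) [Finite ι]
    (M : Matrix ι ι F.K) : D :=
  F.fn (Nat.card ι) (M.submatrix (Finite.equivFin ι).symm (Finite.equivFin ι).symm)

/-- The kinds of gates: the input `t`, a symmetric gate, which computes the function `f` of the
multiset of the labelled values of its wires, and a matrix gate, which computes the function `F` of
the matrix of the values of its entries. -/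
inductive Label (T : Type u) (D : Type v) : Type (max 1 u v)
  | input (t : T)
  | sym (f : Multiset (ℕ × D) → D)
  | mat (F : MatFun D)

/-- renaming the input -/
def Label.map {T : Type u} {D : Type v} (τ : T → T) : Label T D → Label T D
  | .input t => .input (τ t)
  | .sym f => .sym f
  | .mat F => .mat F

/-- A circuit with symmetric gates and matrix gates, with inputs from `T` and values in `D`. -/
structure LCircuit (T : Type u) (D : Type v) where
  /-- the gates -/
  Gate : Type
  /-- the rows of the matrices of all matrix gates (the columns have the same names) -/
  Row : Type
  /-- there are finitely many rows -/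
  finite : Finite Row
  /-- the gate whose matrix has this row and column -/
  owner : Row → Gate
  /-- the kind of a gate -/
  label : Gate → Label T D
  /-- the wires into a gate: each has a label and starts at a gate -/
  wires : Gate → Multiset (ℕ × Gate)
  /-- the gate that computes an entry; only pairs of rows with the same owner matter -/
  entry : Row → Row → Gate
  /-- the level of a gate -/
  level : Gate → ℕ
  /-- the circuit is acyclic: wires -/
  level_wires : ∀ g, ∀ e ∈ wires g, level e.2 < level g
  /-- the circuit is acyclic: entries -/
  level_entry : ∀ i j, owner i = owner j → level (entry i j) < level (owner i)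
  /-- the output gate -/
  out : Gate

attribute [instance] LCircuit.finite

namespace LCircuit

variable {T : Type u} {D : Type v}

/-- the value of the gate `g` on the input `x` -/
noncomputable def eval (C : LCircuit.{u, v} T D) (x : T → D) (g : C.Gate) : D :=
  match C.label g with
  | .input t => x t
  | .sym f => f ((C.wires g).attach.map fun e => (e.1.1, C.eval x e.1.2))
  | .mat F => F.app {i // C.owner i = g} fun i j => F.enc (C.eval x (C.entry i.1 j.1))
termination_by C.level g
decreasing_by
  · exact C.level_wires g e.1 e.2
  · have h := C.level_entry i.1 j.1 (i.2.trans j.2.symm)
    rwa [i.2] at h

/-- An action of the group `V` on the circuit by automorphisms, which induces the action `ρ` on the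
inputs: the elements of `V` permute the gates and the rows of the matrices, they respect the kinds of
the gates, the wires with their labels, and the entries of the matrices, and they fix the output. -/
structure Action (C : LCircuit.{u, v} T D) {V : Type w} [AddCommGroup V] (ρ : V → Equiv.Perm T) where
  /-- the action on the gates -/
  gate : V → Equiv.Perm C.Gate
  /-- the action on the rows -/
  row : V → Equiv.Perm C.Row
  gate_add : ∀ u v, gate (u + v) = gate u * gate v
  row_add : ∀ u v, row (u + v) = row u * row v
  label : ∀ v g, C.label (gate v g) = (C.label g).map (ρ v)
  wires : ∀ v g, C.wires (gate v g) = (C.wires g).map (Prod.map id (gate v))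
  owner : ∀ v i, C.owner (row v i) = gate v (C.owner i)
  entry : ∀ v i j, C.owner i = C.owner j → C.entry (row v i) (row v j) = gate v (C.entry i j)
  out : ∀ v, gate v C.out = C.out

/-- The fields of the matrix gates do not have characteristic two. -/
def OddFields (C : LCircuit.{u, v} T D) : Prop := ∀ g F, C.label g = .mat F → (2 : F.K) ≠ 0

/-- the size: the number of gates and rows -/
noncomputable def size (C : LCircuit.{u, v} T D) : ℕ := Nat.card C.Gate + Nat.card C.Row

end LCircuit

/-- systems of linear equations with `k` variables in each equation: one relation, the sum of the
`k` entries is zero -/
def xor (k : ℕ) : H5Dich.Lang where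
  Idx := Unit
  finite := inferInstance
  ar _ := k
  rel _ := {x | ∑ j, x j = 0}

end Pool.Agent.H5Lin
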