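import Pool.Agent.H5Lin.Xor

/-!
# Linear systems are easy: the values of the gates
-/

set_option autoImplicit false

namespace Pool.Agent.H5Lin

open Matrix Module Pool.Agent.H5Sym Pool.Agent.H5Dich

variable {k n : ℕ}

/-- the input values -/
def inpN (b : Bool) : ℕ := if b then 1 else 0

/-- the values of the entries -/
def valE (φ : Cn k n → Bool) : Gt k n → F2
  | Sum.inl t => if φ t then 1 else 0
  | Sum.inr (Sum.inl b) => if b then 1 else 0
  | _ => 0

/-- the matrix -/
def Mb (φ : Cn k n → Bool) (b : Bool) : Matrix (Ix k n) (Ix k n) F2 := fun i j => valE φ (ent b i j)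

theorem ent_cases (b : Bool) (i j : Ix k n) :
    (∃ t, ent b i j = Sum.inl t) ∨ ∃ c, ent b i j = Sum.inr (Sum.inl c) := by
  rcases i with (v | t) | (c | c) <;> rcases j with (v' | t') | (c' | c') <;>
    simp only [ent, cst]
  all_goals try exact Or.inr ⟨_, rfl⟩
  split_ifs
  · exact Or.inr ⟨_, rfl⟩
  · exact Or.inl ⟨_, rfl⟩

theorem eval_ent (p : ℕ → Prop) (φ : Cn k n → Bool) (b : Bool) (i j : Ix k n) :
    kerFun.enc ((circ k n p).eval (inpN ∘ φ) (ent b i j)) = valE φ (ent b i j) := by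
  rcases ent_cases b i j with ⟨t, h⟩ | ⟨c, h⟩
  · rw [h, LCircuit.eval_input (C := circ k n p) (t := t) rfl]
    change ((inpN (φ t) : ℕ) : F2) = if φ t then 1 else 0
    cases φ t <;> rfl
  · rw [h, LCircuit.eval_sym (C := circ k n p) (f := fun _ => if c then 1 else 0) rfl]
    change (((if c then 1 else 0 : ℕ)) : F2) = if c then 1 else 0
    cases c <;> rfl

theorem eval_ker (p : ℕ → Prop) (φ : Cn k n → Bool) (b : Bool) :
    (circ k n p).eval (inpN ∘ φ) (Sum.inr (Sum.inr (Sum.inl b))) =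
      Nat.card {y : Ix k n → F2 // Mb φ b *ᵥ y = 0} := by
  let e : Ix k n ≃ {r : Bool × Ix k n //
      (circ k n p).owner r = (Sum.inr (Sum.inr (Sum.inl b)) : Gt k n)} :=
    { toFun := fun i => ⟨(b, i), rfl⟩
      invFun := fun r => r.1.2
      left_inv := fun i => rfl
      right_inv := by
        rintro ⟨⟨b', i⟩, h⟩
        have hb : b' = b := Sum.inl.inj (Sum.inr.inj (Sum.inr.inj h))
        subst hb
        rfl }
  rw [LCircuit.eval_mat (C := circ k n p) (F := kerFun) rfl, ← kerFun_app]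
  rw [← kerFun.app_reindex e]
  congr 1
  funext r c
  obtain ⟨i, rfl⟩ := e.surjective r
  obtain ⟨j, rfl⟩ := e.surjective c
  rw [submatrix_apply, Equiv.symm_apply_apply, Equiv.symm_apply_apply]
  exact eval_ent p φ b i j

theorem sumF2 {M : Type*} [AddCommMonoid M] (f : F2 → M) : ∑ c : F2, f c = f 0 + f 1 :=
  Fin.sum_univ_two f

theorem mul_row_v (φ : Cn k n → Bool) (b : Bool) (y : Ix k n → F2) (v : Fin n) :
    (Mb φ b *ᵥ y) (Sum.inl (Sum.inl v)) = y (Sum.inr (Sum.inl (v, 0))) +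
      y (Sum.inr (Sum.inl (v, 1))) + if b then y (Sum.inr (Sum.inr ())) else 0 := by
  rw [mulVec, dotProduct, Fintype.sum_sum_type]
  have h1 : ∑ j : Fin n ⊕ Cn k n, Mb φ b (Sum.inl (Sum.inl v)) (Sum.inl j) * y (Sum.inl j) = 0 := by
    refine Finset.sum_eq_zero fun j _ => ?_
    rcases j with j | j
    · exact zero_mul _
    · exact zero_mul _
  rw [h1, zero_add, Fintype.sum_sum_type]
  congr 1
  · rw [Fintype.sum_prod_type, Finset.sum_eq_single v]
    · rw [sumF2]
      have h2 : ∀ a : F2, Mb φ b (Sum.inl (Sum.inl v)) (Sum.inr (Sum.inl (v, a))) = 1 := by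
        intro a
        change (if decide (v = v) then (1 : F2) else 0) = 1
        rw [if_pos (decide_eq_true rfl)]
      rw [h2, h2, one_mul, one_mul]
    · intro v' _ hv'
      refine Finset.sum_eq_zero fun a _ => ?_
      have h2 : Mb φ b (Sum.inl (Sum.inl v)) (Sum.inr (Sum.inl (v', a))) = 0 := by
        change (if decide (v = v') then (1 : F2) else 0) = 0
        rw [if_neg]
        simpa using Ne.symm hv'
      rw [h2, zero_mul]
    · intro h
      exact absurd (Finset.mem_univ _) h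
  · rw [Fintype.sum_unique]
    change (if b then (1 : F2) else 0) * _ = _
    split_ifs
    · exact one_mul _
    · exact zero_mul _

theorem mul_row_t (φ : Cn k n → Bool) (b : Bool) (y : Ix k n → F2) (t : Cn k n) :
    (Mb φ b *ᵥ y) (Sum.inl (Sum.inr t)) =
      if φ t then ∑ j : Fin k, y (Sum.inr (Sum.inl (t.2.1 j, t.2.2 j))) else 0 := by
  rw [mulVec, dotProduct, Fintype.sum_sum_type]
  have h1 : ∑ j : Fin n ⊕ Cn k n, Mb φ b (Sum.inl (Sum.inr t)) (Sum.inl j) * y (Sum.inl j) = 0 := by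
    refine Finset.sum_eq_zero fun j _ => ?_
    rcases j with j | j
    · exact zero_mul _
    · exact zero_mul _
  rw [h1, zero_add, Fintype.sum_sum_type]
  have h2 : ∑ j : Unit, Mb φ b (Sum.inl (Sum.inr t)) (Sum.inr (Sum.inr j)) *
      y (Sum.inr (Sum.inr j)) = 0 := Finset.sum_eq_zero fun j _ => zero_mul _
  rw [h2, add_zero]
  have h3 : ∀ c : Fin n × F2, Mb φ b (Sum.inl (Sum.inr t)) (Sum.inr (Sum.inl c)) =
      if φ t then cnt t c.1 c.2 else 0 := by
    intro c
    change valE φ (if cnt t c.1 c.2 = 0 then cst false else Sum.inl t) = _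
    rcases F2.cases (cnt t c.1 c.2) with h | h
    · rw [h, if_pos rfl]
      change (0 : F2) = _
      split_ifs <;> rfl
    · rw [h, if_neg one_ne_zero]
      rfl
  simp only [h3]
  split_ifs with hφ
  · simp only [cnt, Finset.sum_mul]
    rw [Finset.sum_comm]
    refine Finset.sum_congr rfl fun j _ => ?_
    rw [Finset.sum_eq_single (t.2.1 j, t.2.2 j)]
    · rw [if_pos ⟨rfl, rfl⟩, one_mul]
    · rintro ⟨v, a⟩ _ hc
      rw [if_neg, zero_mul]
      rintro ⟨h4, h5⟩
      exact hc (Prod.ext h4.symm h5.symm)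
    · intro h
      exact absurd (Finset.mem_univ _) h
  · exact Finset.sum_eq_zero fun c _ => zero_mul _

theorem mul_row_r (φ : Cn k n → Bool) (b : Bool) (y : Ix k n → F2) (r : (Fin n × F2) ⊕ Unit) :
    (Mb φ b *ᵥ y) (Sum.inr r) = 0 := by
  rw [mulVec, dotProduct]
  refine Finset.sum_eq_zero fun j _ => ?_
  rcases r with r | r <;> rcases j with (j | j) | (j | j) <;> exact zero_mul _

/-- the solutions of the system for the literals -/
def SS (φ : Cn k n → Bool) (c : F2) : Set (Fin n × F2 → F2) :=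
  {z | (∀ v, z (v, 0) + z (v, 1) = c) ∧ ∀ t, φ t = true → ∑ j : Fin k, z (t.2.1 j, t.2.2 j) = 0}

theorem ker_iff (φ : Cn k n → Bool) (b : Bool) (y : Ix k n → F2) :
    Mb φ b *ᵥ y = 0 ↔ (fun c => y (Sum.inr (Sum.inl c))) ∈
      SS φ (if b then y (Sum.inr (Sum.inr ())) else 0) := by
  have h5 : ∀ a b : F2, a + b = 0 ↔ a = b := by decide
  constructor
  · intro h
    refine ⟨fun v => ?_, fun t ht => ?_⟩
    · have h1 := congrFun h (Sum.inl (Sum.inl v))
      rw [mul_row_v] at h1
      exact (h5 _ _).1 h1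
    · have h1 := congrFun h (Sum.inl (Sum.inr t))
      rw [mul_row_t, if_pos ht] at h1
      exact h1
  · rintro ⟨h1, h2⟩
    funext i
    rcases i with (v | t) | r
    · rw [mul_row_v]
      exact (h5 _ _).2 (h1 v)
    · rw [mul_row_t]
      split_ifs with ht
      · exact h2 t ht
      · rfl
    · exact mul_row_r φ b y r

theorem card_ker (φ : Cn k n → Bool) (b : Bool) :
    Nat.card {y : Ix k n → F2 // Mb φ b *ᵥ y = 0} = 2 ^ Nat.card (Fin n ⊕ Cn k n) *
      (Nat.card (SS φ 0) + Nat.card (SS φ (if b then 1 else 0))) := by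
  have e1 : {y : Ix k n → F2 // Mb φ b *ᵥ y = 0} ≃ (Fin n ⊕ Cn k n → F2) ×
      {p : F2 × (Fin n × F2 → F2) // p.2 ∈ SS φ (if b then p.1 else 0)} :=
    { toFun := fun y => (fun r => y.1 (Sum.inl r),
        ⟨(y.1 (Sum.inr (Sum.inr ())), fun c => y.1 (Sum.inr (Sum.inl c))), (ker_iff φ b y.1).1 y.2⟩)
      invFun := fun p => ⟨fun i => match i with
        | Sum.inl r => p.1 r
        | Sum.inr (Sum.inl c) => p.2.1.2 c
        | Sum.inr (Sum.inr _) => p.2.1.1, (ker_iff φ b _).2 p.2.2⟩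
      left_inv := by
        rintro ⟨y, hy⟩
        refine Subtype.ext (funext ?_)
        rintro (r | c | c) <;> rfl
      right_inv := by
        rintro ⟨y, ⟨⟨a, z⟩, h⟩⟩
        rfl }
  rw [Nat.card_congr e1, Nat.card_prod, Nat.card_fun]
  rw [show Nat.card F2 = 2 by rw [Nat.card_eq_fintype_card, ZMod.card]]
  congr 1
  rw [Nat.card_congr (Equiv.subtypeProdEquivSigmaSubtype
    fun (c : F2) (z : Fin n × F2 → F2) => z ∈ SS φ (if b then c else 0)), Nat.card_sigma, sumF2]
  congr 1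
  cases b <;> rfl

theorem card_sol (φ : Cn k n → Bool) : Nat.card (SS φ 1) = Nat.card (sol (ones φ)) := by
  refine Nat.card_congr ⟨fun z => ⟨fun v => z.1 (v, 0), ?_⟩,
    fun x => ⟨fun c => x.1 c.1 + c.2, ?_, ?_⟩, ?_, ?_⟩
  · have h5 : ∀ a b c : F2, a + b = 1 → a + c = if c = 0 then a else b := by decide
    intro t ht
    have h1 := z.2.2 t ht
    change ∑ j : Fin k, (z.1 (t.2.1 j, 0) + t.2.2 j) = 0
    refine Eq.trans ?_ h1
    refine Finset.sum_congr rfl fun j _ => ?_
    rw [h5 _ _ _ (z.2.1 (t.2.1 j))]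
    rcases F2.cases (t.2.2 j) with h | h
    · rw [h, if_pos rfl]
    · rw [h, if_neg one_ne_zero]
  · intro v
    have h5 : ∀ a : F2, a + 0 + (a + 1) = 1 := by decide
    exact h5 _
  · intro t ht
    exact x.2 t ht
  · intro z
    refine Subtype.ext (funext fun c => ?_)
    have h5 : ∀ a b c : F2, a + b = 1 → a + c = if c = 0 then a else b := by decide
    change z.1 (c.1, 0) + c.2 = z.1 c
    rw [h5 _ _ _ (z.2.1 c.1)]
    obtain ⟨v, a⟩ := c
    rcases F2.cases a with h | h
    · subst h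
      rw [if_pos rfl]
    · subst h
      rw [if_neg one_ne_zero]
  · intro x
    refine Subtype.ext (funext fun v => ?_)
    exact add_zero _

/-- **The circuit is correct.** -/
theorem eval_circ (p : ℕ → Prop) (φ : Cn k n → Bool) :
    (circ k n p).eval (inpN ∘ φ) (circ k n p).out = 1 ↔ p (Nat.card (sol (ones φ))) := by
  have h1 : (circ k n p).eval (inpN ∘ φ) (circ k n p).out = dec p (Nat.card (Fin n ⊕ Cn k n))
      {(0, Nat.card {y : Ix k n → F2 // Mb φ false *ᵥ y = 0}),
        (1, Nat.card {y : Ix k n → F2 // Mb φ true *ᵥ y = 0})} := by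
    rw [LCircuit.eval_sym (C := circ k n p) (f := dec p (Nat.card (Fin n ⊕ Cn k n))) rfl]
    congr 1
    change Multiset.map _ ({(0, Sum.inr (Sum.inr (Sum.inl false))),
      (1, Sum.inr (Sum.inr (Sum.inl true)))} : Multiset (ℕ × Gt k n)) = _
    rw [Multiset.insert_eq_cons, Multiset.map_cons, Multiset.map_singleton, Multiset.insert_eq_cons,
      eval_ker, eval_ker]
  have e0 : Nat.card {y : Ix k n → F2 // Mb φ false *ᵥ y = 0} = 2 ^ Nat.card (Fin n ⊕ Cn k n) *
      (Nat.card (SS φ 0) + Nat.card (SS φ 0)) := card_ker φ false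
  have e1 : Nat.card {y : Ix k n → F2 // Mb φ true *ᵥ y = 0} = 2 ^ Nat.card (Fin n ⊕ Cn k n) *
      (Nat.card (SS φ 0) + Nat.card (SS φ 1)) := card_ker φ true
  rw [h1, dec, e0, e1]
  set R := Nat.card (Fin n ⊕ Cn k n)
  have h2 : ∀ a b : ℕ, ((({(0, a), (1, b)} : Multiset (ℕ × ℕ)).filter fun e => e.1 = 1).map
      Prod.snd).sum = b := by
    intro a b
    simp [Multiset.insert_eq_cons, Multiset.filter_cons, Multiset.filter_singleton]
  have h3 : ∀ a b : ℕ, ((({(0, a), (1, b)} : Multiset (ℕ × ℕ)).filter fun e => e.1 = 0).map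
      Prod.snd).sum = a := by
    intro a b
    simp [Multiset.insert_eq_cons, Multiset.filter_cons, Multiset.filter_singleton]
  rw [h2, h3]
  have h4 : (2 ^ R * (Nat.card (SS φ 0) + Nat.card (SS φ 1)) -
      2 ^ R * (Nat.card (SS φ 0) + Nat.card (SS φ 0)) / 2) / 2 ^ R = Nat.card (SS φ 1) := by
    have e1 : 2 ^ R * (Nat.card (SS φ 0) + Nat.card (SS φ 0)) / 2 = 2 ^ R * Nat.card (SS φ 0) := by
      rw [show 2 ^ R * (Nat.card (SS φ 0) + Nat.card (SS φ 0)) = 2 * (2 ^ R * Nat.card (SS φ 0)) by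
        ring, Nat.mul_div_cancel_left _ (by norm_num)]
    rw [e1, Nat.mul_add, Nat.add_sub_cancel_left, Nat.mul_div_cancel_left _ (by positivity)]
  rw [h4, card_sol]
  split_ifs with h
  · exact ⟨fun _ => h, fun _ => rfl⟩
  · exact ⟨fun h' => absurd h' (by norm_num), fun h' => absurd h' h⟩

end Pool.Agent.H5Lin
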