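import Pool.Agent.H5Lin.Main
import Pool.Agent.H5Lin.XorEval
import Pool.Agent.H5Dich.Criterion

/-!
# Linear algebra gates: the criterion for linear systems, sizes, and the usual invariants
-/

set_option autoImplicit false

namespace Pool.Agent.H5Lin

open Matrix Module Pool.Agent.H5Sym Pool.Agent.H5Dich

theorem parRel_xor (k : ℕ) : ParRel {x : Fin k → F2 | ∑ j, x j = 0} ↔ 3 ≤ k := by
  classical
  constructor
  · rintro ⟨q, y, M, hM, hy, hq⟩
    by_contra hk
    refine hq ?_
    have : y ∈ M := by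
      by_contra hyM
      obtain ⟨h, h1, h2⟩ := exists_sep hyM
      have h3 := two_sep hy h1 ((card_filter_le h).trans (by omega : k ≤ 2))
      rw [h3] at h2
      exact zero_ne_one h2
    exact hM y this
  · intro hk
    refine ⟨(0 : Fin k → F2), (Pi.single (⟨0, by omega⟩ : Fin k) 1 : Fin k → F2), parM k k,
      ?_, parM_closure hk le_rfl, ?_⟩
    · intro m hm
      change ∑ j, ((0 : Fin k → F2) + m) j = 0
      have h1 := (mem_parM.1 hm).1
      rw [zero_add]
      refine Eq.trans (Finset.sum_congr rfl fun j _ => ?_) h1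
      rw [if_pos j.2]
    · intro h
      have h1 : ∑ j, ((0 : Fin k → F2) + (Pi.single (⟨0, by omega⟩ : Fin k) 1 : Fin k → F2)) j = 0 := h
      have h2 := sum_single_parM (k := k) (r := k) hk le_rfl
      have h3 : (∑ j : Fin k, if j.1 < k then (Pi.single (⟨0, by omega⟩ : Fin k) 1 : Fin k → F2) j
          else 0) = ∑ j, ((0 : Fin k → F2) + (Pi.single (⟨0, by omega⟩ : Fin k) 1 : Fin k → F2)) j := by
        refine Finset.sum_congr rfl fun j _ => ?_
        rw [if_pos j.2, zero_add]
      rw [h3, h1] at h2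
      exact zero_ne_one h2

theorem parity_xor (k : ℕ) : Parity (xor k) ↔ 3 ≤ k := by
  rw [← parRel_xor]
  exact ⟨fun ⟨_, h⟩ => h, fun h => ⟨(), h⟩⟩

theorem circ_size (k n : ℕ) (p : ℕ → Prop) :
    (circ k n p).size = 3 * (2 * n) ^ k + 6 * n + 7 := by
  have h1 : Nat.card (Cn k n) = (2 * n) ^ k := by
    have e : Cn k n ≃ (Fin k → Fin n) × (Fin k → F2) := Equiv.uniqueSigma
      (α := Unit) (fun _ => (Fin k → Fin n) × (Fin k → F2))
    rw [Nat.card_congr e, Nat.card_prod, Nat.card_fun, Nat.card_fun, Nat.card_fin, Nat.card_fin,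
      Nat.card_eq_fintype_card (α := F2), ZMod.card, mul_comm, mul_pow]
  change Nat.card (Gt k n) + Nat.card (Bool × Ix k n) = _
  rw [Nat.card_prod, Nat.card_sum, Nat.card_sum, Nat.card_sum, Nat.card_sum, Nat.card_sum,
    Nat.card_sum, Nat.card_prod, h1]
  simp only [Nat.card_eq_fintype_card, Fintype.card_bool, Fintype.card_unit, Fintype.card_fin,
    ZMod.card]
  ring

instance (k n : ℕ) (p : ℕ → Prop) : Finite (circ k n p).Gate :=
  inferInstanceAs (Finite (Gt k n))

/-- the characteristic polynomial and the rank may be used -/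
theorem invariants (K : Type) [Field K] (n : ℕ) (A M : Matrix (Fin n) (Fin n) K) (hA : A * Aᵀ = 1) :
    (Aᵀ * M * A).charpoly = M.charpoly ∧ (Aᵀ * M * A).rank = M.rank := by
  have hA' : Aᵀ * A = 1 := mul_eq_one_comm.1 hA
  constructor
  · have h := Matrix.charpoly_units_conj (⟨Aᵀ, A, hA', hA⟩ : (Matrix (Fin n) (Fin n) K)ˣ) M
    change (Aᵀ * M * (Aᵀ)⁻¹).charpoly = M.charpoly at h
    rwa [inv_eq_right_inv hA'] at h
  · have h1 : IsUnit A.det := by
      rw [← Matrix.isUnit_iff_isUnit_det]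
      exact ⟨⟨A, Aᵀ, hA, hA'⟩, rfl⟩
    have h2 : IsUnit Aᵀ.det := by rwa [det_transpose]
    rw [rank_mul_eq_left_of_isUnit_det A _ h1, rank_mul_eq_right_of_isUnit_det Aᵀ M h2]

end Pool.Agent.H5Lin
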