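import Pool.Agent.H5Lin.Special
import Pool.Agent.H5Dich.Inst

/-!
# Circuits with symmetric gates and matrix gates do not see the right-hand side of a sparse system
-/

set_option autoImplicit false

namespace Pool.Agent.H5Lin

open Module Pool.Agent.H5Sym Pool.Agent.H5Dich

universe u

/-- the restriction of an action to a subgroup -/
def LCircuit.Action.comap {T : Type} {D : Type u} {C : LCircuit.{0, u} T D} {V V' : Type}
    [AddCommGroup V] [AddCommGroup V'] {ρ : V → Equiv.Perm T} (act : C.Action ρ) (j : V' →+ V) :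
    C.Action (fun v => ρ (j v)) where
  gate v := act.gate (j v)
  row v := act.row (j v)
  gate_add u v := by rw [map_add, act.gate_add]
  row_add u v := by rw [map_add, act.row_add]
  label v := act.label (j v)
  wires v := act.wires (j v)
  owner v := act.owner (j v)
  entry v := act.entry (j v)
  out v := act.out (j v)

variable {Γ : Lang} {R : Type} {P m : ℕ} {V : Type} [Fintype R] [DecidableEq R]

/-- For some sparse system the circuit does not see the right-hand side; the rows are distinct if
there are at least three kinds of variables. -/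
theorem foolingL [Finite V] (v0 : V) (ι : R × Fin P ↪ V) (U : Submodule F2 (V → F2))
    (hU : ∀ u ∈ U, u v0 = 0) (hι : ∀ y : R × Fin P → F2, ∃ u ∈ U, ∀ p, u (ι p) = y p) {D : Type u}
    (C : LCircuit.{0, u} (Con Γ V) D) [Finite C.Gate] (hodd : C.OddFields)
    (inp : Bool → D) (act : C.Action fun u : U => flipC u.1) {κ : ℕ} (hκ : 0 < κ) (hP0 : 0 < P)
    (hP : 256 * 4 ^ Fintype.card R * κ * m ^ 2 ≤ P ^ 3) (hC : 2 * C.size ^ 2 < 4 ^ κ)
    (φ : Set (Con Γ (Option R))) (L : Submodule F2 (Option R → F2))
    (hL : ∀ h : R → F2, h ≠ 0 → (∀ y, ext y ∈ L → ∑ c, h c * y c = 0) →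
      3 ≤ (Finset.univ.filter fun c => h c ≠ 0).card) :
    ∃ f : R → Fin m → Fin P, (3 ≤ Fintype.card R → ∀ j j', (∀ c, f c j = f c j') → j = j') ∧
      ∀ w w' : Fin m → R → F2,
      C.eval (inp ∘ frm v0 ι f φ L w) C.out = C.eval (inp ∘ frm v0 ι f φ L w') C.out := by
  classical
  have : Finite (V → F2) := Pi.finite
  have : Finite U := Subtype.finite
  have hfinD : Finite (Dual F2 U) := Finite.of_injective (fun q : Dual F2 U => (q : U → F2))
    DFunLike.coe_injective
  let Bad : Finset (R → Fin P → F2) := Finset.univ.filter fun v =>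
    ∃ ξ ∈ act.special, ∃ η ∈ act.special, funcH ι U v = ξ + η
  have hBad : Bad.card ≤ C.size ^ 2 := by
    have h1 : ∀ v : Bad, ∃ p : act.special × act.special, funcH ι U v.1 = p.1.1 + p.2.1 := by
      intro v
      obtain ⟨ξ, hξ, η, hη, h⟩ := (Finset.mem_filter.1 v.2).2
      exact ⟨(⟨ξ, hξ⟩, ⟨η, hη⟩), h⟩
    choose p hp using h1
    have h2 : Function.Injective p := by
      intro v v' h
      refine Subtype.ext (funcH_inj hι ?_)
      rw [hp, hp, h]
    have h3 := Nat.card_le_card_of_injective p h2
    rw [Nat.card_eq_fintype_card, Fintype.card_coe, Nat.card_prod, Nat.card_coe_set_eq] at h3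
    refine h3.trans ?_
    rw [pow_two]
    exact Nat.mul_le_mul act.special_card act.special_card
  obtain ⟨f, hf⟩ := exists_entriesH (m := m) hκ hP0 hP Bad (by omega)
  refine ⟨f, fun hR3 j j' hjj => ?_, ?_⟩
  · by_contra hne
    let h : Fin m → R → F2 := fun i => if i = j ∨ i = j' then 1 else 0
    have hh : ∀ i, h i ≠ 0 → i = j ∨ i = j' := by
      intro i hi
      by_contra hcon
      exact hi (if_neg hcon)
    have h1 : supp h = {j, j'} := by
      ext i
      rw [Finset.mem_insert, Finset.mem_singleton, supp, Finset.mem_filter]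
      refine ⟨fun hi => hh i hi.2, fun hi => ⟨Finset.mem_univ _, ?_⟩⟩
      have hRne : Nonempty R := Fintype.card_pos_iff.1 (by omega)
      obtain ⟨c⟩ := hRne
      intro h0
      have h2 : h i c = 1 := by
        change (if i = j ∨ i = j' then (1 : R → F2) else 0) c = 1
        rw [if_pos hi]
        rfl
      rw [h0] at h2
      exact zero_ne_one h2
    have h2 : (supp h).card = 2 := by rw [h1, Finset.card_pair hne]
    refine (hf h fun i hi => ?_).2 (Finset.card_pos.1 (by omega)) (by omega) ?_
    · have h3 : h i = 1 := if_pos (hh i hi)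
      rw [h3]
      simpa using hR3
    · funext c
      have h3 : suppc h c = {j, j'} := by
        ext i
        rw [Finset.mem_insert, Finset.mem_singleton, suppc, Finset.mem_filter]
        refine ⟨fun hi => hh i fun h0 => hi.2 (by rw [h0]; rfl), fun hi => ⟨Finset.mem_univ _, ?_⟩⟩
        change (if i = j ∨ i = j' then (1 : R → F2) else 0) c ≠ 0
        rw [if_pos hi]
        exact one_ne_zero
      rw [bdH, h3, Finset.sum_pair hne, hjj c, add_self_mod]
      rfl
  let A : U →ₗ[F2] (Fin m → R → F2) := (lhsH ι f).comp U.subtype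
  let small : Set (Dual F2 (Fin m → R → F2)) :=
    {q | (∀ w : Fin m → R → F2, (∀ j, ext (w j) ∈ L) → q w = 0) ∧ (supp (coef q)).card < 2 * κ}
  have hsmall : ∀ q ∈ small, ∀ j, coef q j ≠ 0 →
      3 ≤ (Finset.univ.filter fun c => coef q j c ≠ 0).card := by
    intro q hq j hj
    refine hL (coef q j) hj fun y hy => ?_
    rw [← coef_single]
    refine hq.1 _ fun j' => ?_
    by_cases h : j' = j
    · subst h
      rwa [Pi.single_eq_same]
    · rw [Pi.single_eq_of_ne h, ext_zero]
      exact L.zero_mem
  let small' : Set (Dual F2 (Fin m → R → F2)) :=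
    {q | (∀ w : Fin m → R → F2, (∀ j, ext (w j) ∈ L) → q w = 0) ∧ (supp (coef q)).card < κ}
  have key := act.core (W := Fin m → R → F2) hodd A (fun w => inp ∘ frm v0 ι f φ L w) ?_ small small'
    ?_ ?_ ?_ ?_ C.out
  · intro w w'
    have := key (w + w') ?_ w'
    · rw [show w' + (w + w') = w by
        rw [add_comm w w', ← add_assoc, add_self_mod, zero_add]] at this
      exact this
    · rintro q ⟨hq1, hq2⟩
      have h0 : bdH f (coef q) = 0 := by
        refine funcH_inj hι (LinearMap.ext fun u => ?_)
        rw [funcH_bd]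
        have h1 := hq2 u (act.out u)
        have h2 : funcH ι U 0 u = 0 := by
          change ∑ c, ∑ i, (0 : R → Fin P → F2) c i * u.1 (ι (c, i)) = 0
          simp
        rw [h2]
        exact h1
      have h1 : supp (coef q) = ∅ := by
        by_contra hne
        exact (hf (coef q) (hsmall q hq1)).2 (Finset.nonempty_iff_ne_empty.2 hne)
          (le_of_lt hq1.2) h0
      rw [coef_apply]
      refine Finset.sum_eq_zero fun j _ => ?_
      have h2 : coef q j = 0 := by
        by_contra h2
        have : j ∈ supp (coef q) := Finset.mem_filter.2 ⟨Finset.mem_univ _, h2⟩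
        rw [h1] at this
        exact absurd this (Finset.notMem_empty j)
      rw [h2]
      simp
  · intro w v t
    exact congrArg inp (frm_flip (hU v.1 v.2) w t)
  · refine ⟨fun _ _ => rfl, ?_⟩
    change (supp (0 : Fin m → R → F2)).card < κ
    rw [supp_zero, Finset.card_empty]
    exact hκ
  · rintro q ⟨hq1, hq2⟩ q' ⟨hq1', hq2'⟩
    refine ⟨fun w hw => ?_, ?_⟩
    · rw [LinearMap.add_apply, hq1 w hw, hq1' w hw, add_zero]
    · rw [coef_add]
      have := supp_add (coef q) (coef q')
      omega
  · intro t w d hd
    refine congrArg inp ?_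
    have claim : ∀ (j : Fin m) (c : Con Γ (Option R)) (y : R → F2), t = cpy v0 ι f j c y →
        ∃ l : R → F2, ext l ∈ L ∧ ext (d j) ∘ c.2.1 = ext l ∘ c.2.1 := by
      intro j c y ht
      let E : (R → F2) →ₗ[F2] (Fin (Γ.ar c.1) → F2) :=
        (LinearMap.funLeft F2 F2 c.2.1).comp (extL R)
      let N : Submodule F2 (Fin (Γ.ar c.1) → F2) := (L.comap (extL R)).map E
      suffices h : E (d j) ∈ N by
        obtain ⟨l, hl, hl'⟩ := h
        exact ⟨l, hl, hl'.symm⟩
      by_contra hcon
      have h1 : ∃ μ ∈ N.dualAnnihilator, μ (E (d j)) ≠ 0 := by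
        by_contra h2
        push Not at h2
        refine hcon ?_
        rw [← Subspace.dualAnnihilator_dualCoannihilator_eq (W := N)]
        rw [Submodule.mem_dualCoannihilator]
        exact h2
      obtain ⟨μ, hμ, hμ'⟩ := h1
      rw [Submodule.mem_dualAnnihilator] at hμ
      refine hμ' ?_
      let q : Dual F2 (Fin m → R → F2) := (μ.comp E).comp (LinearMap.proj j)
      have hq : ∀ w : Fin m → R → F2, q w = μ (E (w j)) := fun w => rfl
      have h3 : q d = 0 := by
        refine hd q ⟨fun w hw => ?_, ?_⟩ fun v hv => ?_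
        · rw [hq]
          exact hμ _ ⟨w j, hw j, rfl⟩
        · have h4 : supp (coef q) ⊆ {j} := by
            intro j' hj'
            rw [Finset.mem_singleton]
            by_contra hne
            refine (Finset.mem_filter.1 hj').2 ?_
            funext c'
            change q (Pi.single j' (Pi.single c' 1)) = 0
            rw [hq, Pi.single_eq_of_ne (Ne.symm hne), map_zero, map_zero]
          have h5 := Finset.card_le_card h4
          rw [Finset.card_singleton] at h5
          omega
        · have hv' : flipC v.1 t = t := hv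
          rw [ht, flip_cpy (hU v.1 v.2), cpy, cpy] at hv'
          have h5 := congrArg Prod.snd (eq_of_heq (Sigma.mk.inj hv').2)
          dsimp only at h5
          have h6 : ext (lhsH ι f v.1 j) ∘ c.2.1 = 0 := by
            rw [ext_add] at h5
            have h7 : c.2.2 + (ext y + ext (lhsH ι f v.1 j)) ∘ c.2.1 =
                (c.2.2 + ext y ∘ c.2.1) + ext (lhsH ι f v.1 j) ∘ c.2.1 := by
              funext k
              simp only [Pi.add_apply, Function.comp]
              ring
            rw [h7] at h5
            exact add_eq_left.1 h5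
          rw [hq]
          change μ (ext (lhsH ι f v.1 j) ∘ c.2.1) = 0
          rw [h6, map_zero]
      exact h3
    rw [Bool.eq_iff_iff, frm_true, frm_true]
    have claim2 : ∀ (y y' : R → F2) (c : Con Γ (Option R)), ext y ∘ c.2.1 = ext y' ∘ c.2.1 →
        ∀ j, cpy v0 ι f j c y = cpy v0 ι f j c y' := by
      intro y y' c h j
      rw [cpy, cpy, h]
    constructor
    · rintro ⟨j, c, hc, l, hl, ht⟩
      obtain ⟨l0, hl0, h0⟩ := claim j c _ ht
      refine ⟨j, c, hc, l + l0, by rw [ext_add]; exact L.add_mem hl hl0, ?_⟩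
      rw [ht]
      refine claim2 _ _ c ?_ j
      funext k
      have h1 := congrFun h0 k
      simp only [Pi.add_apply, Function.comp, ext_add] at h1 ⊢
      rw [h1]
      ring
    · rintro ⟨j, c, hc, l, hl, ht⟩
      obtain ⟨l0, hl0, h0⟩ := claim j c _ ht
      refine ⟨j, c, hc, l + l0, by rw [ext_add]; exact L.add_mem hl hl0, ?_⟩
      rw [ht]
      refine claim2 _ _ c ?_ j
      funext k
      have h1 := congrFun h0 k
      simp only [Pi.add_apply, Function.comp, ext_add] at h1 ⊢
      rw [h1]
      have h2 := add_self_mod (ext l0 (c.2.1 k))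
      linear_combination -h2
  · rintro q hq ⟨ξ, hξ, η, hη, h⟩
    refine ⟨hq.1, ?_⟩
    by_contra hcon
    refine (hf (coef q) (hsmall q hq)).1 (not_lt.1 hcon) hq.2
      (Finset.mem_filter.2 ⟨Finset.mem_univ _, ξ, hξ, η, hη, LinearMap.ext fun u => ?_⟩)
    rw [funcH_bd]
    exact h u

end Pool.Agent.H5Lin
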