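import Pool.Agent.H5Lin.FreeTest

/-!
# Matrix gates over the field with two elements make equivariance free: correctness
-/

set_option autoImplicit false

namespace Pool.Agent.H5Lin

open Matrix Module Pool.Agent.H5Sym Pool.Agent.H5Dich

theorem exists_sep' {κ : Type} [Fintype κ] {M : Submodule F2 (κ → F2)} {y : κ → F2} (hy : y ∉ M) :
    ∃ h : κ → F2, (∀ m ∈ M, ∑ j, h j * m j = 0) ∧ ∑ j, h j * y j = 1 := by
  classical
  have h1 : ∃ μ ∈ M.dualAnnihilator, μ y ≠ 0 := by
    by_contra h2
    push Not at h2
    refine hy ?_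
    rw [← Subspace.dualAnnihilator_dualCoannihilator_eq (W := M), Submodule.mem_dualCoannihilator]
    exact h2
  obtain ⟨μ, hμ, hμ'⟩ := h1
  rw [Submodule.mem_dualAnnihilator] at hμ
  have h2 : ∀ m : κ → F2, μ m = ∑ j, μ (Pi.single j 1) * m j := by
    intro m
    conv_lhs => rw [← Finset.univ_sum_single m, map_sum]
    refine Finset.sum_congr rfl fun j _ => ?_
    rcases F2.cases (m j) with h | h
    · rw [h, Pi.single_zero, map_zero, mul_zero]
    · rw [h, mul_one]
  refine ⟨fun j => μ (Pi.single j 1), fun m hm => ?_, ?_⟩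
  · rw [← h2]
    exact hμ m hm
  · rw [← h2]
    exact (F2.cases _).resolve_left hμ'

variable {ι T : Type} [Fintype ι] [Fintype T] [DecidableEq ι] (S : T → Finset ι)
  (ρ : (ι → F2) → Equiv.Perm T) (num : T → ℕ) (C : Circuit.{0, 0, 0} T Bool)
  (m : ℕ) (hm : ∀ t, num t < m) (x : T → Bool)

omit [Fintype ι] [Fintype T] [DecidableEq ι] in
/-- the solutions form an affine subspace -/
theorem Sol_add (k : Cand S) {a b c : Sp S k.1} (ha : a ∈ Sol S ρ x k) (hb : b ∈ Sol S ρ x k)
    (hc : c ∈ Sol S ρ x k) : a + b + c ∈ Sol S ρ x k := by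
  intro d
  have h1 := ha (b + (c + d))
  have h2 := hc (b + (c + d))
  have h3 := hb d
  have e1 : a + b + c + d = a + (b + (c + d)) := by abel
  have e2 : c + (b + (c + d)) = b + d := by
    have := vadd_self c
    calc c + (b + (c + d)) = (c + c) + (b + d) := by abel
      _ = b + d := by rw [this, zero_add]
  rw [e2, h3] at h2
  rw [e1, h1, h2]

omit [Fintype ι] [Fintype T] [DecidableEq ι] in
/-- **Duality**: the valid equations characterise the solutions. -/
theorem dual_iff (k : Cand S) (u : Sp S k.1) :
    (∀ q : Eqn S, ∀ h : q.cand = k, Vld S ρ x q →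
      dt q.2.2.1 ((show Sp S q.1 from (congrArg Sigma.fst h).symm ▸ u) + q.2.2.2.1) = q.2.2.2.2) ↔
      u ∈ Sol S ρ x k := by
  classical
  constructor
  · intro hq
    by_contra hu
    by_cases hne : ∃ s, s ∈ Sol S ρ x k
    · obtain ⟨s, hs⟩ := hne
      let L : Submodule F2 (Sp S k.1) :=
        { carrier := {l | s + l ∈ Sol S ρ x k}
          zero_mem' := by
            change s + 0 ∈ Sol S ρ x k
            rwa [add_zero]
          add_mem' := by
            intro a b ha hb
            change s + (a + b) ∈ Sol S ρ x k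
            have h1 := Sol_add S ρ x k ha hs hb
            have e : s + a + s + (s + b) = s + (a + b) := by
              have := vadd_self s
              calc s + a + s + (s + b) = (s + s) + (s + (a + b)) := by abel
                _ = _ := by rw [this, zero_add]
            rwa [e] at h1
          smul_mem' := by
            intro c a ha
            rcases F2.cases c with h | h
            · change s + c • a ∈ Sol S ρ x k
              rw [h, zero_smul, add_zero]
              exact hs
            · change s + c • a ∈ Sol S ρ x k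
              rw [h, one_smul]
              exact ha }
      have hL : u + s ∉ L := by
        intro h
        have h1 : s + (u + s) ∈ Sol S ρ x k := h
        have e : s + (u + s) = u := by
          have := vadd_self s
          calc s + (u + s) = (s + s) + u := by abel
            _ = u := by rw [this, zero_add]
        rw [e] at h1
        exact hu h1
      obtain ⟨h, h1, h2⟩ := exists_sep' hL
      have h3 := hq ⟨k.1, (k.2, (h, (s, 0)))⟩ rfl (fun w hw => h1 w hw)
      have h4 : dt h (u + s) = 0 := h3
      have h5 : dt h (u + s) = 1 := h2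
      rw [h4] at h5
      exact zero_ne_one h5
    · push Not at hne
      have h3 := hq ⟨k.1, (k.2, (0, (0, 1)))⟩ rfl (fun w hw => absurd hw (hne _))
      have h4 : dt (0 : Sp S k.1) (u + 0) = 1 := h3
      rw [dt] at h4
      simp at h4
  · rintro hu q rfl hq
    refine hq _ ?_
    have e : ∀ a v : Sp S q.1, a + (v + a) = v := by
      intro a v
      have := vadd_self a
      calc a + (v + a) = (a + a) + v := by abel
        _ = v := by rw [this, zero_add]
    have h1 := e q.2.2.2.1 u
    change q.2.2.2.1 + ((show Sp S q.1 from u) + q.2.2.2.1) ∈ _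
    rw [h1]
    exact hu

/-- the test succeeds if and only if the candidate extends the choices made before -/
theorem test_iff3 (k : Cand S) : ev S ρ num C m hm x (.ker k false) <
    2 * ev S ρ num C m hm x (.ker k true) ↔ ∃ v : ι → F2,
      (∀ k' : Cand S, num k'.1 < num k.1 → ev S ρ num C m hm x (.can k') = 1 →
        res S k'.1 v ∈ Sol S ρ x k') ∧ res S k.1 v ∈ Sol S ρ x k := by
  rw [test_iff']
  have key : ∀ (v : ι → F2) (k' : Cand S), (∀ q : Eqn S, q.cand = k' → Vld S ρ x q →
      dt q.2.2.1 (res S q.1 v + q.2.2.2.1) = q.2.2.2.2) ↔ res S k'.1 v ∈ Sol S ρ x k' := by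
    intro v k'
    rw [← dual_iff]
    refine forall_congr' fun q => ?_
    constructor
    · rintro h rfl hq
      exact h rfl hq
    · rintro h rfl hq
      exact h rfl hq
  refine exists_congr fun v => ?_
  rw [← key v k]
  constructor
  · intro h
    refine ⟨fun k' h1 h2 => ?_, fun q hq hv => ?_⟩
    · rw [← key v k']
      rintro q rfl hv
      exact h q ⟨Or.inl ⟨h1, h2⟩, hv⟩
    · refine h q ⟨Or.inr ⟨?_, hq⟩, hv⟩
      rw [← hq]
      exact lt_irrefl _
  · rintro ⟨h1, h2⟩ q ⟨h | h, hv⟩
    · exact (key v q.cand).2 (h1 q.cand h.1 h.2) q rfl hv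
    · exact h2 q h.2 hv

/-- the test as it is seen by the gate `can` -/
theorem Tst_iff (k : Cand S) (B : Sp S k.1 → Bool) :
    Tst (t := k.1) ((wirF S ρ C (.can k)).map fun e => (e.1, ev S ρ num C m hm x e.2)) B ↔
      ev S ρ num C m hm x (.ker ⟨k.1, B⟩ false) < 2 * ev S ρ num C m hm x (.ker ⟨k.1, B⟩ true) := by
  have key : ∀ (b : Bool) (p : ℕ), (code (B, b), p) ∈
      ((wirF S ρ C (.can k)).map fun e => (e.1, ev S ρ num C m hm x e.2)) ↔
      p = ev S ρ num C m hm x (.ker ⟨k.1, B⟩ b) := by
    intro b p
    rw [Multiset.mem_map]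
    constructor
    · rintro ⟨e, he, h⟩
      simp only [wirF, Multiset.mem_map] at he
      obtain ⟨⟨B', b'⟩, -, rfl⟩ := he
      have h1 : (B', b') = (B, b) := code_inj (congrArg Prod.fst h)
      have h2 := congrArg Prod.snd h
      dsimp only at h2
      injection h1 with h3 h4
      rw [h3, h4] at h2
      exact h2.symm
    · intro h
      refine ⟨(code (B, b), .ker ⟨k.1, B⟩ b), ?_, Prod.ext rfl h.symm⟩
      simp only [wirF, Multiset.mem_map]
      exact ⟨(B, b), Finset.mem_univ _, rfl⟩
  constructor
  · rintro ⟨p, q, hp, hq, h⟩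
    rw [key] at hp hq
    rwa [hp, hq] at h
  · intro h
    exact ⟨_, _, (key _ _).2 rfl, (key _ _).2 rfl, h⟩

open Classical in
theorem ev_can (k : Cand S) : ev S ρ num C m hm x (.can k) =
    if ∃ h : ∃ B, Tst (t := k.1) ((wirF S ρ C (.can k)).map fun e =>
      (e.1, ev S ρ num C m hm x e.2)) B, k.2 = Classical.choose h then 1 else 0 :=
  LCircuit.eval_sym (C := fcirc S ρ num C m hm) (f := opF S C (.can k)) rfl

/-- the choices are consistent -/
theorem choices (hinj : Function.Injective num) (hρ : ∀ u v, ρ (u + v) = ρ u * ρ v)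
    (hS : ∀ t u, (∀ i ∈ S t, u i = 0) → ρ u t = t) (n : ℕ) : ∃ v : ι → F2,
    ∀ t, num t < n → ∃ B : Sp S t → Bool, (∀ B', ev S ρ num C m hm x (.can ⟨t, B'⟩) = 1 ↔ B' = B) ∧
      res S t v ∈ Sol S ρ x ⟨t, B⟩ := by
  classical
  induction n with
  | zero => exact ⟨0, fun t ht => absurd ht (Nat.not_lt_zero _)⟩
  | succ n ih =>
    obtain ⟨v, hv⟩ := ih
    by_cases hn : ∃ t, num t = n
    · obtain ⟨t, rfl⟩ := hn
      let M := (wirF S ρ C (.can ⟨t, fun _ => false⟩)).map fun e => (e.1, ev S ρ num C m hm x e.2)
      have hM : ∀ B : Sp S t → Bool, (wirF S ρ C (.can ⟨t, B⟩)).map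
        (fun e => (e.1, ev S ρ num C m hm x e.2)) = M := fun B => rfl
      have hex : ∃ B, Tst (S := S) (t := t) M B := by
        let B : Sp S t → Bool := fun b => x (ρ (lft S t (res S t v + b)) t)
        refine ⟨B, ?_⟩
        refine (Tst_iff S ρ num C m hm x ⟨t, B⟩ B).2 ((test_iff3 S ρ num C m hm x ⟨t, B⟩).2
          ⟨v, fun k' hk' hc => ?_, fun b => rfl⟩)
        obtain ⟨B', h1, h2⟩ := hv k'.1 hk'
        obtain ⟨t', B''⟩ := k'
        have h3 : B'' = B' := (h1 B'').1 hc
        subst h3
        exact h2
      have hcan : ∀ B', ev S ρ num C m hm x (.can ⟨t, B'⟩) = 1 ↔ B' = Classical.choose hex := by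
        intro B'
        rw [ev_can]
        constructor
        · intro h
          by_contra hcon
          rw [if_neg] at h
          · exact absurd h (by norm_num)
          · rintro ⟨h1, h2⟩
            exact hcon h2
        · intro h
          rw [if_pos]
          exact ⟨hex, h⟩
      have hch := Classical.choose_spec hex
      set B := Classical.choose hex with hB
      have h1 := (test_iff3 S ρ num C m hm x ⟨t, B⟩).1 ((Tst_iff S ρ num C m hm x ⟨t, B⟩ B).1 hch)
      obtain ⟨v', hv', hv''⟩ := h1
      refine ⟨v', fun t' ht' => ?_⟩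
      by_cases htt : num t' = num t
      · have := hinj htt
        subst this
        exact ⟨B, hcan, hv''⟩
      · have hlt : num t' < num t := by omega
        obtain ⟨B', h1, h2⟩ := hv t' hlt
        exact ⟨B', h1, hv' ⟨t', B'⟩ hlt ((h1 B').2 rfl)⟩
    · refine ⟨v, fun t ht => hv t ?_⟩
      have : num t ≠ n := fun h => hn ⟨t, h⟩
      omega

theorem opF_none {g : C.Gate} (hi : C.input g = none) (M : Multiset (ℕ × ℕ)) : opF S C (.old g) M =
    if C.op g (M.map fun e => (e.1, decide (e.2 = 1))) = true then 1 else 0 := by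
  unfold opF
  simp only [hi]

open Classical in
theorem opF_some {g : C.Gate} {t : T} (hi : C.input g = some t) (M : Multiset (ℕ × ℕ)) :
    opF S C (.old g) M = if ∃ B : Sp S t → Bool, B 0 = true ∧ (code B, 1) ∈ M then 1 else 0 := by
  unfold opF
  simp only [hi]

theorem wirF_none {g : C.Gate} (hi : C.input g = none) :
    wirF S ρ C (.old g) = (C.wires g).map fun e => (e.1, .old e.2) := by
  unfold wirF
  simp only [hi]

theorem wirF_some {g : C.Gate} {t : T} (hi : C.input g = some t) : wirF S ρ C (.old g) =
    Finset.univ.val.map fun B : Sp S t → Bool => (code B, .can ⟨t, B⟩) := by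
  unfold wirF
  simp only [hi]

/-- the gates of the given circuit are evaluated at a translate of the input -/
theorem ev_old (hinj : Function.Injective num) (hρ : ∀ u v, ρ (u + v) = ρ u * ρ v)
    (hS : ∀ t u, (∀ i ∈ S t, u i = 0) → ρ u t = t) : ∃ v : ι → F2, ∀ g : C.Gate,
      ev S ρ num C m hm x (.old g) = if C.eval (x ∘ ρ v) g then 1 else 0 := by
  classical
  obtain ⟨v, hv⟩ := choices S ρ num C m hm x hinj hρ hS m
  refine ⟨v, ?_⟩
  suffices H : ∀ n, ∀ g, C.level g = n → ev S ρ num C m hm x (.old g) =
      if C.eval (x ∘ ρ v) g then 1 else 0 from fun g => H _ g rfl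
  intro n
  induction n using Nat.strong_induction_on with
  | _ n ih =>
    intro g hg
    refine (LCircuit.eval_sym (C := fcirc S ρ num C m hm) (f := opF S C (.old g)) rfl).trans ?_
    change opF S C (.old g) ((wirF S ρ C (.old g)).map fun e => (e.1, ev S ρ num C m hm x e.2)) = _
    obtain hi | ⟨t, hi⟩ : C.input g = none ∨ ∃ t, C.input g = some t := by
      cases h : C.input g with
      | none => exact Or.inl rfl
      | some t => exact Or.inr ⟨t, rfl⟩
    · rw [opF_none S C hi, wirF_none S ρ C hi]
      have h1 : C.eval (x ∘ ρ v) g = C.op g ((C.wires g).map fun e => (e.1, C.eval (x ∘ ρ v) e.2)) := by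
        rw [C.eval_none hi]
      rw [h1]
      simp only [Multiset.map_map]
      congr 2
      refine congrArg _ (Multiset.map_congr rfl fun e he => ?_)
      have h2 := ih _ (hg ▸ C.level_lt g e he) e.2 rfl
      change (e.1, decide (ev S ρ num C m hm x (.old e.2) = 1)) = (e.1, C.eval (x ∘ ρ v) e.2)
      rw [h2]
      cases C.eval (x ∘ ρ v) e.2 <;> rfl
    · rw [opF_some S C hi, wirF_some S ρ C hi]
      obtain ⟨B, hB1, hB2⟩ := hv t (hm t)
      have h1 : C.eval (x ∘ ρ v) g = x (ρ v t) := by
        rw [C.eval_some hi]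
        rfl
      have h2 : x (ρ v t) = B 0 := by
        have h3 := hB2 0
        have h4 : ρ (lft S t (res S t v + 0)) t = ρ v t := by
          refine rho_congr S ρ hρ hS ?_
          rw [res_lft, add_zero]
        dsimp only at h3
        rw [← h3, h4]
      rw [h1, h2]
      refine if_congr ?_ rfl rfl
      simp only [Multiset.map_map, Multiset.mem_map, Function.comp]
      constructor
      · rintro ⟨B', h3, B'', -, h4⟩
        have h5 : B'' = B' := code_inj (congrArg Prod.fst h4)
        subst h5
        have h6 : ev S ρ num C m hm x (.can ⟨t, B''⟩) = 1 := congrArg Prod.snd h4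
        rw [← (hB1 _).1 h6]
        exact h3
      · intro h
        exact ⟨B, h, B, Finset.mem_univ _, Prod.ext rfl ((hB1 B).2 rfl)⟩

end Pool.Agent.H5Lin
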