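import Pool.Agent.H5Lin.FreeDefs

/-!
# Matrix gates over the field with two elements make equivariance free: the action
-/

set_option autoImplicit false

namespace Pool.Agent.H5Lin

open Matrix Module Pool.Agent.H5Sym

variable {ι T : Type} [Fintype ι] [Fintype T] [DecidableEq ι] (S : T → Finset ι)
  (ρ : (ι → F2) → Equiv.Perm T) (num : T → ℕ) (C : Circuit.{0, 0, 0} T Bool)

omit [Fintype ι] [Fintype T] [DecidableEq ι] in
theorem rho_zero (hρ : ∀ u v, ρ (u + v) = ρ u * ρ v) : ρ 0 = 1 := by
  have := hρ 0 0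
  rw [add_zero] at this
  exact left_eq_mul.1 this

omit [Fintype ι] [Fintype T] [DecidableEq ι] in
theorem vadd_self {κ : Type} (u : κ → F2) : u + u = 0 := funext fun i => add_self_mod (u i)

omit [Fintype ι] [Fintype T] [DecidableEq ι] in
theorem rho_rho (hρ : ∀ u v, ρ (u + v) = ρ u * ρ v) (u : ι → F2) (t : T) : ρ u (ρ u t) = t := by
  rw [← Equiv.Perm.mul_apply, ← hρ, vadd_self, rho_zero ρ hρ]
  rfl

omit [Fintype ι] [Fintype T] [DecidableEq ι] in
theorem rho_congr (hρ : ∀ u v, ρ (u + v) = ρ u * ρ v)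
    (hS : ∀ t u, (∀ i ∈ S t, u i = 0) → ρ u t = t) {t : T} {u v : ι → F2}
    (h : res S t u = res S t v) : ρ u t = ρ v t := by
  have h1 : ρ (v + u) t = t := by
    refine hS t _ fun i hi => ?_
    have h2 : u i = v i := congrFun h ⟨i, hi⟩
    rw [Pi.add_apply, h2]
    exact add_self_mod _
  have h3 : ρ v (ρ (v + u) t) = ρ u t := by
    rw [hρ, Equiv.Perm.mul_apply, rho_rho ρ hρ]
  rw [← h3, h1]

/-- the action on the equations -/
def shE (u : ι → F2) (q : Eqn S) : Eqn S :=
  ⟨q.1, (q.2.1, (q.2.2.1, (q.2.2.2.1 + res S q.1 u, q.2.2.2.2)))⟩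

/-- the action on the names of rows and columns -/
def shI (u : ι → F2) : FIx S → FIx S
  | Sum.inl (Sum.inl i) => Sum.inl (Sum.inl i)
  | Sum.inl (Sum.inr q) => Sum.inl (Sum.inr (shE S u q))
  | Sum.inr (Sum.inl c) => Sum.inr (Sum.inl (c.1, c.2 + u c.1))
  | Sum.inr (Sum.inr c) => Sum.inr (Sum.inr c)

/-- the action on the gates -/
def shG {G : Type} (u : ι → F2) : FGate S G → FGate S G
  | .inp t => .inp (ρ u t)
  | .pat k a => .pat k (a + res S k.1 u)
  | .act f q => .act f (shE S u q)
  | g => g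

omit [Fintype ι] [Fintype T] [DecidableEq ι] in
theorem shE_shE (u v : ι → F2) (q : Eqn S) : shE S u (shE S v q) = shE S (u + v) q := by
  have h : q.2.2.2.1 + res S q.1 v + res S q.1 u = q.2.2.2.1 + res S q.1 (u + v) := by
    rw [res_add, add_assoc, add_comm (res S q.1 v)]
  change (⟨q.1, (q.2.1, (q.2.2.1, (q.2.2.2.1 + res S q.1 v + res S q.1 u, q.2.2.2.2)))⟩ : Eqn S) = _
  rw [h]
  rfl

omit [Fintype ι] [Fintype T] [DecidableEq ι] in
theorem shE_zero (q : Eqn S) : shE S 0 q = q := by
  have h : res S q.1 0 = 0 := rfl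
  simp only [shE, h, add_zero]

omit [Fintype ι] [Fintype T] [DecidableEq ι] in
theorem shI_shI (u v : ι → F2) (i : FIx S) : shI S u (shI S v i) = shI S (u + v) i := by
  rcases i with (i | q) | (c | c)
  · rfl
  · simp only [shI, shE_shE]
  · simp only [shI, Pi.add_apply, add_assoc, add_comm (v c.1)]
  · rfl

omit [Fintype ι] [Fintype T] [DecidableEq ι] in
theorem shI_zero (i : FIx S) : shI S 0 i = i := by
  rcases i with (i | q) | (c | c)
  · rfl
  · simp only [shI, shE_zero]
  · simp only [shI, Pi.zero_apply, add_zero]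
  · rfl

omit [Fintype ι] [Fintype T] [DecidableEq ι] in
theorem shG_shG (hρ : ∀ u v, ρ (u + v) = ρ u * ρ v) {G : Type} (u v : ι → F2) (g : FGate S G) :
    shG S ρ u (shG S ρ v g) = shG S ρ (u + v) g := by
  rcases g with t | b | ⟨k, a⟩ | ⟨k, b⟩ | k | ⟨f, q⟩ | g
  · simp only [shG, hρ, Equiv.Perm.mul_apply]
  · rfl
  · simp only [shG, res_add, add_assoc, add_comm (res S k.1 u)]
  · rfl
  · rfl
  · simp only [shG, shE_shE]
  · rfl

omit [Fintype ι] [Fintype T] [DecidableEq ι] in
theorem shG_zero (hρ : ∀ u v, ρ (u + v) = ρ u * ρ v) {G : Type} (g : FGate S G) :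
    shG S ρ 0 g = g := by
  rcases g with t | b | ⟨k, a⟩ | ⟨k, b⟩ | k | ⟨f, q⟩ | g
  · simp only [shG, rho_zero ρ hρ]
    rfl
  · rfl
  · have h : res S k.1 0 = 0 := rfl
    simp only [shG, h, add_zero]
  · rfl
  · rfl
  · simp only [shG, shE_zero]
  · rfl

/-- the action on the gates by permutations -/
def permG (hρ : ∀ u v, ρ (u + v) = ρ u * ρ v) {G : Type} (u : ι → F2) : Equiv.Perm (FGate S G) where
  toFun := shG S ρ u
  invFun := shG S ρ u
  left_inv g := by rw [shG_shG S ρ hρ, vadd_self, shG_zero S ρ hρ]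
  right_inv g := by rw [shG_shG S ρ hρ, vadd_self, shG_zero S ρ hρ]

/-- the action on the names -/
def permI (u : ι → F2) : Equiv.Perm (FIx S) where
  toFun := shI S u
  invFun := shI S u
  left_inv g := by rw [shI_shI, vadd_self, shI_zero]
  right_inv g := by rw [shI_shI, vadd_self, shI_zero]

omit [Fintype ι] [Fintype T] [DecidableEq ι] in
theorem occ_shE (u : ι → F2) (q : Eqn S) (c : ι × F2) :
    Occ (shE S u q) (c.1, c.2 + u c.1) ↔ Occ q c := by
  constructor
  · rintro ⟨h, h1, h2⟩
    exact ⟨h, h1, add_right_cancel h2⟩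
  · rintro ⟨h, h1, h2⟩
    refine ⟨h, h1, ?_⟩
    change q.2.2.2.1 ⟨c.1, h⟩ + u c.1 = c.2 + u c.1
    rw [h2]

theorem gq_shE (u : ι → F2) {G : Type} (k : Cand S) (q : Eqn S) :
    gq S num G k (shE S u q) = shG S ρ u (gq S num G k q) := by
  by_cases hn : num q.1 < num k.1
  · rw [gq, gq, if_pos hn, if_pos (show num (shE S u q).1 < num k.1 from hn)]
    rfl
  · rw [gq, gq, if_neg hn, if_neg (show ¬ num (shE S u q).1 < num k.1 from hn)]
    by_cases hk : q.cand = k
    · rw [if_pos hk, if_pos (show (shE S u q).cand = k from hk)]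
      rfl
    · rw [if_neg hk, if_neg (show ¬ (shE S u q).cand = k from hk)]
      rfl

open Classical in
theorem entF_sh (u : ι → F2) {G : Type} (k : Cand S) (b : Bool) (i j : FIx S) :
    entF S num G k b (shI S u i) (shI S u j) = shG S ρ u (entF S num G k b i j) := by
  rcases i with (i | q) | (c | c) <;> rcases j with (i' | q') | (c' | c')
  all_goals try rfl
  · change (if Occ (shE S u q) (c'.1, c'.2 + u c'.1) then gq S num G k (shE S u q) else .cst false) =
      shG S ρ u (if Occ q c' then gq S num G k q else .cst false)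
    by_cases h : Occ q c'
    · rw [if_pos h, if_pos ((occ_shE S u q c').2 h), gq_shE S ρ num u]
    · rw [if_neg h, if_neg fun h' => h ((occ_shE S u q c').1 h')]
      rfl
  · change (if b = true ∧ q.2.2.2.2 = 1 then gq S num G k (shE S u q) else .cst false) =
      shG S ρ u (if b = true ∧ q.2.2.2.2 = 1 then gq S num G k q else .cst false)
    by_cases h : b = true ∧ q.2.2.2.2 = 1
    · rw [if_pos h, if_pos h, gq_shE S ρ num u]
    · rw [if_neg h, if_neg h]
      rfl

/-- the action -/
noncomputable def fact (m : ℕ) (hm : ∀ t, num t < m) (hρ : ∀ u v, ρ (u + v) = ρ u * ρ v)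
    (hS : ∀ t u, (∀ i ∈ S t, u i = 0) → ρ u t = t) : (fcirc S ρ num C m hm).Action ρ where
  gate := permG S ρ hρ
  row u := Equiv.prodCongr (Equiv.refl _) (permI S u)
  gate_add u v := Equiv.ext fun g => (shG_shG S ρ hρ u v g).symm
  row_add u v := Equiv.ext fun i => Prod.ext rfl (shI_shI S u v i.2).symm
  label u g := by
    rcases g with t | b | ⟨k, a⟩ | ⟨k, b⟩ | k | ⟨f, q⟩ | g <;> rfl
  wires u g := by
    rcases g with t | b | ⟨k, a⟩ | ⟨k, b⟩ | k | ⟨f, q⟩ | g
    · rfl
    · rfl
    · change Multiset.map _ _ = Multiset.map _ (Multiset.map _ _)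
      rw [Multiset.map_map]
      refine Multiset.map_congr rfl fun b _ => ?_
      change (code b, FGate.inp _) = (code b, FGate.inp (ρ u (ρ (lft S k.1 (a + b)) k.1)))
      congr 2
      rw [← Equiv.Perm.mul_apply, ← hρ]
      refine rho_congr S ρ hρ hS ?_
      rw [res_lft, res_add, res_lft]
      abel
    · rfl
    · change Multiset.map _ _ = Multiset.map _ (Multiset.map _ _)
      rw [Multiset.map_map]
      rfl
    · change (if f then {(0, FGate.can (shE S u q).cand)} else 0) + Multiset.map _ _ =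
        Multiset.map _ ((if f then {(0, FGate.can q.cand)} else 0) + Multiset.map _ _)
      refine Eq.trans ?_ (Multiset.map_add _ _ _).symm
      refine congr (congrArg _ ?_) ?_
      · cases f <;> rfl
      · refine Eq.trans (Multiset.map_congr rfl fun (w : Sp S q.1) _ => ?_)
          (Multiset.map_map _ _ _).symm
        change (code w + 1, FGate.pat q.cand (q.2.2.2.1 + res S q.1 u + w)) =
          (code w + 1, FGate.pat q.cand (q.2.2.2.1 + w + res S q.1 u))
        congr 2
        abel
    · change (wirF S ρ C (.old g)) = Multiset.map _ (wirF S ρ C (.old g))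
      simp only [wirF]
      cases C.input g with
      | none => simp only [Multiset.map_map]; rfl
      | some t => simp only [Multiset.map_map]; rfl
  owner u i := rfl
  entry u i j h := by
    have h1 : i.1 = j.1 := by
      have h2 : FGate.ker i.1.1 i.1.2 = (FGate.ker j.1.1 j.1.2 : FGate S C.Gate) := h
      injection h2 with h3 h4
      exact Prod.ext h3 h4
    exact entF_sh S ρ num u i.1.1 i.1.2 i.2 j.2
  out u := rfl

end Pool.Agent.H5Lin
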