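import Pool.Agent.H5Lin.FreeMain
import Pool.Agent.H5Lin.Fool
import Pool.Agent.H5Sym.PermMain

/-!
# Matrix gates over the field with two elements make equivariance free: two applications
-/

set_option autoImplicit false

namespace Pool.Agent.H5Lin

open Matrix Module Pool.Agent.H5Sym Pool.Agent.H5Dich

theorem freeCSP (Γ : Lang) : ∃ c : ℕ, ∀ (n : ℕ) (P : (Con Γ (Fin n) → Bool) → Prop),
    (∀ φ u, P (φ ∘ flipC u) ↔ P φ) →
    ∀ (C : Circuit.{0, 0, 0} (Con Γ (Fin n)) Bool) [Finite C.Gate],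
    (∀ φ, C.eval φ C.out = true ↔ P φ) →
    ∃ C' : LCircuit.{0, 0} (Con Γ (Fin n)) ℕ,
      Nonempty (C'.Action fun u : Fin n → F2 => flipC u) ∧ Finite C'.Gate ∧
      KernelExtension C C' c ∧
      (∀ φ : Con Γ (Fin n) → Bool,
        C'.eval ((fun b : Bool => if b then 1 else 0) ∘ φ) C'.out = 1 ↔ P φ) ∧
      C'.size ≤ Nat.card C.Gate + c * (n + 1) ^ c := by
  classical
  have : Finite Γ.Idx := Γ.finite
  have : Fintype Γ.Idx := Fintype.ofFinite _
  obtain ⟨K, hK⟩ : ∃ K, ∀ i, Γ.ar i ≤ K :=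
    ⟨∑ i, Γ.ar i, fun i => Finset.single_le_sum (f := Γ.ar) (fun _ _ => Nat.zero_le _)
      (Finset.mem_univ i)⟩
  set a := Nat.card Γ.Idx * 2 ^ K + 1 with ha
  set c := freeC K * a ^ 2 + (2 * K + 2) with hc
  have hc1 : freeC K ≤ c := by
    have h1 : freeC K * 1 ≤ freeC K * a ^ 2 := Nat.mul_le_mul_left _ (Nat.one_le_pow _ _ (by omega))
    omega
  refine ⟨c, fun n P hP C _ hC => ?_⟩
  let S : Con Γ (Fin n) → Finset (Fin n) := fun t => Finset.univ.image t.2.1
  obtain ⟨C', h1, h2, h3, h4, h5⟩ := free (K := K) (fun u : Fin n → F2 => (flipC u :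
    Equiv.Perm (Con Γ (Fin n)))) (fun u v => flipC_add u v) S (fun t => by
      refine Finset.card_image_le.trans ?_
      rw [Finset.card_univ, Fintype.card_fin]
      exact hK t.1) (fun t u hu => by
      obtain ⟨i, s, b⟩ := t
      change (⟨i, (s, b + u ∘ s)⟩ : Con Γ (Fin n)) = ⟨i, (s, b)⟩
      have h : u ∘ s = 0 := funext fun k => hu (s k) (Finset.mem_image_of_mem _ (Finset.mem_univ _))
      rw [h, add_zero]) P hP C hC
  refine ⟨C', h1, h2, fun g => ?_, h4, h5.trans ?_⟩
  · rcases h3 g with h | h | ⟨f, hf, h | h⟩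
    · exact Or.inl h
    · exact Or.inr (Or.inl h)
    · exact Or.inr (Or.inr ⟨f, hf, Or.inl (h.trans hc1)⟩)
    · exact Or.inr (Or.inr ⟨f, hf, Or.inr h⟩)
  · refine Nat.add_le_add_left ?_ _
    have hT : Nat.card (Con Γ (Fin n)) ≤ Nat.card Γ.Idx * (2 ^ K * (n + 1) ^ K) := by
      rw [Nat.card_sigma, Nat.card_eq_fintype_card (α := Γ.Idx), ← Finset.card_univ, ← smul_eq_mul]
      refine Finset.sum_le_card_nsmul _ _ _ fun i _ => ?_
      rw [Nat.card_prod, Nat.card_fun, Nat.card_fun, Nat.card_fin, Nat.card_fin,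
        Nat.card_eq_fintype_card (α := F2), ZMod.card, mul_comm]
      exact Nat.mul_le_mul (Nat.pow_le_pow_right (by norm_num) (hK i))
        ((Nat.pow_le_pow_left (Nat.le_succ n) _).trans (Nat.pow_le_pow_right (Nat.succ_pos n) (hK i)))
    have h6 : Nat.card (Con Γ (Fin n)) + Nat.card (Fin n) + 1 ≤ a * (n + 1) ^ (K + 1) := by
      rw [Nat.card_fin]
      have h7 : n + 1 ≤ (n + 1) ^ (K + 1) := by
        calc n + 1 = (n + 1) ^ 1 := (pow_one _).symm
          _ ≤ _ := Nat.pow_le_pow_right (Nat.succ_pos n) (by omega)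
      have h8 : (n + 1) ^ K ≤ (n + 1) ^ (K + 1) := Nat.pow_le_pow_right (Nat.succ_pos n) (by omega)
      calc Nat.card (Con Γ (Fin n)) + n + 1 ≤ Nat.card Γ.Idx * (2 ^ K * (n + 1) ^ K) + (n + 1) := by
            omega
        _ ≤ Nat.card Γ.Idx * (2 ^ K * (n + 1) ^ (K + 1)) + (n + 1) ^ (K + 1) := by gcongr
        _ = a * (n + 1) ^ (K + 1) := by rw [ha]; ring
    calc freeC K * (Nat.card (Con Γ (Fin n)) + Nat.card (Fin n) + 1) ^ 2
        ≤ freeC K * (a * (n + 1) ^ (K + 1)) ^ 2 := by gcongr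
      _ = freeC K * a ^ 2 * (n + 1) ^ (2 * K + 2) := by ring
      _ ≤ c * (n + 1) ^ c := by
          refine Nat.mul_le_mul (by omega) (Nat.pow_le_pow_right (Nat.succ_pos n) (by omega))

section blocks

variable {β X : Type} [Finite X] (e : β × K4 ↪ X)

/-- the two coordinates of the block of a point -/
noncomputable def blk [Fintype β] (x : X) : Finset (β × Bool) :=
  open Classical in Finset.univ.filter fun p => ∃ a, x = e (p.1, a)

omit [Finite X] in
theorem card_blk [Fintype β] (x : X) : (blk e x).card ≤ 2 := by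
  classical
  by_cases h : ∃ i a, x = e (i, a)
  · obtain ⟨i, a, rfl⟩ := h
    have h1 : blk e (e (i, a)) ⊆ {(i, false), (i, true)} := by
      rintro ⟨j, b⟩ hp
      obtain ⟨a', h2⟩ := (Finset.mem_filter.1 hp).2
      have h3 := congrArg Prod.fst (e.injective h2)
      dsimp only at h3
      subst h3
      cases b <;> simp
    exact (Finset.card_le_card h1).trans Finset.card_le_two
  · have h1 : blk e x = ∅ := by
      rw [Finset.eq_empty_iff_forall_notMem]
      rintro ⟨j, b⟩ hp
      obtain ⟨a', h2⟩ := (Finset.mem_filter.1 hp).2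
      exact h ⟨j, a', h2⟩
    rw [h1]
    exact Nat.zero_le _

/-- the coordinates as elements of the groups -/
def toK (u : β × Bool → F2) : β → K4 := fun i => (u (i, false), u (i, true))

omit [Finite X] in
theorem shift_fix [Fintype β] (x : X) (u : β × Bool → F2) (hu : ∀ p ∈ blk e x, u p = 0) :
    (blockShift (toK u)).viaEmbedding e x = x := by
  classical
  by_cases h : x ∈ Set.range e
  · obtain ⟨⟨i, a⟩, rfl⟩ := h
    rw [Equiv.Perm.viaEmbedding_apply, blockShift_apply]
    have h1 : ∀ b, u (i, b) = 0 := fun b =>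
      hu (i, b) (Finset.mem_filter.2 ⟨Finset.mem_univ _, a, rfl⟩)
    have h2 : toK u i = 0 := by
      rw [toK, h1, h1]
      rfl
    rw [h2, add_zero]
  · exact Equiv.Perm.viaEmbedding_apply_of_notMem _ _ _ h

theorem freeK4 (P : (X × X → Bool) → Prop)
    (hP : ∀ x (v : β → K4), P (x ∘ pairPerm ((blockShift v).viaEmbedding e)) ↔ P x)
    (C : Circuit.{0, 0, 0} (X × X) Bool) [Finite C.Gate]
    (hC : ∀ x, C.eval x C.out = true ↔ P x) :
    ∃ C' : LCircuit.{0, 0} (X × X) ℕ,
      Nonempty (C'.Action fun v : β → K4 => pairPerm ((blockShift v).viaEmbedding e)) ∧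
      Finite C'.Gate ∧ KernelExtension C C' (freeC 4) ∧
      (∀ x : X × X → Bool, C'.eval ((fun b : Bool => if b then 1 else 0) ∘ x) C'.out = 1 ↔ P x) ∧
      C'.size ≤ Nat.card C.Gate + freeC 4 * (Nat.card X + 1) ^ 4 := by
  classical
  have : Finite (β × K4) := Finite.of_injective e e.injective
  have : Finite β := Finite.of_surjective (Prod.fst : β × K4 → β) Prod.fst_surjective
  have : Fintype β := Fintype.ofFinite β
  let ρ : (β × Bool → F2) → Equiv.Perm (X × X) := fun u =>
    pairPerm ((blockShift (toK u)).viaEmbedding e)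
  obtain ⟨C', ⟨h1⟩, h2, h3, h4, h5⟩ := free (K := 4) ρ (fun u v => hρ_pair e (toK u) (toK v))
    (fun t => blk e t.1 ∪ blk e t.2) (fun t => by
      refine (Finset.card_union_le _ _).trans ?_
      have h1 := card_blk e t.1
      have h2 := card_blk e t.2
      omega) (fun t u hu => by
      obtain ⟨x, y⟩ := t
      change pairPerm _ (x, y) = (x, y)
      rw [pairPerm_apply, shift_fix e x u fun p hp => hu p (Finset.mem_union_left _ hp),
        shift_fix e y u fun p hp => hu p (Finset.mem_union_right _ hp)]) P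
    (fun x u => hP x (toK u)) C hC
  let j : (β → K4) →+ (β × Bool → F2) :=
    { toFun := fun v p => if p.2 then (v p.1).2 else (v p.1).1
      map_zero' := by
        funext p
        obtain ⟨i, b⟩ := p
        cases b <;> rfl
      map_add' := by
        intro u v
        funext p
        obtain ⟨i, b⟩ := p
        cases b <;> rfl }
  refine ⟨C', ⟨h1.comap j⟩, h2, h3, h4, h5.trans ?_⟩
  refine Nat.add_le_add_left (Nat.mul_le_mul_left _ ?_) _
  have h6 : Nat.card (β × K4) ≤ Nat.card X := Nat.card_le_card_of_injective e e.injective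
  have h7 : Nat.card (β × K4) = Nat.card β * 4 := by
    rw [Nat.card_prod]
    congr 1
    change Nat.card (F2 × F2) = 4
    rw [Nat.card_prod, Nat.card_eq_fintype_card, ZMod.card]
  have h8 : Nat.card (β × Bool) = Nat.card β * 2 := by
    rw [Nat.card_prod, Nat.card_eq_fintype_card (α := Bool), Fintype.card_bool]
  have h9 : Nat.card (X × X) + Nat.card (β × Bool) + 1 ≤ (Nat.card X + 1) ^ 2 := by
    rw [Nat.card_prod, h8]
    nlinarith
  calc (Nat.card (X × X) + Nat.card (β × Bool) + 1) ^ 2 ≤ ((Nat.card X + 1) ^ 2) ^ 2 := by gcongr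
    _ = (Nat.card X + 1) ^ 4 := by ring

end blocks

end Pool.Agent.H5Lin
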