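import Pool.Agent.H5Lin.Xor
import Pool.Agent.H5Sym.CircuitDefs

/-!
# Matrix gates over the field with two elements make equivariance free: the circuit
-/

set_option autoImplicit false

namespace Pool.Agent.H5Lin

open Matrix Module Pool.Agent.H5Sym

section code

variable {α : Type} [Fintype α]

/-- a number for every element -/
noncomputable def code (a : α) : ℕ := (Fintype.equivFin α a : ℕ)

theorem code_inj {a b : α} (h : code a = code b) : a = b :=
  (Fintype.equivFin α).injective (Fin.ext h)

end code

section defs

variable {ι T : Type}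

/-- the restrictions of the vectors to the support of an input -/
abbrev Sp (S : T → Finset ι) (t : T) : Type := {i // i ∈ S t} → F2

/-- restriction -/
def res (S : T → Finset ι) (t : T) (u : ι → F2) : Sp S t := fun i => u i.1

open Classical in
/-- extension by zero -/
noncomputable def lft (S : T → Finset ι) (t : T) (a : Sp S t) : ι → F2 :=
  fun i => if h : i ∈ S t then a ⟨i, h⟩ else 0

theorem res_add (S : T → Finset ι) (t : T) (u v : ι → F2) : res S t (u + v) = res S t u + res S t v :=
  rfl

theorem res_lft (S : T → Finset ι) (t : T) (a : Sp S t) : res S t (lft S t a) = a := by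
  funext i
  exact dif_pos i.2

/-- candidates for the pattern at an input -/
abbrev Cand (S : T → Finset ι) : Type := (t : T) × (Sp S t → Bool)

/-- equations: an input, a pattern, the coefficients, the signs, the right-hand side -/
abbrev Eqn (S : T → Finset ι) : Type :=
  (t : T) × ((Sp S t → Bool) × (Sp S t × (Sp S t × F2)))

/-- the candidate of an equation -/
def Eqn.cand {S : T → Finset ι} (q : Eqn S) : Cand S := ⟨q.1, q.2.1⟩

/-- the gates -/
inductive FGate (S : T → Finset ι) (G : Type) : Type
  | inp (t : T)
  | cst (b : Bool)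
  | pat (k : Cand S) (a : Sp S k.1)
  | ker (k : Cand S) (b : Bool)
  | can (k : Cand S)
  | act (f : Bool) (q : Eqn S)
  | old (g : G)

/-- the names of the rows and columns of a matrix -/
abbrev FIx (S : T → Finset ι) : Type := (ι ⊕ Eqn S) ⊕ ((ι × F2) ⊕ Unit)

/-- the names of all rows -/
abbrev FRow (S : T → Finset ι) : Type := (Cand S × Bool) × FIx S

/-- the literal `c` occurs in the equation `q` -/
def Occ {S : T → Finset ι} (q : Eqn S) (c : ι × F2) : Prop :=
  ∃ h : c.1 ∈ S q.1, q.2.2.1 ⟨c.1, h⟩ = 1 ∧ q.2.2.2.1 ⟨c.1, h⟩ = c.2

/-- the scalar product -/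
def dt {S : T → Finset ι} {t : T} (h w : Sp S t) : F2 := ∑ i, h i * w i

variable (S : T → Finset ι) (num : T → ℕ) (G : Type)

open Classical in
/-- the gate that tells whether the equation `q` is used for the candidate `k` -/
noncomputable def gq (k : Cand S) (q : Eqn S) : FGate S G :=
  if num q.1 < num k.1 then .act true q else if q.cand = k then .act false q else .cst false

open Classical in
/-- the entries of the matrices -/
noncomputable def entF (k : Cand S) (b : Bool) : FIx S → FIx S → FGate S G
  | Sum.inl (Sum.inl i), Sum.inr (Sum.inl c) => .cst (decide (i = c.1))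
  | Sum.inl (Sum.inl _), Sum.inr (Sum.inr _) => .cst b
  | Sum.inl (Sum.inr q), Sum.inr (Sum.inl c) => if Occ q c then gq S num G k q else .cst false
  | Sum.inl (Sum.inr q), Sum.inr (Sum.inr _) =>
      if b = true ∧ q.2.2.2.2 = 1 then gq S num G k q else .cst false
  | _, _ => .cst false

variable {S}

/-- the test for the candidate `B` -/
def Tst {t : T} [Fintype ((Sp S t → Bool) × Bool)] (M : Multiset (ℕ × ℕ)) (B : Sp S t → Bool) : Prop :=
  ∃ p q, (code (B, false), p) ∈ M ∧ (code (B, true), q) ∈ M ∧ p < 2 * q

variable (S) in
/-- the levels -/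
def levF {C : Circuit.{0, 0, 0} T Bool} (m : ℕ) : FGate S C.Gate → ℕ
  | .inp _ => 0
  | .cst _ => 0
  | .pat _ _ => 1
  | .act false _ => 2
  | .ker k _ => 3 * num k.1 + 3
  | .can k => 3 * num k.1 + 4
  | .act true q => 3 * num q.1 + 5
  | .old g => 3 * m + 3 + C.level g

end defs

section circuit

variable {ι T : Type} [Fintype ι] [Fintype T] [DecidableEq ι] (S : T → Finset ι)

noncomputable instance (t : T) : Fintype (Sp S t → Bool) := Fintype.ofFinite _

noncomputable instance (t : T) : Fintype ((Sp S t → Bool) × Bool) := Fintype.ofFinite _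

variable (ρ : (ι → F2) → Equiv.Perm T) (num : T → ℕ) (C : Circuit.{0, 0, 0} T Bool)

open Classical in
/-- the function of a gate that is not a matrix gate -/
noncomputable def opF : FGate S C.Gate → Multiset (ℕ × ℕ) → ℕ
  | .inp _, _ => 0
  | .cst b, _ => if b then 1 else 0
  | .pat k _, M => if ∀ b, k.2 b = true ↔ (code b, 1) ∈ M then 1 else 0
  | .ker _ _, _ => 0
  | .can k, M => if ∃ h : ∃ B, Tst (t := k.1) M B, k.2 = Classical.choose h then 1 else 0
  | .act f q, M => if (f = true → (0, 1) ∈ M) ∧ ∀ w, (code w + 1, 1) ∈ M → dt q.2.2.1 w = q.2.2.2.2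
      then 1 else 0
  | .old g, M => match C.input g with
    | some t => if ∃ B : Sp S t → Bool, B 0 = true ∧ (code B, 1) ∈ M then 1 else 0
    | none => if C.op g (M.map fun e => (e.1, decide (e.2 = 1))) = true then 1 else 0

/-- the wires -/
noncomputable def wirF : FGate S C.Gate → Multiset (ℕ × FGate S C.Gate)
  | .inp _ => 0
  | .cst _ => 0
  | .pat k a => Finset.univ.val.map fun b : Sp S k.1 => (code b, .inp (ρ (lft S k.1 (a + b)) k.1))
  | .ker _ _ => 0
  | .can k => Finset.univ.val.map fun p : (Sp S k.1 → Bool) × Bool => (code p, .ker ⟨k.1, p.1⟩ p.2)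
  | .act f q => (if f then {(0, .can q.cand)} else 0) +
      Finset.univ.val.map fun w : Sp S q.1 => (code w + 1, .pat q.cand (q.2.2.2.1 + w))
  | .old g => match C.input g with
    | some t => Finset.univ.val.map fun B : Sp S t → Bool => (code B, .can ⟨t, B⟩)
    | none => (C.wires g).map fun e => (e.1, .old e.2)

theorem lev_gq (m : ℕ) (k : Cand S) (q : Eqn S) :
    levF S num (C := C) m (gq S num C.Gate k q) < 3 * num k.1 + 3 := by
  rw [gq]
  split_ifs with h1 h2
  · change 3 * num q.1 + 5 < _
    omega
  · change 2 < _
    omega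
  · change 0 < _
    omega

theorem lev_ent (m : ℕ) (k : Cand S) (b : Bool) (i j : FIx S) :
    levF S num (C := C) m (entF S num C.Gate k b i j) < 3 * num k.1 + 3 := by
  have h0 : ∀ b : Bool, levF S num (C := C) m (.cst b) < 3 * num k.1 + 3 := fun b => by
    change 0 < _
    omega
  rcases i with (i | q) | (c | c) <;> rcases j with (i' | q') | (c' | c') <;> simp only [entF]
  all_goals try exact h0 _
  all_goals split_ifs
  all_goals first | exact h0 _ | exact lev_gq S num C m k _

/-- the circuit -/
noncomputable def fcirc (m : ℕ) (hm : ∀ t, num t < m) : LCircuit.{0, 0} T ℕ where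
  Gate := FGate S C.Gate
  Row := FRow S
  finite := inferInstance
  owner r := .ker r.1.1 r.1.2
  label g := match g with
    | .inp t => .input t
    | .ker _ _ => .mat kerFun
    | g => .sym (opF S C g)
  wires := wirF S ρ C
  entry r c := entF S num C.Gate r.1.1 r.1.2 r.2 c.2
  level := levF S num m
  level_wires := by
    rintro (t | b | ⟨k, a⟩ | ⟨k, b⟩ | k | ⟨f, q⟩ | g) e he
    · simp [wirF] at he
    · simp [wirF] at he
    · simp only [wirF, Multiset.mem_map] at he
      obtain ⟨b, -, rfl⟩ := he
      exact Nat.zero_lt_one
    · simp [wirF] at he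
    · simp only [wirF, Multiset.mem_map] at he
      obtain ⟨p, -, rfl⟩ := he
      exact Nat.lt_succ_self _
    · simp only [wirF, Multiset.mem_add, Multiset.mem_map] at he
      rcases he with he | ⟨w, -, rfl⟩
      · cases f
        · simp at he
        · simp only [if_true, Multiset.mem_singleton] at he
          rw [he]
          exact Nat.lt_succ_self _
      · cases f
        · exact Nat.one_lt_two
        · change 1 < 3 * num q.1 + 5
          omega
    · simp only [wirF] at he
      cases hg : C.input g with
      | none =>
        rw [hg] at he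
        obtain ⟨e', he', rfl⟩ := Multiset.mem_map.1 he
        have := C.level_lt g e' he'
        change 3 * m + 3 + C.level e'.2 < 3 * m + 3 + C.level g
        omega
      | some t =>
        rw [hg] at he
        obtain ⟨B, -, rfl⟩ := Multiset.mem_map.1 he
        change 3 * num t + 4 < 3 * m + 3 + C.level g
        have := hm t
        omega
  level_entry r c _ := lev_ent S num C m r.1.1 r.1.2 r.2 c.2
  out := .old C.out

end circuit

end Pool.Agent.H5Lin
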