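import Pool.Agent.H5Lin.FreeAct

/-!
# Matrix gates over the field with two elements make equivariance free: the values
-/

set_option autoImplicit false

namespace Pool.Agent.H5Lin

open Matrix Module Pool.Agent.H5Sym

section kernel

variable {Rw Cl : Type} [Fintype Rw] [Fintype Cl] (N : Rw → Cl → F2) (c : Rw → F2)
  (M : Matrix (Rw ⊕ (Cl ⊕ Unit)) (Rw ⊕ (Cl ⊕ Unit)) F2)

theorem ker_iff' (h1 : ∀ r j, M (Sum.inl r) (Sum.inr (Sum.inl j)) = N r j)
    (h2 : ∀ r, M (Sum.inl r) (Sum.inr (Sum.inr ())) = c r)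
    (h3 : ∀ r r', M (Sum.inl r) (Sum.inl r') = 0) (h4 : ∀ r j, M (Sum.inr r) j = 0)
    (y : Rw ⊕ (Cl ⊕ Unit) → F2) :
    M *ᵥ y = 0 ↔ ∀ r, ∑ j, N r j * y (Sum.inr (Sum.inl j)) = c r * y (Sum.inr (Sum.inr ())) := by
  have h5 : ∀ a b : F2, a + b = 0 ↔ a = b := by decide
  have h6 : ∀ r, (M *ᵥ y) (Sum.inl r) = ∑ j, N r j * y (Sum.inr (Sum.inl j)) +
      c r * y (Sum.inr (Sum.inr ())) := by
    intro r
    rw [mulVec, dotProduct, Fintype.sum_sum_type, Fintype.sum_sum_type]
    simp only [h1, h2, h3, zero_mul, Finset.sum_const_zero, zero_add, Fintype.sum_unique,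
      show (default : Unit) = () from rfl]
  constructor
  · intro h r
    have h7 := congrFun h (Sum.inl r)
    rw [h6] at h7
    exact (h5 _ _).1 h7
  · intro h
    funext i
    rcases i with r | r
    · rw [h6]
      exact (h5 _ _).2 (h r)
    · rw [mulVec, dotProduct]
      exact Finset.sum_eq_zero fun j _ => by rw [h4, zero_mul]

theorem ker_count (h1 : ∀ r j, M (Sum.inl r) (Sum.inr (Sum.inl j)) = N r j)
    (h2 : ∀ r, M (Sum.inl r) (Sum.inr (Sum.inr ())) = c r)
    (h3 : ∀ r r', M (Sum.inl r) (Sum.inl r') = 0) (h4 : ∀ r j, M (Sum.inr r) j = 0) :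
    Nat.card {y : Rw ⊕ (Cl ⊕ Unit) → F2 // M *ᵥ y = 0} = 2 ^ Nat.card Rw *
      (Nat.card {z : Cl → F2 // ∀ r, ∑ j, N r j * z j = 0} +
        Nat.card {z : Cl → F2 // ∀ r, ∑ j, N r j * z j = c r}) := by
  have e1 : {y : Rw ⊕ (Cl ⊕ Unit) → F2 // M *ᵥ y = 0} ≃ (Rw → F2) ×
      {p : F2 × (Cl → F2) // ∀ r, ∑ j, N r j * p.2 j = c r * p.1} :=
    { toFun := fun y => (fun r => y.1 (Sum.inl r),
        ⟨(y.1 (Sum.inr (Sum.inr ())), fun c => y.1 (Sum.inr (Sum.inl c))),
          (ker_iff' N c M h1 h2 h3 h4 y.1).1 y.2⟩)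
      invFun := fun p => ⟨fun i => match i with
        | Sum.inl r => p.1 r
        | Sum.inr (Sum.inl c) => p.2.1.2 c
        | Sum.inr (Sum.inr _) => p.2.1.1, (ker_iff' N c M h1 h2 h3 h4 _).2 p.2.2⟩
      left_inv := by
        rintro ⟨y, hy⟩
        refine Subtype.ext (funext ?_)
        rintro (r | c | c) <;> rfl
      right_inv := by
        rintro ⟨y, ⟨⟨a, z⟩, h⟩⟩
        rfl }
  rw [Nat.card_congr e1, Nat.card_prod, Nat.card_fun]
  rw [show Nat.card F2 = 2 by rw [Nat.card_eq_fintype_card, ZMod.card]]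
  congr 1
  rw [Nat.card_congr (Equiv.subtypeProdEquivSigmaSubtype
    fun (a : F2) (z : Cl → F2) => ∀ r, ∑ j, N r j * z j = c r * a), Nat.card_sigma]
  rw [show (∑ a : F2, Nat.card {z : Cl → F2 // ∀ r, ∑ j, N r j * z j = c r * a}) =
    Nat.card {z : Cl → F2 // ∀ r, ∑ j, N r j * z j = c r * 0} +
    Nat.card {z : Cl → F2 // ∀ r, ∑ j, N r j * z j = c r * 1} from Fin.sum_univ_two _]
  simp only [mul_zero, mul_one]

end kernel

variable {ι T : Type} [Fintype ι] [Fintype T] [DecidableEq ι] (S : T → Finset ι)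
  (ρ : (ι → F2) → Equiv.Perm T) (num : T → ℕ) (C : Circuit.{0, 0, 0} T Bool)
  (m : ℕ) (hm : ∀ t, num t < m) (x : T → Bool)

/-- the value of a gate -/
noncomputable def ev (g : FGate S C.Gate) : ℕ :=
  (fcirc S ρ num C m hm).eval (fun t => if x t then 1 else 0) g

/-- the solutions for a candidate -/
def Sol (k : Cand S) : Set (Sp S k.1) := {a | ∀ b, x (ρ (lft S k.1 (a + b)) k.1) = k.2 b}

theorem ev_inp (t : T) : ev S ρ num C m hm x (.inp t) = if x t then 1 else 0 :=
  LCircuit.eval_input (C := fcirc S ρ num C m hm) (t := t) rfl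

theorem ev_cst (b : Bool) : ev S ρ num C m hm x (.cst b) = if b then 1 else 0 :=
  LCircuit.eval_sym (C := fcirc S ρ num C m hm) (f := opF S C (.cst b)) rfl

open Classical in
theorem ev_pat (k : Cand S) (a : Sp S k.1) :
    ev S ρ num C m hm x (.pat k a) = if a ∈ Sol S ρ x k then 1 else 0 := by
  refine (LCircuit.eval_sym (C := fcirc S ρ num C m hm) (f := opF S C (.pat k a)) rfl).trans ?_
  change (if ∀ b, k.2 b = true ↔ (code b, 1) ∈ Multiset.map (fun e => (e.1, _))
    (Finset.univ.val.map fun b : Sp S k.1 =>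
      (code b, (FGate.inp (ρ (lft S k.1 (a + b)) k.1) : FGate S C.Gate))) then 1 else 0) = _
  refine if_congr (forall_congr' fun b => ?_) rfl rfl
  rw [Multiset.map_map, Multiset.mem_map]
  have key : (∃ a_1 ∈ Finset.univ.val, ((fun e : ℕ × FGate S C.Gate =>
      (e.1, (fcirc S ρ num C m hm).eval (fun t => if x t then 1 else 0) e.2)) ∘
      fun b : Sp S k.1 => (code b, (FGate.inp (ρ (lft S k.1 (a + b)) k.1)))) a_1 = (code b, 1)) ↔
        x (ρ (lft S k.1 (a + b)) k.1) = true := by
    constructor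
    · rintro ⟨b', -, h⟩
      have h1 := code_inj (congrArg Prod.fst h)
      subst h1
      have h2 := congrArg Prod.snd h
      change ev S ρ num C m hm x (.inp _) = 1 at h2
      rw [ev_inp] at h2
      by_contra hx
      rw [if_neg hx] at h2
      exact zero_ne_one h2
    · intro h
      refine ⟨b, Finset.mem_univ _, Prod.ext rfl ?_⟩
      change ev S ρ num C m hm x (.inp _) = 1
      rw [ev_inp, if_pos h]
  rw [key]
  exact ⟨fun h => Bool.eq_iff_iff.2 h.symm, fun h => (Bool.eq_iff_iff.1 h).symm⟩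

theorem pat_one (k : Cand S) (a : Sp S k.1) :
    ev S ρ num C m hm x (.pat k a) = 1 ↔ a ∈ Sol S ρ x k := by
  classical
  rw [ev_pat]
  split_ifs with h
  · exact ⟨fun _ => h, fun _ => rfl⟩
  · exact ⟨fun h' => absurd h' (by norm_num), fun h' => absurd h' h⟩

/-- the equation is valid -/
def Vld (q : Eqn S) : Prop := ∀ w, q.2.2.2.1 + w ∈ Sol S ρ x q.cand → dt q.2.2.1 w = q.2.2.2.2

theorem mem_act (f : Bool) (q : Eqn S) (w : Sp S q.1) :
    (code w + 1, 1) ∈ (wirF S ρ C (.act f q)).map (fun e => (e.1, ev S ρ num C m hm x e.2)) ↔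
      q.2.2.2.1 + w ∈ Sol S ρ x q.cand := by
  classical
  rw [Multiset.mem_map]
  constructor
  · rintro ⟨e, he, h⟩
    simp only [wirF, Multiset.mem_add, Multiset.mem_map] at he
    rcases he with he | ⟨w', -, rfl⟩
    · exfalso
      cases f
      · simp at he
      · simp only [if_true, Multiset.mem_singleton] at he
        rw [he] at h
        have h1 := congrArg Prod.fst h
        exact (Nat.succ_ne_zero _ h1.symm)
    · have h1 : code w' + 1 = code w + 1 := congrArg Prod.fst h
      have h2 : w' = w := code_inj (by omega)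
      subst h2
      exact (pat_one S ρ num C m hm x q.cand _).1 (congrArg Prod.snd h)
  · intro h
    refine ⟨(code w + 1, .pat q.cand (q.2.2.2.1 + w)), ?_, Prod.ext rfl ?_⟩
    · simp only [wirF, Multiset.mem_add, Multiset.mem_map]
      exact Or.inr ⟨w, Finset.mem_univ _, rfl⟩
    · exact (pat_one S ρ num C m hm x q.cand _).2 h

theorem mem_act0 (q : Eqn S) :
    (0, 1) ∈ (wirF S ρ C (.act true q)).map (fun e => (e.1, ev S ρ num C m hm x e.2)) ↔
      ev S ρ num C m hm x (.can q.cand) = 1 := by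
  rw [Multiset.mem_map]
  constructor
  · rintro ⟨e, he, h⟩
    simp only [wirF, Multiset.mem_add, Multiset.mem_map, if_true, Multiset.mem_singleton] at he
    rcases he with he | ⟨w', -, rfl⟩
    · rw [he] at h
      exact congrArg Prod.snd h
    · have h1 : code w' + 1 = 0 := congrArg Prod.fst h
      omega
  · intro h
    refine ⟨(0, .can q.cand), ?_, Prod.ext rfl h⟩
    simp only [wirF, Multiset.mem_add, if_true, Multiset.mem_singleton]
    exact Or.inl trivial

open Classical in
theorem ev_act (f : Bool) (q : Eqn S) : ev S ρ num C m hm x (.act f q) =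
    if (f = true → ev S ρ num C m hm x (.can q.cand) = 1) ∧ Vld S ρ x q then 1 else 0 := by
  refine (LCircuit.eval_sym (C := fcirc S ρ num C m hm) (f := opF S C (.act f q)) rfl).trans ?_
  change (if (f = true → (0, 1) ∈ (wirF S ρ C (.act f q)).map
      (fun e => (e.1, ev S ρ num C m hm x e.2))) ∧ ∀ w, (code w + 1, 1) ∈
        (wirF S ρ C (.act f q)).map (fun e => (e.1, ev S ρ num C m hm x e.2)) →
        dt q.2.2.1 w = q.2.2.2.2 then 1 else 0) = _
  refine if_congr (and_congr ?_ (forall_congr' fun w => ?_)) rfl rfl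
  · cases f
    · exact ⟨fun _ h => by simp at h, fun _ h => by simp at h⟩
    · rw [mem_act0]
  · rw [mem_act]

/-- the matrices -/
noncomputable def Mk (k : Cand S) (b : Bool) : Matrix (FIx S) (FIx S) F2 :=
  fun i j => ((ev S ρ num C m hm x (entF S num C.Gate k b i j) : ℕ) : F2)

theorem ev_ker [DecidableEq (FIx S)] (k : Cand S) (b : Bool) : ev S ρ num C m hm x (.ker k b) =
    Nat.card {y : FIx S → F2 // Mk S ρ num C m hm x k b *ᵥ y = 0} := by
  let e : FIx S ≃ {r : FRow S //
      (fcirc S ρ num C m hm).owner r = (FGate.ker k b : FGate S C.Gate)} :=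
    { toFun := fun i => ⟨((k, b), i), rfl⟩
      invFun := fun r => r.1.2
      left_inv := fun i => rfl
      right_inv := by
        rintro ⟨⟨⟨k', b'⟩, i⟩, h⟩
        have h' : (FGate.ker k' b' : FGate S C.Gate) = FGate.ker k b := h
        injection h' with h1 h2
        subst h1 h2
        rfl }
  rw [ev, LCircuit.eval_mat (C := fcirc S ρ num C m hm) (F := kerFun) rfl, ← kerFun_app]
  rw [← kerFun.app_reindex e]
  congr 1
  funext r c
  obtain ⟨i, rfl⟩ := e.surjective r
  obtain ⟨j, rfl⟩ := e.surjective c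
  rw [submatrix_apply, Equiv.symm_apply_apply, Equiv.symm_apply_apply]
  rfl

end Pool.Agent.H5Lin
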