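import Pool.Agent.H5Lin.Xor
import Pool.Agent.H5Sym.CircuitDefs

/-!
# Matrix gates over the field with two elements: definitions for the statement
-/

set_option autoImplicit false

namespace Pool.Agent.H5Lin

open Pool.Agent.H5Sym

/-- the function of a Boolean gate, with the numbers `0` and `1` for `false` and `true` -/
def bitOp (op : Multiset (ℕ × Bool) → Bool) (M : Multiset (ℕ × ℕ)) : ℕ :=
  if op (M.map fun e => (e.1, decide (e.2 = 1))) = true then 1 else 0

/-- Every gate of `C'` is an input, or a matrix gate that computes the size of the kernel of a matrix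
over the field with two elements, or a symmetric gate with at most `c` wires, or a symmetric gate
which computes the same function as a gate of the Boolean circuit `C`. -/
def KernelExtension {T : Type} (C : Circuit.{0, 0, 0} T Bool) (C' : LCircuit.{0, 0} T ℕ) (c : ℕ) :
    Prop :=
  ∀ g, (∃ t, C'.label g = .input t) ∨ C'.label g = .mat kerFun ∨
    ∃ f, C'.label g = .sym f ∧ ((C'.wires g).card ≤ c ∨ ∃ h, f = bitOp (C.op h))

/-- a constant -/
def freeC (K : ℕ) : ℕ :=
  3 + 14 * (2 ^ 2 ^ K * (2 ^ K * (2 ^ K * 2))) + 2 * (2 ^ 2 ^ K * (2 ^ K * (2 ^ K * 2))) ^ 2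

end Pool.Agent.H5Lin
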