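import Pool.Agent.H5Lin.Free
import Pool.Agent.H5Lin.FreeStm

/-!
# Matrix gates over the field with two elements make equivariance free
-/

set_option autoImplicit false

namespace Pool.Agent.H5Lin

open Matrix Module Pool.Agent.H5Sym Pool.Agent.H5Dich

section card

variable {ι T : Type} [Fintype ι] [Fintype T] [DecidableEq ι] (S : T → Finset ι)

/-- the gates as a sum type -/
def fgateEquiv (G : Type) : FGate S G ≃
    (T ⊕ Bool) ⊕ (((k : Cand S) × Sp S k.1) ⊕ (Cand S × Bool)) ⊕ (Cand S ⊕ (Bool × Eqn S)) ⊕ G where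
  toFun g := match g with
    | .inp t => Sum.inl (Sum.inl t)
    | .cst b => Sum.inl (Sum.inr b)
    | .pat k a => Sum.inr (Sum.inl (Sum.inl ⟨k, a⟩))
    | .ker k b => Sum.inr (Sum.inl (Sum.inr (k, b)))
    | .can k => Sum.inr (Sum.inr (Sum.inl (Sum.inl k)))
    | .act f q => Sum.inr (Sum.inr (Sum.inl (Sum.inr (f, q))))
    | .old g => Sum.inr (Sum.inr (Sum.inr g))
  invFun s := match s with
    | Sum.inl (Sum.inl t) => .inp t
    | Sum.inl (Sum.inr b) => .cst b
    | Sum.inr (Sum.inl (Sum.inl p)) => .pat p.1 p.2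
    | Sum.inr (Sum.inl (Sum.inr p)) => .ker p.1 p.2
    | Sum.inr (Sum.inr (Sum.inl (Sum.inl k))) => .can k
    | Sum.inr (Sum.inr (Sum.inl (Sum.inr p))) => .act p.1 p.2
    | Sum.inr (Sum.inr (Sum.inr g)) => .old g
  left_inv g := by rcases g with t | b | ⟨k, a⟩ | ⟨k, b⟩ | k | ⟨f, q⟩ | g <;> rfl
  right_inv s := by
    rcases s with (t | b) | (⟨k, a⟩ | ⟨k, b⟩) | (k | ⟨f, q⟩) | g <;> rfl

theorem card_Sp {K : ℕ} {t : T} (hK : (S t).card ≤ K) : Nat.card (Sp S t) ≤ 2 ^ K := by
  rw [Nat.card_fun, Nat.card_eq_fintype_card (α := F2), ZMod.card, Nat.card_eq_fintype_card,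
    Fintype.card_coe]
  exact Nat.pow_le_pow_right (by norm_num) hK

theorem card_SpB {K : ℕ} {t : T} (hK : (S t).card ≤ K) : Nat.card (Sp S t → Bool) ≤ 2 ^ 2 ^ K := by
  rw [Nat.card_fun, Nat.card_eq_fintype_card (α := Bool), Fintype.card_bool]
  exact Nat.pow_le_pow_right (by norm_num) (card_Sp S hK)

theorem card_sig {Y : T → Type} [∀ t, Finite (Y t)] {w : ℕ} (h : ∀ t, Nat.card (Y t) ≤ w) :
    Nat.card ((t : T) × Y t) ≤ Nat.card T * w := by
  rw [Nat.card_sigma, Nat.card_eq_fintype_card (α := T), ← Finset.card_univ, ← smul_eq_mul]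
  exact Finset.sum_le_card_nsmul _ _ _ fun t _ => h t

/-- a constant -/
def wK (K : ℕ) : ℕ := 2 ^ 2 ^ K * (2 ^ K * (2 ^ K * 2))

theorem card_cand {K : ℕ} (hK : ∀ t, (S t).card ≤ K) : Nat.card (Cand S) ≤ Nat.card T * wK K := by
  refine card_sig fun t => (card_SpB S (hK t)).trans ?_
  exact Nat.le_mul_of_pos_right _ (by positivity)

theorem card_pat {K : ℕ} (hK : ∀ t, (S t).card ≤ K) :
    Nat.card ((k : Cand S) × Sp S k.1) ≤ Nat.card T * wK K := by
  rw [Nat.card_congr (Equiv.sigmaAssoc fun (t : T) (_ : Sp S t → Bool) => Sp S t)]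
  refine card_sig fun t => ?_
  rw [Nat.card_sigma, Finset.sum_const, Finset.card_univ, smul_eq_mul, ← Nat.card_eq_fintype_card]
  refine Nat.mul_le_mul (card_SpB S (hK t)) ((card_Sp S (hK t)).trans ?_)
  exact Nat.le_mul_of_pos_right _ (by positivity)

theorem card_eqn {K : ℕ} (hK : ∀ t, (S t).card ≤ K) : Nat.card (Eqn S) ≤ Nat.card T * wK K := by
  refine card_sig fun t => ?_
  rw [Nat.card_prod, Nat.card_prod, Nat.card_prod, Nat.card_eq_fintype_card (α := F2), ZMod.card]
  have h1 := card_Sp S (hK t)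
  exact Nat.mul_le_mul (card_SpB S (hK t)) (Nat.mul_le_mul h1 (Nat.mul_le_mul h1 le_rfl))

theorem card_fgate {K : ℕ} (hK : ∀ t, (S t).card ≤ K) (G : Type) [Finite G] :
    Nat.card (FGate S G) + Nat.card (FRow S) ≤
      Nat.card G + freeC K * (Nat.card T + Nat.card ι + 1) ^ 2 := by
  have h1 := card_cand S hK
  have h2 := card_pat S hK
  have h3 := card_eqn S hK
  rw [Nat.card_congr (fgateEquiv S G)]
  simp only [Nat.card_sum, Nat.card_prod, Nat.card_eq_fintype_card (α := Bool), Fintype.card_bool,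
    Nat.card_eq_fintype_card (α := F2), ZMod.card, Nat.card_eq_fintype_card (α := Unit),
    Fintype.card_unit]
  have hW : freeC K = 3 + 14 * wK K + 2 * wK K ^ 2 := rfl
  rw [hW]
  generalize wK K = W at *
  generalize Nat.card T = t at *
  generalize Nat.card ι = n at *
  generalize Nat.card (Cand S) = a at *
  generalize Nat.card ((k : Cand S) × Sp S k.1) = b at *
  generalize Nat.card (Eqn S) = d at *
  generalize Nat.card G = g at *
  have e1 : t + 2 + (b + a * 2) + (a + 2 * d) ≤ t + 2 + 6 * (t * W) := by omega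
  have e2 : a * 2 * (n + d + (n * 2 + 1)) ≤ t * W * 2 * (n + t * W + (n * 2 + 1)) := by
    gcongr
  have e3 : t + 2 + 6 * (t * W) + t * W * 2 * (n + t * W + (n * 2 + 1)) ≤
      (3 + 14 * W + 2 * W ^ 2) * (t + n + 1) ^ 2 := by
    have h5 : (3 + 14 * W + 2 * W ^ 2) * (t + n + 1) ^ 2 =
        (t + 2 + 6 * (t * W) + t * W * 2 * (n + t * W + (n * 2 + 1))) +
        (1 + 5 * t + 6 * n + 3 * (t * t) + 6 * (t * n) + 3 * (n * n) + 14 * W * (t * t) +
          14 * W * (n * n) + 22 * W * (t * n) + 20 * W * t + 28 * W * n + 14 * W +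
          2 * W ^ 2 * (n * n) + 4 * W ^ 2 * (t * n) + 4 * W ^ 2 * t + 4 * W ^ 2 * n + 2 * W ^ 2) := by
      ring
    rw [h5]
    exact Nat.le_add_right _ _
  calc _ = g + ((t + 2 + (b + a * 2) + (a + 2 * d)) + a * 2 * (n + d + (n * 2 + 1))) := by ring
    _ ≤ g + ((t + 2 + 6 * (t * W)) + t * W * 2 * (n + t * W + (n * 2 + 1))) := by gcongr
    _ ≤ _ := by gcongr

end card

/-- **Equivariance is free** with matrix gates over the field with two elements. -/
theorem free {K : ℕ} {ι T : Type} [Finite ι] [Finite T] (ρ : (ι → F2) → Equiv.Perm T)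
    (hρ : ∀ u v, ρ (u + v) = ρ u * ρ v) (S : T → Finset ι) (hK : ∀ t, (S t).card ≤ K)
    (hS : ∀ t u, (∀ i ∈ S t, u i = 0) → ρ u t = t) (P : (T → Bool) → Prop)
    (hP : ∀ x u, P (x ∘ ρ u) ↔ P x) (C : Circuit.{0, 0, 0} T Bool) [Finite C.Gate]
    (hC : ∀ x, C.eval x C.out = true ↔ P x) :
    ∃ C' : LCircuit.{0, 0} T ℕ, Nonempty (C'.Action ρ) ∧ Finite C'.Gate ∧
      KernelExtension C C' (freeC K) ∧
      (∀ x : T → Bool, C'.eval ((fun b : Bool => if b then 1 else 0) ∘ x) C'.out = 1 ↔ P x) ∧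
      C'.size ≤ Nat.card C.Gate + freeC K * (Nat.card T + Nat.card ι + 1) ^ 2 := by
  classical
  have : Fintype ι := Fintype.ofFinite ι
  have : Fintype T := Fintype.ofFinite T
  let num : T → ℕ := fun t => (Finite.equivFin T t : ℕ)
  have hm : ∀ t, num t < Nat.card T := fun t => (Finite.equivFin T t).2
  have hinj : Function.Injective num := fun t t' h => (Finite.equivFin T).injective (Fin.ext h)
  refine ⟨fcirc S ρ num C (Nat.card T) hm, ⟨fact S ρ num C (Nat.card T) hm hρ hS⟩,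
    Finite.of_equiv _ (fgateEquiv S C.Gate).symm, ?_, fun x => ?_, card_fgate S hK C.Gate⟩
  · have hc1 : 2 ^ 2 ^ K * 2 ≤ freeC K := by
      have h1 : 1 ≤ 2 ^ K := Nat.one_le_two_pow
      have h2 : 2 ^ 2 ^ K * 2 ≤ 2 ^ 2 ^ K * (2 ^ K * (2 ^ K * 2)) := by
        refine Nat.mul_le_mul_left _ ?_
        calc 2 = 1 * (1 * 2) := by norm_num
          _ ≤ 2 ^ K * (2 ^ K * 2) := by gcongr
      unfold freeC
      generalize 2 ^ 2 ^ K * (2 ^ K * (2 ^ K * 2)) = W at h2 ⊢
      omega
    have hc2 : ∀ t, Fintype.card (Sp S t → Bool) ≤ 2 ^ 2 ^ K := by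
      intro t
      rw [← Nat.card_eq_fintype_card]
      exact card_SpB S (hK t)
    have hc3 : ∀ t, Fintype.card (Sp S t) + 1 ≤ 2 ^ 2 ^ K := by
      intro t
      rw [← Nat.card_eq_fintype_card]
      exact (Nat.succ_le_succ (card_Sp S (hK t))).trans (Nat.lt_two_pow_self)
    have hval : ∀ {α β : Type} [Fintype α] (f : α → β),
        ((Finset.univ : Finset α).val.map f).card = Fintype.card α := fun f => by
      rw [Multiset.card_map]
      rfl
    rintro (t | b | ⟨k, a⟩ | ⟨k, b⟩ | k | ⟨f, q⟩ | g)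
    · exact Or.inl ⟨t, rfl⟩
    · refine Or.inr (Or.inr ⟨_, rfl, Or.inl ?_⟩)
      exact Nat.zero_le _
    · refine Or.inr (Or.inr ⟨_, rfl, Or.inl ?_⟩)
      refine le_trans (le_of_eq (hval _)) ?_
      have := hc3 k.1
      omega
    · exact Or.inr (Or.inl rfl)
    · refine Or.inr (Or.inr ⟨_, rfl, Or.inl ?_⟩)
      refine le_trans (le_of_eq (hval _)) ?_
      rw [← Nat.card_eq_fintype_card, Nat.card_prod, Nat.card_eq_fintype_card (α := Bool),
        Fintype.card_bool]
      exact (Nat.mul_le_mul_right _ (card_SpB S (hK k.1))).trans hc1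
    · refine Or.inr (Or.inr ⟨_, rfl, Or.inl ?_⟩)
      change Multiset.card ((if f then {(0, FGate.can q.cand)} else 0) + Multiset.map _ _) ≤ _
      have h1 := hc3 q.1
      have h2 : Multiset.card (if f = true then {(0, (FGate.can q.cand : FGate S C.Gate))} else 0) ≤
          1 := by
        split_ifs
        · exact le_of_eq (Multiset.card_singleton _)
        · exact Nat.zero_le _
      refine le_trans (le_of_eq (Multiset.card_add _ _)) ?_
      refine le_trans (Nat.add_le_add h2 (le_of_eq (hval _))) ?_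
      omega
    · refine Or.inr (Or.inr ⟨_, rfl, ?_⟩)
      obtain hi | ⟨t, hi⟩ : C.input g = none ∨ ∃ t, C.input g = some t := by
        cases h : C.input g with
        | none => exact Or.inl rfl
        | some t => exact Or.inr ⟨t, rfl⟩
      · refine Or.inr ⟨g, funext fun M => ?_⟩
        rw [opF_none S C hi]
        rfl
      · refine Or.inl ?_
        change Multiset.card (wirF S ρ C (.old g)) ≤ _
        rw [wirF_some S ρ C hi, hval]
        have := hc2 t
        omega
  · obtain ⟨v, hv⟩ := ev_old S ρ num C (Nat.card T) hm x hinj hρ hS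
    have h1 : (fcirc S ρ num C (Nat.card T) hm).eval ((fun b : Bool => if b then 1 else 0) ∘ x)
      (fcirc S ρ num C (Nat.card T) hm).out = if C.eval (x ∘ ρ v) C.out then 1 else 0 := hv C.out
    rw [h1, ← hP x v, ← hC]
    split_ifs with h
    · exact ⟨fun _ => h, fun _ => rfl⟩
    · exact ⟨fun h' => absurd h' (by norm_num), fun h' => absurd h' h⟩

end Pool.Agent.H5Lin
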