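import Pool.Agent.H5Lin.FreeEval
import Pool.Agent.H5Dich.Criterion

/-!
# Matrix gates over the field with two elements make equivariance free: the tests
-/

set_option autoImplicit false

namespace Pool.Agent.H5Lin

open Matrix Module Pool.Agent.H5Sym Pool.Agent.H5Dich

variable {ι T : Type} [Fintype ι] [Fintype T] [DecidableEq ι] (S : T → Finset ι)
  (ρ : (ι → F2) → Equiv.Perm T) (num : T → ℕ) (C : Circuit.{0, 0, 0} T Bool)
  (m : ℕ) (hm : ∀ t, num t < m) (x : T → Bool)

/-- the equation is used for the candidate `k` -/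
def Usd (k : Cand S) (q : Eqn S) : Prop :=
  ((num q.1 < num k.1 ∧ ev S ρ num C m hm x (.can q.cand) = 1) ∨
    (¬ num q.1 < num k.1 ∧ q.cand = k)) ∧ Vld S ρ x q

open Classical in
theorem ev_gq (k : Cand S) (q : Eqn S) : ev S ρ num C m hm x (gq S num C.Gate k q) =
    if Usd S ρ num C m hm x k q then 1 else 0 := by
  unfold gq
  by_cases h1 : num q.1 < num k.1
  · rw [if_pos h1, ev_act]
    by_cases hU : Usd S ρ num C m hm x k q
    · rw [if_pos hU, if_pos]
      obtain ⟨h | h, h'⟩ := hU
      · exact ⟨fun _ => h.2, h'⟩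
      · exact absurd h1 h.1
    · rw [if_neg hU, if_neg]
      rintro ⟨h, h'⟩
      exact hU ⟨Or.inl ⟨h1, h rfl⟩, h'⟩
  · rw [if_neg h1]
    by_cases h2 : q.cand = k
    · rw [if_pos h2, ev_act]
      by_cases hU : Usd S ρ num C m hm x k q
      · rw [if_pos hU, if_pos]
        exact ⟨fun h => by simp at h, hU.2⟩
      · rw [if_neg hU, if_neg]
        rintro ⟨h, h'⟩
        exact hU ⟨Or.inr ⟨h1, h2⟩, h'⟩
    · rw [if_neg h2, ev_cst, if_neg (by simp), if_neg]
      rintro ⟨h | h, h'⟩
      · exact h1 h.1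
      · exact h2 h.2

open Classical in
/-- the coefficients -/
noncomputable def Nk (k : Cand S) : ι ⊕ Eqn S → ι × F2 → F2
  | Sum.inl i, c => if i = c.1 then 1 else 0
  | Sum.inr q, c => if Usd S ρ num C m hm x k q then (if Occ q c then 1 else 0) else 0

open Classical in
/-- the right-hand sides -/
noncomputable def ck (k : Cand S) (b : Bool) : ι ⊕ Eqn S → F2
  | Sum.inl _ => if b then 1 else 0
  | Sum.inr q => if b = true ∧ Usd S ρ num C m hm x k q then q.2.2.2.2 else 0

theorem Mk_1 (k : Cand S) (b : Bool) (r : ι ⊕ Eqn S) (c : ι × F2) :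
    Mk S ρ num C m hm x k b (Sum.inl r) (Sum.inr (Sum.inl c)) = Nk S ρ num C m hm x k r c := by
  classical
  rcases r with i | q
  · have h0 : entF S num C.Gate k b (Sum.inl (Sum.inl i)) (Sum.inr (Sum.inl c)) =
      .cst (@decide (i = c.1) (Classical.propDecidable _)) := rfl
    rw [Mk, h0, ev_cst]
    cases hd : @decide (i = c.1) (Classical.propDecidable _)
    · have h1 : Nk S ρ num C m hm x k (Sum.inl i) c = 0 := by
        unfold Nk
        exact if_neg (@of_decide_eq_false _ (Classical.propDecidable _) hd)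
      rw [h1, if_neg (by simp), Nat.cast_zero]
    · have h1 : Nk S ρ num C m hm x k (Sum.inl i) c = 1 := by
        unfold Nk
        exact if_pos (@of_decide_eq_true _ (Classical.propDecidable _) hd)
      rw [h1, if_pos rfl, Nat.cast_one]
  · change ((ev S ρ num C m hm x (if Occ q c then gq S num C.Gate k q else .cst false) : ℕ) : F2) =
      if Usd S ρ num C m hm x k q then (if Occ q c then 1 else 0) else 0
    by_cases h : Occ q c
    · rw [if_pos h, if_pos h, ev_gq]
      split_ifs
      · exact Nat.cast_one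
      · exact Nat.cast_zero
    · rw [if_neg h, if_neg h, ev_cst, if_neg (by simp), Nat.cast_zero, ite_self]

theorem Mk_2 (k : Cand S) (b : Bool) (r : ι ⊕ Eqn S) :
    Mk S ρ num C m hm x k b (Sum.inl r) (Sum.inr (Sum.inr ())) = ck S ρ num C m hm x k b r := by
  classical
  rcases r with i | q
  · change ((ev S ρ num C m hm x (.cst b) : ℕ) : F2) = if b then 1 else 0
    rw [ev_cst]
    split_ifs
    · exact Nat.cast_one
    · exact Nat.cast_zero
  · change ((ev S ρ num C m hm x (if b = true ∧ q.2.2.2.2 = 1 then gq S num C.Gate k q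
      else .cst false) : ℕ) : F2) =
      if b = true ∧ Usd S ρ num C m hm x k q then q.2.2.2.2 else 0
    rcases F2.cases q.2.2.2.2 with h | h
    · rw [h, if_neg (fun h' => zero_ne_one h'.2), ev_cst, if_neg (by simp), Nat.cast_zero, ite_self]
    · rw [h]
      cases b
      · rw [if_neg (fun h' => by simp at h'), if_neg (fun h' => by simp at h'), ev_cst,
          if_neg (by simp), Nat.cast_zero]
      · rw [if_pos ⟨rfl, rfl⟩, ev_gq]
        by_cases hU : Usd S ρ num C m hm x k q
        · rw [if_pos hU, if_pos ⟨rfl, hU⟩, Nat.cast_one]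
        · rw [if_neg hU, if_neg (fun h' => hU h'.2), Nat.cast_zero]

theorem ck_inl (k : Cand S) (i : ι) : ck S ρ num C m hm x k true (Sum.inl i) = 1 := by
  unfold ck
  exact if_pos rfl

theorem Mk_3 (k : Cand S) (b : Bool) (r r' : ι ⊕ Eqn S) :
    Mk S ρ num C m hm x k b (Sum.inl r) (Sum.inl r') = 0 := by
  have h : entF S num C.Gate k b (Sum.inl r) (Sum.inl r') = .cst false := by
    rcases r with i | q <;> rfl
  rw [Mk, h, ev_cst, if_neg (by simp), Nat.cast_zero]

theorem Mk_4 (k : Cand S) (b : Bool) (r : (ι × F2) ⊕ Unit) (j : FIx S) :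
    Mk S ρ num C m hm x k b (Sum.inr r) j = 0 := by
  have h : entF S num C.Gate k b (Sum.inr r) j = .cst false := by
    rcases r with i | q <;> rcases j with (j | j) | (j | j) <;> rfl
  rw [Mk, h, ev_cst, if_neg (by simp), Nat.cast_zero]

theorem test_iff (k : Cand S) : ev S ρ num C m hm x (.ker k false) <
    2 * ev S ρ num C m hm x (.ker k true) ↔ ∃ z : ι × F2 → F2,
      ∀ r, ∑ c, Nk S ρ num C m hm x k r c * z c = ck S ρ num C m hm x k true r := by
  classical
  rw [ev_ker, ev_ker, ker_count (Nk S ρ num C m hm x k) (ck S ρ num C m hm x k false) _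
    (Mk_1 S ρ num C m hm x k false) (Mk_2 S ρ num C m hm x k false) (Mk_3 S ρ num C m hm x k false)
    (Mk_4 S ρ num C m hm x k false), ker_count (Nk S ρ num C m hm x k) (ck S ρ num C m hm x k true) _
    (Mk_1 S ρ num C m hm x k true) (Mk_2 S ρ num C m hm x k true) (Mk_3 S ρ num C m hm x k true)
    (Mk_4 S ρ num C m hm x k true)]
  have h0 : ∀ r, ck S ρ num C m hm x k false r = 0 := by
    rintro (i | q)
    · rfl
    · unfold ck
      exact if_neg fun h => Bool.false_ne_true h.1
  simp only [h0]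
  set Z := Nat.card {z : ι × F2 → F2 // ∀ r, ∑ j, Nk S ρ num C m hm x k r j * z j = 0}
  set Y := Nat.card {z : ι × F2 → F2 // ∀ r, ∑ j, Nk S ρ num C m hm x k r j * z j =
    ck S ρ num C m hm x k true r} with hY
  have hR : 0 < 2 ^ Nat.card (ι ⊕ Eqn S) := by positivity
  constructor
  · intro h
    have h1 : 0 < Y := by
      by_contra hcon
      have hY0 : Y = 0 := by omega
      rw [hY0] at h
      nlinarith
    obtain ⟨⟨z, hz⟩⟩ := (Nat.card_pos_iff.1 h1).1
    exact ⟨z, hz⟩
  · rintro ⟨z, hz⟩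
    have h1 : 0 < Y := Nat.card_pos_iff.2 ⟨⟨⟨z, hz⟩⟩, inferInstance⟩
    nlinarith

omit [Fintype T] [DecidableEq ι] in
open Classical in
theorem sum_occ (q : Eqn S) (z : ι × F2 → F2) : ∑ c, (if Occ q c then (1 : F2) else 0) * z c =
    ∑ i : {i // i ∈ S q.1}, q.2.2.1 i * z (i.1, q.2.2.2.1 i) := by
  rw [Fintype.sum_prod_type]
  symm
  refine Finset.sum_of_injOn (fun i : {i // i ∈ S q.1} => i.1) (fun i _ j _ h => Subtype.ext h)
    (fun _ _ => Finset.mem_coe.2 (Finset.mem_univ _)) ?_ ?_
  · intro i _ hi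
    refine Finset.sum_eq_zero fun a _ => ?_
    rw [if_neg, zero_mul]
    rintro ⟨h, -⟩
    exact hi ⟨⟨i, h⟩, Finset.mem_coe.2 (Finset.mem_univ _), rfl⟩
  · intro i _
    rw [Finset.sum_eq_single (q.2.2.2.1 i)]
    · congr 1
      rcases F2.cases (q.2.2.1 i) with h | h
      · rw [h, if_neg]
        rintro ⟨h', h1, -⟩
        rw [h] at h1
        exact zero_ne_one h1
      · rw [h, if_pos ⟨i.2, h, rfl⟩]
    · intro a _ ha
      rw [if_neg, zero_mul]
      rintro ⟨h', -, h2⟩
      exact ha h2.symm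
    · intro h
      exact absurd (Finset.mem_univ _) h

theorem test_iff' (k : Cand S) : ev S ρ num C m hm x (.ker k false) <
    2 * ev S ρ num C m hm x (.ker k true) ↔ ∃ v : ι → F2, ∀ q, Usd S ρ num C m hm x k q →
      dt q.2.2.1 (res S q.1 v + q.2.2.2.1) = q.2.2.2.2 := by
  classical
  rw [test_iff]
  have hl : ∀ (i : ι) (z : ι × F2 → F2), ∑ c, Nk S ρ num C m hm x k (Sum.inl i) c * z c =
      z (i, 0) + z (i, 1) := by
    intro i z
    rw [Fintype.sum_prod_type, Finset.sum_eq_single i]
    · rw [show (∑ a : F2, Nk S ρ num C m hm x k (Sum.inl i) (i, a) * z (i, a)) =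
        Nk S ρ num C m hm x k (Sum.inl i) (i, 0) * z (i, 0) +
        Nk S ρ num C m hm x k (Sum.inl i) (i, 1) * z (i, 1) from Fin.sum_univ_two _]
      have h1 : ∀ a, Nk S ρ num C m hm x k (Sum.inl i) (i, a) = 1 := fun a => if_pos rfl
      rw [h1, h1, one_mul, one_mul]
    · intro j _ hj
      refine Finset.sum_eq_zero fun a _ => ?_
      have h1 : Nk S ρ num C m hm x k (Sum.inl i) (j, a) = 0 := if_neg fun h => hj h.symm
      rw [h1, zero_mul]
    · intro h
      exact absurd (Finset.mem_univ _) h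
  have hr : ∀ (q : Eqn S) (z : ι × F2 → F2), Usd S ρ num C m hm x k q →
      ∑ c, Nk S ρ num C m hm x k (Sum.inr q) c * z c =
      ∑ i : {i // i ∈ S q.1}, q.2.2.1 i * z (i.1, q.2.2.2.1 i) := by
    intro q z hU
    rw [← sum_occ]
    refine Finset.sum_congr rfl fun c _ => ?_
    congr 1
    exact if_pos hU
  constructor
  · rintro ⟨z, hz⟩
    refine ⟨fun i => z (i, 0), fun q hU => ?_⟩
    have h1 : ∀ i, z (i, 0) + z (i, 1) = 1 := by
      intro i
      have h2 := hz (Sum.inl i)
      rw [hl] at h2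
      exact h2.trans (ck_inl S ρ num C m hm x k i)
    have h2 := hz (Sum.inr q)
    rw [hr q z hU] at h2
    have h3 : ck S ρ num C m hm x k true (Sum.inr q) = q.2.2.2.2 := if_pos ⟨rfl, hU⟩
    rw [h3] at h2
    rw [← h2]
    refine Finset.sum_congr rfl fun i _ => ?_
    congr 1
    change z (i.1, 0) + q.2.2.2.1 i = z (i.1, q.2.2.2.1 i)
    rcases F2.cases (q.2.2.2.1 i) with h | h
    · rw [h, add_zero]
    · rw [h]
      have h5 : ∀ a b : F2, a + b = 1 → a + 1 = b := by decide
      exact h5 _ _ (h1 i.1)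
  · rintro ⟨v, hv⟩
    refine ⟨fun c => v c.1 + c.2, ?_⟩
    rintro (i | q)
    · rw [hl]
      have h5 : ∀ a : F2, a + 0 + (a + 1) = 1 := by decide
      exact (h5 _).trans (ck_inl S ρ num C m hm x k i).symm
    · by_cases hU : Usd S ρ num C m hm x k q
      · rw [hr q _ hU]
        have h3 : ck S ρ num C m hm x k true (Sum.inr q) = q.2.2.2.2 := if_pos ⟨rfl, hU⟩
        rw [h3, ← hv q hU]
        rfl
      · have h3 : ck S ρ num C m hm x k true (Sum.inr q) = 0 := if_neg fun h => hU h.2
        rw [h3]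
        refine Finset.sum_eq_zero fun c _ => ?_
        have h4 : Nk S ρ num C m hm x k (Sum.inr q) c = 0 := if_neg hU
        rw [h4, zero_mul]

end Pool.Agent.H5Lin
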