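import Pool.Agent.H5Lin.Fool
import Pool.Agent.H5Dich.ResistMain

/-!
# Circuits with symmetric gates and matrix gates: the lower bounds
-/

set_option autoImplicit false

namespace Pool.Agent.H5Lin

open Module Pool.Agent.H5Sym Pool.Agent.H5Dich

universe u

theorem lowerL {Γ : Lang} (hΓ : HasParity Γ) : ∃ c : ℕ, 0 < c ∧ ∀ (n : ℕ)
    (U : Submodule F2 (Fin n → F2)) (D : Type u) (C : LCircuit.{0, u} (Con Γ (Fin n)) D)
    [Finite C.Gate] (inp : Bool → D) (acc : D → Prop) (_ : C.Action fun u : U => flipC u.1),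
    C.OddFields →
    (∀ φ : Con Γ (Fin n) → Bool, 2 ^ (n - finrank F2 U) ≤ Nat.card (sol (ones φ)) →
      acc (C.eval (inp ∘ φ) C.out)) →
    (∀ φ : Con Γ (Fin n) → Bool, sol (ones φ) = ∅ → ¬ acc (C.eval (inp ∘ φ) C.out)) →
    2 ^ (finrank F2 U / c) ≤ C.size := by
  classical
  obtain ⟨R, fin, dec, φ, L, hsol, y0, hy0, hwt⟩ := exists_data hΓ
  set ρ := Fintype.card R with hρ
  have hρ0 : 0 < ρ := by
    rw [hρ, Fintype.card_pos_iff]
    by_contra hemp
    rw [not_nonempty_iff] at hemp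
    refine hy0 ?_
    have : y0 = 0 := funext fun c => hemp.elim c
    rw [this, ext_zero]
    exact L.zero_mem
  set N := 256 * 4 ^ ρ * (ρ + 2) ^ 2 with hN
  refine ⟨2 * (ρ * N + 1), Nat.mul_pos (by norm_num) (Nat.succ_pos _), ?_⟩
  intro n U D C _ inp acc act hodd hacc hrej
  have hs : 0 < C.size := Nat.add_pos_left (Nat.card_pos_iff.2 ⟨⟨C.out⟩, inferInstance⟩) _
  obtain ⟨ι₀, hι₀⟩ := exists_info U
  generalize finrank F2 U = d at ι₀ hι₀ hacc ⊢
  set κ₀ := d / (2 * (ρ * N + 1)) with hκdef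
  rcases Nat.eq_zero_or_pos κ₀ with h0 | hκ₀
  · rw [h0, pow_zero]; exact hs
  obtain ⟨κ, hκe⟩ : ∃ κ, κ = κ₀ + 1 := ⟨_, rfl⟩
  have hκ : 0 < κ := by omega
  have hcκ : (ρ * N + 1) * κ ≤ d := by
    have h1 : 2 * (ρ * N + 1) * κ₀ ≤ d := Nat.mul_div_le d _
    have h2 : κ ≤ 2 * κ₀ := by omega
    calc (ρ * N + 1) * κ ≤ (ρ * N + 1) * (2 * κ₀) := Nat.mul_le_mul_left _ h2
      _ = 2 * (ρ * N + 1) * κ₀ := by ring
      _ ≤ d := h1
  obtain ⟨d', rfl⟩ : ∃ d', d = d' + 1 := by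
    refine ⟨d - 1, ?_⟩
    have : 1 ≤ (ρ * N + 1) * κ := Nat.mul_pos (Nat.succ_pos _) hκ
    omega
  have hNP : N * κ ≤ d' / ρ := by
    rw [Nat.le_div_iff_mul_le hρ0]
    have : (ρ * N + 1) * κ = N * κ * ρ + κ := by ring
    omega
  set P := d' / ρ with hPdef
  have hN1 : 0 < N := by rw [hN]; positivity
  have hP0 : 0 < P := lt_of_lt_of_le (Nat.mul_pos hN1 hκ) hNP
  have hP : 256 * 4 ^ ρ * κ * (ρ * P + 2) ^ 2 ≤ P ^ 3 := by
    calc 256 * 4 ^ ρ * κ * (ρ * P + 2) ^ 2 ≤ 256 * 4 ^ ρ * κ * ((ρ + 2) * P) ^ 2 := by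
          gcongr
          nlinarith
      _ = N * κ * P ^ 2 := by rw [hN]; ring
      _ ≤ P * P ^ 2 := Nat.mul_le_mul_right _ hNP
      _ = P ^ 3 := by ring
  by_contra hcon
  push Not at hcon
  have hC : 2 * C.size ^ 2 < 4 ^ κ := by
    have h3 : C.size ^ 2 ≤ (2 ^ κ₀) ^ 2 := Nat.pow_le_pow_left hcon.le 2
    have h4 : (2 ^ κ₀) ^ 2 = 4 ^ κ₀ := by rw [← pow_mul, mul_comm, pow_mul]; norm_num
    have h5 : 0 < 4 ^ κ₀ := by positivity
    rw [h4] at h3
    calc 2 * C.size ^ 2 ≤ 2 * 4 ^ κ₀ := Nat.mul_le_mul_left _ h3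
      _ < 4 ^ κ₀ * 4 := by linarith
      _ = 4 ^ κ := by rw [hκe, pow_succ]
  -- the blocks
  obtain ⟨ι₁⟩ : Nonempty (R × Fin P ↪ Fin d') := by
    refine Function.Embedding.nonempty_of_card_le ?_
    rw [Fintype.card_prod, Fintype.card_fin, Fintype.card_fin, ← hρ]
    exact Nat.mul_div_le d' ρ
  let ι₂ : R × Fin P ↪ Fin (d' + 1) := ι₁.trans (Fin.succEmb d')
  let v0 : Fin n := ι₀ 0
  let U' : Submodule F2 (Fin n → F2) := U ⊓ LinearMap.ker (LinearMap.proj (R := F2)
    (φ := fun _ : Fin n => F2) v0)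
  have hU' : ∀ u, u ∈ U' ↔ u ∈ U ∧ u v0 = 0 := fun u => Iff.rfl
  have hι : ∀ y : R × Fin P → F2, ∃ u ∈ U', ∀ p, u ((ι₂.trans ι₀) p) = y p := by
    intro y
    obtain ⟨u, hu, hu'⟩ := hι₀ (Function.extend ι₂ y 0)
    refine ⟨u, (hU' u).2 ⟨hu, ?_⟩, fun p => ?_⟩
    · change u (ι₀ 0) = 0
      rw [hu', Function.extend_apply']
      · rfl
      · rintro ⟨p, hp⟩
        exact Fin.succ_ne_zero _ hp
    · rw [Function.Embedding.trans_apply, hu', ι₂.injective.extend_apply]
  have hle : U' ≤ U := fun u hu => ((hU' u).1 hu).1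
  obtain ⟨f, -, hf⟩ := foolingL (m := ρ * P + 2) v0 (ι₂.trans ι₀) U' (fun u hu => ((hU' u).1 hu).2)
    hι C hodd inp (act.comap (Submodule.inclusion hle).toAddMonoidHom) hκ hP0 hP hC φ L hwt
  have hmany : 2 ^ (n - (d' + 1)) ≤ Nat.card (sol (ones (frm v0 (ι₂.trans ι₀) f φ L 0))) := by
    -- the assignments which vanish on the variables that occur
    let used : Finset (Fin n) := insert v0 (Finset.univ.map (ι₂.trans ι₀))
    have hused : used.card ≤ d' + 1 := by
      refine (Finset.card_insert_le _ _).trans ?_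
      rw [Finset.card_map, Finset.card_univ, Fintype.card_prod, Fintype.card_fin, ← hρ]
      have h2 : ρ * P ≤ d' := Nat.mul_div_le d' ρ
      exact Nat.succ_le_succ h2
    have h1 : Nat.card ({v // v ∉ used} → F2) = 2 ^ (n - used.card) := by
      rw [Nat.card_eq_fintype_card, Fintype.card_fun, ZMod.card, Fintype.card_subtype_compl,
        Fintype.card_fin, Fintype.card_coe]
    have : Finite (sol (ones (frm v0 (ι₂.trans ι₀) f φ L 0))) := Subtype.finite
    refine le_trans (Nat.pow_le_pow_right (by norm_num) (by omega : n - (d' + 1) ≤ n - used.card)) ?_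
    rw [← h1]
    refine Nat.card_le_card_of_injective (fun x => ⟨fun v => if h : v ∉ used then x ⟨v, h⟩ else 0,
      ?_⟩) ?_
    · rw [sol_frm _ _ _ _ _ hsol]
      intro j
      have h2 : (fun v => if h : v ∉ used then x ⟨v, h⟩ else 0) ∘ sc v0 (ι₂.trans ι₀) f j +
          ext ((0 : Fin (ρ * P + 2) → R → F2) j) = 0 := by
        rw [Pi.zero_apply, ext_zero, add_zero]
        funext o
        cases o with
        | none =>
          have h3 : v0 ∈ used := Finset.mem_insert_self _ _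
          change (if h : v0 ∉ used then x ⟨v0, h⟩ else 0) = 0
          rw [dif_neg (not_not.2 h3)]
        | some c =>
          have h3 : (ι₂.trans ι₀) (c, f c j) ∈ used :=
            Finset.mem_insert_of_mem (Finset.mem_map.2 ⟨_, Finset.mem_univ _, rfl⟩)
          change (if h : (ι₂.trans ι₀) (c, f c j) ∉ used then x ⟨_, h⟩ else 0) = 0
          rw [dif_neg (not_not.2 h3)]
      rw [h2]
      exact L.zero_mem
    · intro x x' hxx
      funext v
      have h2 := congrFun (congrArg Subtype.val hxx) v.1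
      dsimp only at h2
      rw [dif_pos v.2, dif_pos v.2] at h2
      exact h2
  have hne : ∀ w, (sol (ones (frm v0 (ι₂.trans ι₀) f φ L w))).Nonempty := by
    intro w
    by_contra hcon2
    rw [Set.not_nonempty_iff_eq_empty] at hcon2
    refine hrej _ hcon2 ?_
    rw [hf w 0]
    exact hacc _ hmany
  choose x hx using fun b : Fin (ρ * P + 2) → Bool => hne fun j => if b j then y0 else 0
  have hinj : Function.Injective fun b : Fin (ρ * P + 2) → Bool =>
      ((fun p => x b ((ι₂.trans ι₀) p), x b v0) : (R × Fin P → F2) × F2) := by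
    intro b b' hbb
    have e1 := congrArg Prod.fst hbb
    have e2 := congrArg Prod.snd hbb
    dsimp only at e1 e2
    have key : ∀ j, ext ((if b j then y0 else 0) + (if b' j then y0 else 0) : R → F2) ∈ L := by
      intro j
      have h1 := (sol_frm _ _ _ _ _ hsol _ _).1 (hx b) j
      have h2 := (sol_frm _ _ _ _ _ hsol _ _).1 (hx b') j
      have h3 : x b ∘ sc v0 (ι₂.trans ι₀) f j = x b' ∘ sc v0 (ι₂.trans ι₀) f j := by
        funext o
        cases o with
        | none => exact e2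
        | some c => exact congrFun e1 (c, f c j)
      have h4 := L.add_mem h1 h2
      rw [h3] at h4
      have h5 : ∀ a b c : Option R → F2, a + b + (a + c) = b + c := by
        intro a b c
        have := add_self_mod a
        rw [show a + b + (a + c) = (a + a) + (b + c) by ring, this, zero_add]
      rw [h5, ← ext_add] at h4
      exact h4
    funext j
    have h1 := key j
    cases hb : b j <;> cases hb' : b' j <;> rw [hb, hb'] at h1
    · simp only [Bool.false_eq_true, if_false, if_true, zero_add] at h1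
      exact absurd h1 hy0
    · simp only [Bool.false_eq_true, if_false, if_true, add_zero] at h1
      exact absurd h1 hy0
  have h1 := Fintype.card_le_of_injective _ hinj
  rw [Fintype.card_fun, Fintype.card_prod, Fintype.card_fun, Fintype.card_prod, Fintype.card_bool,
    Fintype.card_fin, Fintype.card_fin, ZMod.card, ← hρ, ← pow_succ,
    Nat.pow_le_pow_iff_right (by norm_num)] at h1
  omega



theorem resistL {k : ℕ} (hk : 3 ≤ k) (R : Set (Fin k → F2)) (hR : PairwiseSubspace R) (ε : ℝ)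
    (hε0 : 0 < ε) (hε1 : ε ≤ 1) (n : ℕ) (U : Submodule F2 (Fin n → F2))
    (D : Type u) (C : LCircuit.{0, u} (Con (pred R) (Fin n)) D) [Finite C.Gate] (inp : Bool → D)
    (acc : D → Prop) (act : C.Action fun u : U => flipC u.1) (hodd : C.OddFields)
    (hacc : ∀ φ : Con (pred R) (Fin n) → Bool, Proper φ →
      2 ^ (n - finrank F2 U) ≤ Nat.card (sol (ones φ)) → acc (C.eval (inp ∘ φ) C.out))
    (hrej : ∀ φ : Con (pred R) (Fin n) → Bool, Proper φ → ValueLT (R.ncard / 2 ^ k + ε) φ →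
      ¬ acc (C.eval (inp ∘ φ) C.out)) :
    2 ^ ⌊ε ^ 4 * finrank F2 U / (2 * resC k : ℕ)⌋₊ ≤ C.size := by
  classical
  obtain ⟨q, M, hqM, hM⟩ := hR
  have hs : 0 < C.size := Nat.add_pos_left (Nat.card_pos_iff.2 ⟨⟨C.out⟩, inferInstance⟩) _
  obtain ⟨ι₀, hι₀⟩ := exists_info U
  generalize finrank F2 U = d at ι₀ hι₀ hacc ⊢
  set K : ℕ := ⌈4 * k / ε ^ 2⌉₊ + 1 with hK
  set N := 256 * 4 ^ k * K ^ 2 with hN
  have hε2 : 0 < ε ^ 2 := by positivity
  have hε21 : ε ^ 2 ≤ 1 := pow_le_one₀ hε0.le hε1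
  have hK1 : (4 * k / ε ^ 2 : ℝ) < K := by
    rw [hK]
    push_cast
    linarith [Nat.le_ceil (4 * k / ε ^ 2 : ℝ)]
  have hK2 : (K : ℝ) * ε ^ 2 ≤ 4 * k + 2 := by
    have h1 : (K : ℝ) < 4 * k / ε ^ 2 + 1 + 1 := by
      rw [hK]
      push_cast
      have := Nat.ceil_lt_add_one (show (0 : ℝ) ≤ 4 * k / ε ^ 2 by positivity)
      linarith
    have h2 : (K : ℝ) * ε ^ 2 ≤ (4 * k / ε ^ 2 + 1 + 1) * ε ^ 2 :=
      mul_le_mul_of_nonneg_right h1.le hε2.le
    have h3 : (4 * k / ε ^ 2 + 1 + 1) * ε ^ 2 = 4 * k + 2 * ε ^ 2 := by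
      field_simp
      ring
    linarith
  set κ₀ := ⌊ε ^ 4 * d / (2 * resC k : ℕ)⌋₊ with hκdef
  rcases Nat.eq_zero_or_pos κ₀ with h0 | hκ₀
  · rw [h0, pow_zero]; exact hs
  obtain ⟨κ, hκe⟩ : ∃ κ, κ = κ₀ + 1 := ⟨_, rfl⟩
  have hκ : 0 < κ := by omega
  have hcκ : (k * N + 1) * κ ≤ d := by
    have h1 : (κ : ℝ) ≤ ε ^ 4 * d / resC k := by
      have h2 : (κ₀ : ℝ) ≤ ε ^ 4 * d / (2 * resC k : ℕ) := Nat.floor_le (by positivity)
      have h3 : (κ : ℝ) ≤ 2 * κ₀ := by exact_mod_cast (by omega : κ ≤ 2 * κ₀)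
      have h4 : (0 : ℝ) < resC k := by
        have : 0 < resC k := Nat.succ_pos _
        exact_mod_cast this
      have h5 : 2 * (ε ^ 4 * d / (2 * resC k : ℕ)) = ε ^ 4 * d / resC k := by
        push_cast
        field_simp
      linarith
    have hc : (0 : ℝ) < resC k := by
      have : 0 < resC k := Nat.succ_pos _
      exact_mod_cast this
    have h2 : ((k * N + 1 : ℕ) : ℝ) * ε ^ 4 ≤ resC k := by
      rw [hN, resC]
      push_cast
      have h3 : ((K : ℝ) * ε ^ 2) ^ 2 ≤ (4 * k + 2) ^ 2 := by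
        gcongr
      have h4 : ε ^ 4 ≤ 1 := pow_le_one₀ hε0.le hε1
      have h5 : ((k : ℝ) * (256 * 4 ^ k * (K : ℝ) ^ 2) + 1) * ε ^ 4 =
          k * (256 * 4 ^ k * ((K : ℝ) * ε ^ 2) ^ 2) + ε ^ 4 := by ring
      rw [h5]
      gcongr
    have h3 : ((k * N + 1 : ℕ) : ℝ) * κ ≤ d := by
      calc ((k * N + 1 : ℕ) : ℝ) * κ ≤ ((k * N + 1 : ℕ) : ℝ) * (ε ^ 4 * d / resC k) := by gcongr
        _ = (((k * N + 1 : ℕ) : ℝ) * ε ^ 4) * (d / resC k) := by ring
        _ ≤ resC k * (d / resC k) := by gcongr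
        _ = d := by field_simp
    exact_mod_cast h3
  obtain ⟨d', rfl⟩ : ∃ d', d = d' + 1 := by
    refine ⟨d - 1, ?_⟩
    have : 1 ≤ (k * N + 1) * κ := Nat.mul_pos (Nat.succ_pos _) hκ
    omega
  have hNP : N * κ ≤ d' / k := by
    rw [Nat.le_div_iff_mul_le (by omega)]
    have : (k * N + 1) * κ = N * κ * k + κ := by ring
    omega
  set P := d' / k with hPdef
  have hN1 : 0 < N := by
    rw [hN]
    have : 0 < K := Nat.succ_pos _
    positivity
  have hP0 : 0 < P := lt_of_lt_of_le (Nat.mul_pos hN1 hκ) hNP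
  have hP : 256 * 4 ^ Fintype.card (Fin k) * κ * (K * P) ^ 2 ≤ P ^ 3 := by
    rw [Fintype.card_fin]
    calc 256 * 4 ^ k * κ * (K * P) ^ 2 = N * κ * P ^ 2 := by rw [hN]; ring
      _ ≤ P * P ^ 2 := Nat.mul_le_mul_right _ hNP
      _ = P ^ 3 := by ring
  by_contra hcon
  push Not at hcon
  have hC : 2 * C.size ^ 2 < 4 ^ κ := by
    have h3 : C.size ^ 2 ≤ (2 ^ κ₀) ^ 2 := Nat.pow_le_pow_left hcon.le 2
    have h4 : (2 ^ κ₀) ^ 2 = 4 ^ κ₀ := by rw [← pow_mul, mul_comm, pow_mul]; norm_num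
    have h5 : 0 < 4 ^ κ₀ := by positivity
    rw [h4] at h3
    calc 2 * C.size ^ 2 ≤ 2 * 4 ^ κ₀ := Nat.mul_le_mul_left _ h3
      _ < 4 ^ κ₀ * 4 := by linarith
      _ = 4 ^ κ := by rw [hκe, pow_succ]
  -- the blocks
  obtain ⟨ι₁⟩ : Nonempty (Fin k × Fin P ↪ Fin d') := by
    refine Function.Embedding.nonempty_of_card_le ?_
    rw [Fintype.card_prod, Fintype.card_fin, Fintype.card_fin, Fintype.card_fin]
    exact Nat.mul_div_le d' k
  let ι₂ : Fin k × Fin P ↪ Fin (d' + 1) := ι₁.trans (Fin.succEmb d')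
  let v0 : Fin n := ι₀ 0
  let U' : Submodule F2 (Fin n → F2) := U ⊓ LinearMap.ker (LinearMap.proj (R := F2)
    (φ := fun _ : Fin n => F2) v0)
  have hU' : ∀ u, u ∈ U' ↔ u ∈ U ∧ u v0 = 0 := fun u => Iff.rfl
  have hι : ∀ y : Fin k × Fin P → F2, ∃ u ∈ U', ∀ p, u ((ι₂.trans ι₀) p) = y p := by
    intro y
    obtain ⟨u, hu, hu'⟩ := hι₀ (Function.extend ι₂ y 0)
    refine ⟨u, (hU' u).2 ⟨hu, ?_⟩, fun p => ?_⟩
    · change u (ι₀ 0) = 0
      rw [hu', Function.extend_apply']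
      · rfl
      · rintro ⟨p, hp⟩
        exact Fin.succ_ne_zero _ hp
    · rw [Function.Embedding.trans_apply, hu', ι₂.injective.extend_apply]
  have hwt : ∀ h : Fin k → F2, h ≠ 0 → (∀ y, ext y ∈ M.comap (LinearMap.funLeft F2 F2 some) →
      ∑ c, h c * y c = 0) → 3 ≤ (Finset.univ.filter fun c => h c ≠ 0).card := by
    intro h hh hy
    have h1 := hM h hh fun m hm => hy m hm
    have h2 : {j | h j ≠ 0} = ↑(Finset.univ.filter fun c => h c ≠ 0) := by
      ext j
      simp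
    rwa [h2, Set.ncard_coe_finset] at h1
  have hle : U' ≤ U := fun u hu => ((hU' u).1 hu).1
  obtain ⟨f, hdist, hf⟩ := foolingL (Γ := pred R) (m := K * P) v0 (ι₂.trans ι₀) U'
    (fun u hu => ((hU' u).1 hu).2) hι C hodd inp (act.comap (Submodule.inclusion hle).toAddMonoidHom)
    hκ hP0 hP hC
    {⟨(), (some, q)⟩} (M.comap (LinearMap.funLeft F2 F2 some)) hwt
  replace hdist := hdist (by rwa [Fintype.card_fin])
  have hprop : ∀ w, Proper (frm (Γ := pred R) v0 (ι₂.trans ι₀) f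
      {⟨(), (some, q)⟩} (M.comap (LinearMap.funLeft F2 F2 some)) w) := by
    intro w t ht
    obtain ⟨j, l, hl, rfl⟩ := (frm_pred R v0 _ f q M w t).1 ht
    intro c c' h
    exact congrArg Prod.fst ((ι₂.trans ι₀).injective h)
  -- the homogeneous system
  have hmany : 2 ^ (n - (d' + 1)) ≤ Nat.card (sol (ones (frm (Γ := pred R) v0 (ι₂.trans ι₀) f
      {⟨(), (some, q)⟩} (M.comap (LinearMap.funLeft F2 F2 some)) 0))) := by
    refine many_sol (insert v0 (Finset.univ.map (ι₂.trans ι₀))) ?_ _ fun x hx => ?_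
    · refine (Finset.card_insert_le _ _).trans ?_
      rw [Finset.card_map, Finset.card_univ, Fintype.card_prod, Fintype.card_fin, Fintype.card_fin]
      have h2 : k * P ≤ d' := Nat.mul_div_le d' k
      exact Nat.succ_le_succ h2
    · intro t ht
      obtain ⟨j, l, hl, rfl⟩ := (frm_pred R v0 _ f q M 0 t).1 ht
      have h1 : (fun c => x ((rowC R (ι₂.trans ι₀) f j (q + ((0 : Fin (K * P) → Fin k → F2) j + l))).2.1 c) +
          (rowC R (ι₂.trans ι₀) f j (q + ((0 : Fin (K * P) → Fin k → F2) j + l))).2.2 c) = q + l := by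
        funext c
        change x ((ι₂.trans ι₀) (c, f c j)) + (q + ((0 : Fin (K * P) → Fin k → F2) j + l)) c =
          (q + l) c
        rw [hx _ (Finset.mem_insert_of_mem (Finset.mem_map.2 ⟨_, Finset.mem_univ _, rfl⟩)),
          Pi.zero_apply, zero_add, zero_add]
      rw [h1]
      exact hqM l hl
  -- the translates
  set δ : ℝ := R.ncard / 2 ^ k with hδ
  have hRk : R.ncard ≤ 2 ^ k := by
    have h1 := Set.ncard_le_ncard (Set.subset_univ R) (Set.toFinite _)
    rw [Set.ncard_univ, Nat.card_eq_fintype_card, Fintype.card_fun, ZMod.card, Fintype.card_fin] at h1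
    exact h1
  have hδ0 : 0 ≤ δ := by positivity
  have hδ1 : δ ≤ 1 := by
    rw [hδ, div_le_one (by positivity)]
    exact_mod_cast hRk
  obtain ⟨w, hw⟩ := exists_w (m := K * P) (dens R M) (dens_nonneg R M) (dens_le_one R M) hδ0 hδ1
    hε0 hε1 (by rw [dens_sum, hδ]; field_simp)
    (ι := Fin k × Fin P → F2) (fun z j => (fun c => z (c, f c j)) + q) (by
      rw [Fintype.card_fun, ZMod.card, Fintype.card_prod, Fintype.card_fin, Fintype.card_fin]
      have h1 : (2 : ℝ) ≤ Real.exp 1 := by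
        have := Real.add_one_le_exp (1 : ℝ)
        linarith
      have h2 : ((2 ^ (k * P) : ℕ) : ℝ) ≤ Real.exp ((k * P : ℕ) * 1) := by
        rw [Real.exp_nat_mul]
        push_cast
        gcongr
      refine h2.trans_lt (Real.exp_lt_exp.2 ?_)
      push_cast
      have hPr : (0 : ℝ) < P := by exact_mod_cast hP0
      have h3 : (k : ℝ) < ε ^ 2 / 4 * K := by
        have h4 := mul_lt_mul_of_pos_left hK1 (show 0 < ε ^ 2 / 4 by positivity)
        have h5 : ε ^ 2 / 4 * (4 * k / ε ^ 2) = (k : ℝ) := by field_simp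
        rwa [h5] at h4
      nlinarith)
  refine hrej _ (hprop w) ?_ ((hf w 0).symm ▸ hacc _ (hprop 0) hmany)
  intro x
  rw [card_sat R v0 _ f hdist q M w x, card_total R v0 _ f hdist q M w]
  have hMc : (0 : ℝ) < Nat.card M := by
    have : 0 < Nat.card M := Nat.card_pos
    exact_mod_cast this
  have h1 := hw (x ∘ (ι₂.trans ι₀))
  have h2 := mul_lt_mul_of_pos_right h1 hMc
  rw [← mul_assoc]
  exact h2



end Pool.Agent.H5Lin
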