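import Pool.Agent.H5Lin.Core

/-!
# Few functionals vanish on stabilisers
-/

set_option autoImplicit false

namespace Pool.Agent.H5Lin

open Module Pool.Agent.H5Sym

universe u v w

section count

variable {V : Type} [AddCommGroup V] [Module F2 V] [Finite V] {X : Type} (τ : V → Equiv.Perm X)
  (hτ : ∀ u v, τ (u + v) = τ u * τ v)

include hτ in
theorem tau_zero : τ 0 = 1 := by
  have := hτ 0 0
  rw [add_zero] at this
  exact left_eq_mul.1 this

/-- the stabiliser of a point -/
def pstab (x : X) : Submodule F2 V where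
  carrier := {v | τ v x = x}
  zero_mem' := by
    rw [Set.mem_ofPred_eq, tau_zero τ hτ]; rfl
  add_mem' := by
    intro u v hu hv
    rw [Set.mem_ofPred_eq] at hu hv ⊢
    rw [hτ, Equiv.Perm.mul_apply, hv, hu]
  smul_mem' := by
    intro c v hv
    rcases F2.cases c with rfl | rfl
    · rw [zero_smul, Set.mem_ofPred_eq, tau_zero τ hτ]; rfl
    · rwa [one_smul]

include hτ in
theorem tau_comm (u v : V) (x : X) : τ u (τ v x) = τ v (τ u x) := by
  rw [← Equiv.Perm.mul_apply, ← hτ, add_comm, hτ, Equiv.Perm.mul_apply]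

include hτ in
/-- the number of the functionals that vanish on the stabiliser of some point -/
theorem special_card [Finite X] :
    {ξ : Dual F2 V | ∃ x, ∀ v, τ v x = x → ξ v = 0}.ncard ≤ Nat.card X := by
  classical
  have : FiniteDimensional F2 V := Module.Finite.of_finite
  have hτ2 : ∀ v x, τ v (τ v x) = x := by
    intro v x
    rw [← Equiv.Perm.mul_apply, ← hτ, add_self_mod, tau_zero τ hτ]
    rfl
  let s : Setoid X :=
    { r := fun x y => ∃ v, τ v x = y
      iseqv :=
        { refl := fun x => ⟨0, by rw [tau_zero τ hτ]; rfl⟩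
          symm := by
            rintro x y ⟨v, rfl⟩
            exact ⟨v, hτ2 v x⟩
          trans := by
            rintro x y z ⟨v, rfl⟩ ⟨v', rfl⟩
            exact ⟨v' + v, by rw [hτ, Equiv.Perm.mul_apply]⟩ } }
  have hemb : ∀ x : X, ∃ f : (pstab τ hτ x).dualAnnihilator → X, Function.Injective f ∧
      ∀ y, ∃ v, τ v x = f y := by
    intro x
    set H := pstab τ hτ x with hH
    let b := Module.finBasis F2 (V ⧸ H)
    let e : (H.dualAnnihilator) ≃ (V ⧸ H) :=
      (H.dualQuotEquivDualAnnihilator.symm.trans b.toDualEquiv.symm).toEquiv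
    refine ⟨fun y => τ (Quotient.out (e y)) x, ?_, fun y => ⟨_, rfl⟩⟩
    intro y z hyz
    apply e.injective
    dsimp only at hyz
    set u := Quotient.out (e y) with hu
    set v := Quotient.out (e z) with hv
    have h1 : u - v ∈ H := by
      have h0 : u - v = v + u := by
        have := add_self_mod v
        calc u - v = u - v + 0 := by abel
          _ = u - v + (v + v) := by rw [this]
          _ = v + u := by abel
      rw [h0]
      change τ (v + u) x = x
      rw [hτ, Equiv.Perm.mul_apply, hyz, hτ2]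
    have h2 : (Submodule.Quotient.mk u : V ⧸ H) = Submodule.Quotient.mk v :=
      (Submodule.Quotient.eq H).2 h1
    have h3 : (Submodule.Quotient.mk u : V ⧸ H) = e y := Quotient.out_eq (e y)
    have h4 : (Submodule.Quotient.mk v : V ⧸ H) = e z := Quotient.out_eq (e z)
    rw [← h3, ← h4, h2]
  choose f hf1 hf2 using hemb
  let S := {ξ : Dual F2 V | ∃ x, ∀ v, τ v x = x → ξ v = 0}
  have hrep : ∀ φ : S, ∃ q : Quotient s, φ.1 ∈ (pstab τ hτ q.out).dualAnnihilator := by
    rintro ⟨φ, x, hx⟩
    refine ⟨Quotient.mk s x, ?_⟩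
    rw [Submodule.mem_dualAnnihilator]
    obtain ⟨v, hv⟩ := Quotient.mk_out (s := s) x
    intro w hw
    refine hx w ?_
    have hw' : τ w (Quotient.mk s x).out = (Quotient.mk s x).out := hw
    have h1 : τ v (τ w (Quotient.mk s x).out) = x := by rw [hw', hv]
    rw [tau_comm τ hτ, hv] at h1
    exact h1
  choose q hq using hrep
  rw [← Nat.card_coe_set_eq]
  refine Nat.card_le_card_of_injective (fun φ : S => f (q φ).out ⟨φ.1, hq φ⟩) ?_
  intro φ φ' h
  dsimp only at h
  have h1 : q φ = q φ' := by
    rw [← Quotient.out_eq (q φ), ← Quotient.out_eq (q φ')]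
    refine Quotient.sound ?_
    obtain ⟨v, hv⟩ := hf2 (q φ).out ⟨φ.1, hq φ⟩
    obtain ⟨v', hv'⟩ := hf2 (q φ').out ⟨φ'.1, hq φ'⟩
    exact Setoid.trans ⟨v, hv⟩ (Setoid.symm (h ▸ ⟨v', hv'⟩))
  have h2 : ∀ (a b : Quotient s) (hab : a = b) (x : (pstab τ hτ a.out).dualAnnihilator)
      (y : (pstab τ hτ b.out).dualAnnihilator), f a.out x = f b.out y → x.1 = y.1 := by
    rintro a b rfl x y hxy
    rw [hf1 _ hxy]
  exact Subtype.ext (h2 _ _ h1 _ _ h)

end count

namespace LCircuit

namespace Action

variable {T : Type u} {D : Type v} {C : LCircuit.{u, v} T D}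
variable {V : Type} [AddCommGroup V] [Module F2 V] [Finite V] {ρ : V → Equiv.Perm T}
  (act : C.Action ρ)

theorem special_card [Finite C.Gate] : act.special.ncard ≤ C.size := by
  have : Finite (Dual F2 V) := Finite.of_injective (fun q : Dual F2 V => (q : V → F2))
    DFunLike.coe_injective
  have h1 : act.special = {ξ : Dual F2 V | ∃ g, ∀ v, act.gate v g = g → ξ v = 0} ∪
      {ξ : Dual F2 V | ∃ i, ∀ v, act.row v i = i → ξ v = 0} := rfl
  rw [h1, LCircuit.size]
  exact (Set.ncard_union_le _ _).trans (Nat.add_le_add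
    (H5Lin.special_card act.gate act.gate_add) (H5Lin.special_card act.row act.row_add))

end Action

end LCircuit

end Pool.Agent.H5Lin
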