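import Pool.Agent.H5Lin.Basic
import Pool.Agent.H5Dich.Inst

/-!
# Linear systems are easy for equivariant circuits with linear algebra over the field with two elements
-/

set_option autoImplicit false

namespace Pool.Agent.H5Lin

open Matrix Module Pool.Agent.H5Sym Pool.Agent.H5Dich

/-- the number of vectors in the kernel of a matrix over the field with two elements -/
noncomputable def kerFun : MatFun ℕ where
  K := F2
  enc := fun a => (a : F2)
  fn := fun n M => Nat.card {y : Fin n → F2 // M *ᵥ y = 0}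
  inv := by
    intro n A M hA
    have hA' : Aᵀ * A = 1 := mul_eq_one_comm.1 hA
    refine Nat.card_congr ⟨fun y => ⟨A *ᵥ y.1, ?_⟩, fun z => ⟨Aᵀ *ᵥ z.1, ?_⟩, fun y => ?_, fun z => ?_⟩
    · have h1 : A *ᵥ ((Aᵀ * M * A) *ᵥ y.1) = 0 := by rw [y.2, mulVec_zero]
      rw [mulVec_mulVec, ← Matrix.mul_assoc, ← Matrix.mul_assoc, hA, Matrix.one_mul] at h1
      rw [mulVec_mulVec]
      exact h1
    · rw [mulVec_mulVec, Matrix.mul_assoc, Matrix.mul_assoc, hA, Matrix.mul_one, ← mulVec_mulVec,
        z.2, mulVec_zero]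
    · refine Subtype.ext ?_
      change Aᵀ *ᵥ (A *ᵥ y.1) = y.1
      rw [mulVec_mulVec, hA', one_mulVec]
    · refine Subtype.ext ?_
      change A *ᵥ (Aᵀ *ᵥ z.1) = z.1
      rw [mulVec_mulVec, hA, one_mulVec]

theorem kerFun_app (ι : Type) [Fintype ι] [DecidableEq ι] (M : Matrix ι ι F2) :
    kerFun.app ι M = Nat.card {y : ι → F2 // M *ᵥ y = 0} := by
  rw [MatFun.app]
  change Nat.card {y : Fin (Nat.card ι) → F2 // M.submatrix (Finite.equivFin ι).symm
    (Finite.equivFin ι).symm *ᵥ y = 0} = _
  set e := Finite.equivFin ι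
  refine Nat.card_congr ((e.symm.arrowCongr (Equiv.refl F2)).subtypeEquiv fun y => ?_)
  have h1 : M.submatrix e.symm e.symm *ᵥ y = (M *ᵥ (y ∘ e)) ∘ e.symm := by
    rw [submatrix_mulVec_equiv]
    rfl
  have h2 : (e.symm.arrowCongr (Equiv.refl F2)) y = y ∘ e := rfl
  rw [h1, h2]
  constructor
  · intro h
    funext i
    have := congrFun h (e i)
    simpa using this
  · intro h
    rw [h]
    rfl

section circuit

variable (k n : ℕ)

/-- the constraints -/
abbrev Cn : Type := Con (xor k) (Fin n)

/-- the names of the rows and columns of one matrix -/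
abbrev Ix : Type := (Fin n ⊕ Cn k n) ⊕ ((Fin n × F2) ⊕ Unit)

/-- the gates: inputs, two constants, two matrix gates, the output -/
abbrev Gt : Type := Cn k n ⊕ (Bool ⊕ (Bool ⊕ Unit))

variable {k n}

instance : Fintype (Cn k n) :=
  have : Fintype (xor k).Idx := inferInstanceAs (Fintype Unit)
  inferInstance

instance : DecidableEq (Cn k n) :=
  have : DecidableEq (xor k).Idx := inferInstanceAs (DecidableEq Unit)
  inferInstance

/-- the number of the occurrences of a literal in a constraint modulo two -/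
def cnt (t : Cn k n) (v : Fin n) (a : F2) : F2 :=
  ∑ j : Fin k, if t.2.1 j = v ∧ t.2.2 j = a then 1 else 0

/-- the constant gates -/
def cst (b : Bool) : Gt k n := Sum.inr (Sum.inl b)

/-- the entries of the matrices -/
def ent (b : Bool) : Ix k n → Ix k n → Gt k n
  | Sum.inl (Sum.inl v), Sum.inr (Sum.inl c) => cst (decide (v = c.1))
  | Sum.inl (Sum.inl _), Sum.inr (Sum.inr _) => cst b
  | Sum.inl (Sum.inr t), Sum.inr (Sum.inl c) => if cnt t c.1 c.2 = 0 then cst false else Sum.inl t
  | _, _ => cst false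

open Classical in
/-- the function of the output gate -/
noncomputable def dec (p : ℕ → Prop) (R : ℕ) (S : Multiset (ℕ × ℕ)) : ℕ :=
  if p ((((S.filter fun e => e.1 = 1).map Prod.snd).sum -
    ((S.filter fun e => e.1 = 0).map Prod.snd).sum / 2) / 2 ^ R) then 1 else 0

variable (k n) in
/-- the circuit -/
noncomputable def circ (p : ℕ → Prop) : LCircuit (Cn k n) ℕ where
  Gate := Gt k n
  Row := Bool × Ix k n
  finite := inferInstance
  owner r := Sum.inr (Sum.inr (Sum.inl r.1))
  label
    | Sum.inl t => .input t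
    | Sum.inr (Sum.inl b) => .sym fun _ => if b then 1 else 0
    | Sum.inr (Sum.inr (Sum.inl _)) => .mat kerFun
    | Sum.inr (Sum.inr (Sum.inr _)) => .sym (dec p (Nat.card (Fin n ⊕ Cn k n)))
  wires
    | Sum.inr (Sum.inr (Sum.inr _)) =>
      {(0, Sum.inr (Sum.inr (Sum.inl false))), (1, Sum.inr (Sum.inr (Sum.inl true)))}
    | _ => 0
  entry r c := ent r.1 r.2 c.2
  level
    | Sum.inl _ => 0
    | Sum.inr (Sum.inl _) => 0
    | Sum.inr (Sum.inr (Sum.inl _)) => 1
    | Sum.inr (Sum.inr (Sum.inr _)) => 2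
  level_wires := by
    rintro (t | b | b | u) e he
    · simp at he
    · simp at he
    · simp at he
    · simp only [Multiset.insert_eq_cons, Multiset.mem_cons, Multiset.mem_singleton] at he
      rcases he with rfl | rfl <;> exact Nat.one_lt_two
  level_entry := by
    rintro ⟨b, i⟩ ⟨b', j⟩ -
    have h : ∀ i j : Ix k n, (∃ t, ent b i j = Sum.inl t) ∨ ∃ c, ent b i j = Sum.inr (Sum.inl c) := by
      rintro ((v | t) | (c | c)) ((v' | t') | (c' | c')) <;> simp only [ent, cst]
      all_goals try exact Or.inr ⟨_, rfl⟩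
      split_ifs
      · exact Or.inr ⟨_, rfl⟩
      · exact Or.inl ⟨_, rfl⟩
    rcases h i j with ⟨t, h⟩ | ⟨c, h⟩ <;> rw [h] <;> exact Nat.zero_lt_one
  out := Sum.inr (Sum.inr (Sum.inr ()))

theorem cnt_flip (u : Fin n → F2) (t : Cn k n) (v : Fin n) (a : F2) :
    cnt (flipC u t) v (a + u v) = cnt t v a := by
  unfold cnt
  refine Finset.sum_congr rfl fun j _ => ?_
  have h : ((flipC u t).2.1 j = v ∧ (flipC u t).2.2 j = a + u v) ↔ (t.2.1 j = v ∧ t.2.2 j = a) := by
    change (t.2.1 j = v ∧ t.2.2 j + u (t.2.1 j) = a + u v) ↔ _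
    constructor
    · rintro ⟨h1, h2⟩
      rw [h1] at h2
      exact ⟨h1, add_right_cancel h2⟩
    · rintro ⟨h1, h2⟩
      rw [h1, h2]
      exact ⟨rfl, rfl⟩
  simp only [h]

/-- the flips act on the literals -/
def litPerm (u : Fin n → F2) : Equiv.Perm (Fin n × F2) :=
  Equiv.prodShear (Equiv.refl _) fun v => Equiv.addRight (u v)

theorem litPerm_apply (u : Fin n → F2) (c : Fin n × F2) : litPerm u c = (c.1, c.2 + u c.1) := rfl

/-- the flips act on the names of rows and columns -/
def ixPerm (u : Fin n → F2) : Equiv.Perm (Ix k n) :=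
  Equiv.sumCongr (Equiv.sumCongr (Equiv.refl _) (flipC u))
    (Equiv.sumCongr (litPerm u) (Equiv.refl _))

variable (k n) in
/-- the action of the flips on the circuit -/
noncomputable def circAct (p : ℕ → Prop) :
    (circ k n p).Action fun u : Fin n → F2 => (flipC u : Equiv.Perm (Cn k n)) where
  gate u := Equiv.sumCongr (flipC u) (Equiv.refl _)
  row u := Equiv.prodCongr (Equiv.refl _) (ixPerm u)
  gate_add u v := by
    refine Equiv.ext ?_
    rintro (t | g)
    · change Sum.inl (flipC (u + v) t) = Sum.inl (flipC u (flipC v t))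
      rw [flipC_add]
      rfl
    · rfl
  row_add u v := by
    refine Equiv.ext ?_
    rintro ⟨b, (w | t) | (c | c)⟩
    · rfl
    · change (b, Sum.inl (Sum.inr (flipC (u + v) t))) = (b, Sum.inl (Sum.inr (flipC u (flipC v t))))
      rw [flipC_add]
      rfl
    · change (b, Sum.inr (Sum.inl (litPerm (u + v) c))) =
        (b, Sum.inr (Sum.inl (litPerm u (litPerm v c))))
      rw [litPerm_apply, litPerm_apply, litPerm_apply, Pi.add_apply, add_assoc, add_comm (u c.1)]
    · rfl
  label u g := by
    rcases g with t | b | b | b <;> rfl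
  wires u g := by
    rcases g with t | b | b | b
    · rfl
    · rfl
    · rfl
    · change ({(0, Sum.inr (Sum.inr (Sum.inl false))), (1, Sum.inr (Sum.inr (Sum.inl true)))} :
        Multiset (ℕ × Gt k n)) = Multiset.map (Prod.map id (Equiv.sumCongr (flipC u) (Equiv.refl _)))
          {(0, Sum.inr (Sum.inr (Sum.inl false))), (1, Sum.inr (Sum.inr (Sum.inl true)))}
      simp only [Multiset.insert_eq_cons, Multiset.map_cons, Multiset.map_singleton]
      rfl
  owner u i := rfl
  entry := by
    rintro u ⟨b, i⟩ ⟨b', j⟩ h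
    have hb : b = b' := by
      have := congrArg (fun g : Gt k n => match g with
        | Sum.inr (Sum.inr (Sum.inl c)) => c
        | _ => false) h
      exact this
    subst hb
    change ent b (ixPerm u i) (ixPerm u j) = Equiv.sumCongr (flipC u) (Equiv.refl _) (ent b i j)
    rcases i with (v | t) | (c | c) <;> rcases j with (v' | t') | (c' | c') <;> try rfl
    change (if cnt (flipC u t) c'.1 (c'.2 + u c'.1) = 0 then cst false else Sum.inl (flipC u t)) =
      Equiv.sumCongr (flipC u) (Equiv.refl _) (if cnt t c'.1 c'.2 = 0 then cst false else Sum.inl t)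
    rw [cnt_flip]
    split_ifs <;> rfl
  out u := rfl

end circuit

end Pool.Agent.H5Lin
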